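import Mathlib
import Pool.Agent.W25.UB.Stm7
import Pool.Agent.W352.UBNum

/-! Project UB (helper25): the choice of the parameters for any number of classes
(theorem `main : St_NUMT`), after `Pool.Agent.W352.UBNum`. -/

set_option autoImplicit false

namespace Pool.Agent.W856.UBNumT

open Finset Filter Topology
open Pool.Agent.H361R2.GM
open Pool.Agent.H362R2.CM
open Pool.Agent.W25.UB
open Pool.Agent.W352.UBNum (Br2_zero_bounds numb)

/-- the algebra of the base inequality -/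
theorem core (n m ε₀ e C1 K J T P b b2 d g y : ℝ) (hm : 0 ≤ m) (hn : 0 < n)
    (hnm : (4 - ε₀ / 8) * m < n) (h0 : 0 < ε₀) (h01 : ε₀ ≤ 1 / 100) (he : 0 < e)
    (he1 : e ≤ ε₀ / 2000) (hC : 1 ≤ C1) (hK : 0 < K) (hJ : 0 < J) (hT : 0 < T) (hP : 0 < P)
    (hd0 : 0 ≤ d) (hd : d ≤ e * ε₀ ^ 2 / 1000000) (hb : 1 - d ≤ b) (hb1 : b ≤ 1)
    (hb2 : 1 - d ≤ b2) (hg : g = e / 4 / (1 / 4 + ε₀ / 8)) (hy : y = K * g * (J ^ 2 / T))
    (hyl : 2000000 * C1 / (e * ε₀ ^ 2) ≤ y) :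
    (1 + (K * g * (J ^ 2 / T) + Real.sqrt (1024 / (e / 4 * (J ^ 2 * (b * (P * T ^ 2)))) *
      (K * (2 * C1 * (g * ((1 + e ^ 3) * (J ^ 4 * (P * T))))) + K ^ 2 * g ^ 2 *
        max 0 ((1 + e ^ 3) ^ 2 * (J ^ 6 * P) -
          2 * (J ^ 2 / T) * ((1 - 2 * e ^ 3) * (J ^ 4 * (b2 * (P * T)))) +
          (J ^ 2 / T) ^ 2 * (J ^ 2 * (P * T ^ 2))))))) * (m * (P * T ^ 3)) <
      n * (K * (e / 4 * (J ^ 2 * (b * (P * T ^ 2))))) := by
  have he2 : e ≤ 1 / 200000 := by linarith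
  have he3 : 0 < e ^ 3 := by positivity
  have he3' : e ^ 3 ≤ 1 / 1000 := by
    calc e ^ 3 ≤ (1 / 200000) ^ 3 := pow_le_pow_left₀ he.le he2 3
      _ ≤ 1 / 1000 := by norm_num
  have h02 : ε₀ ^ 2 ≤ 1 / 10000 := by
    calc ε₀ ^ 2 ≤ (1 / 100) ^ 2 := pow_le_pow_left₀ h0.le h01 2
      _ = 1 / 10000 := by norm_num
  have h0sq : 0 < ε₀ ^ 2 := by positivity
  have hd1 : d ≤ ε₀ / 32 := by
    refine hd.trans ?_
    have h1 : e * ε₀ ^ 2 ≤ 1 * ε₀ := by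
      have : ε₀ ^ 2 ≤ ε₀ := by nlinarith
      exact mul_le_mul (by linarith) this h0sq.le (by norm_num)
    linarith
  have hd2 : d ≤ 1 / 2 := by linarith
  have hb0 : 0 < b := by linarith
  have hg0 : 0 < g := by rw [hg]; positivity
  have hy0 : 0 < y := by rw [hy]; positivity
  -- the maximum
  have hmax : max 0 ((1 + e ^ 3) ^ 2 * (J ^ 6 * P) -
          2 * (J ^ 2 / T) * ((1 - 2 * e ^ 3) * (J ^ 4 * (b2 * (P * T)))) +
          (J ^ 2 / T) ^ 2 * (J ^ 2 * (P * T ^ 2))) ≤ J ^ 6 * P * (7 * e ^ 3 + 2 * d) := by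
    apply max_le (by positivity)
    have e1 : (1 + e ^ 3) ^ 2 * (J ^ 6 * P) -
          2 * (J ^ 2 / T) * ((1 - 2 * e ^ 3) * (J ^ 4 * (b2 * (P * T)))) +
          (J ^ 2 / T) ^ 2 * (J ^ 2 * (P * T ^ 2)) =
        J ^ 6 * P * ((1 + e ^ 3) ^ 2 - 2 * ((1 - 2 * e ^ 3) * b2) + 1) := by
      field_simp
    rw [e1]
    apply mul_le_mul_of_nonneg_left _ (by positivity)
    have h1 : (1 - 2 * e ^ 3) * (1 - d) ≤ (1 - 2 * e ^ 3) * b2 :=
      mul_le_mul_of_nonneg_left hb2 (by linarith)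
    have h2 : (e ^ 3) ^ 2 ≤ e ^ 3 := by nlinarith
    have h3 : 0 ≤ e ^ 3 * d := by positivity
    nlinarith
  -- under the root
  have hroot : 1024 / (e / 4 * (J ^ 2 * (b * (P * T ^ 2)))) *
      (K * (2 * C1 * (g * ((1 + e ^ 3) * (J ^ 4 * (P * T))))) + K ^ 2 * g ^ 2 *
        max 0 ((1 + e ^ 3) ^ 2 * (J ^ 6 * P) -
          2 * (J ^ 2 / T) * ((1 - 2 * e ^ 3) * (J ^ 4 * (b2 * (P * T)))) +
          (J ^ 2 / T) ^ 2 * (J ^ 2 * (P * T ^ 2)))) ≤ (ε₀ / 4 * y) ^ 2 := by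
    calc 1024 / (e / 4 * (J ^ 2 * (b * (P * T ^ 2)))) *
      (K * (2 * C1 * (g * ((1 + e ^ 3) * (J ^ 4 * (P * T))))) + K ^ 2 * g ^ 2 *
        max 0 ((1 + e ^ 3) ^ 2 * (J ^ 6 * P) -
          2 * (J ^ 2 / T) * ((1 - 2 * e ^ 3) * (J ^ 4 * (b2 * (P * T)))) +
          (J ^ 2 / T) ^ 2 * (J ^ 2 * (P * T ^ 2)))) ≤
        1024 / (e / 4 * (J ^ 2 * (b * (P * T ^ 2)))) *
      (K * (2 * C1 * (g * (2 * (J ^ 4 * (P * T))))) + K ^ 2 * g ^ 2 *
        (J ^ 6 * P * (7 * e ^ 3 + 2 * d))) := by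
          gcongr
          linarith
      _ = 4096 / (e * b) * (4 * C1 * y + y ^ 2 * (7 * e ^ 3 + 2 * d)) := by
          rw [hy]
          field_simp
          ring
      _ ≤ 8192 / e * (4 * C1 * y + y ^ 2 * (7 * e ^ 3 + 2 * d)) := by
          apply mul_le_mul_of_nonneg_right _ (by positivity)
          rw [div_le_div_iff₀ (by positivity) he]
          nlinarith
      _ ≤ (ε₀ / 4 * y) ^ 2 := numb ε₀ e C1 d y h0 he he1 hd hyl hy0
  have hsqrt := Real.sqrt_le_sqrt hroot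
  rw [Real.sqrt_sq (by positivity)] at hsqrt
  -- the last comparison
  have hyb : 32 / ε₀ ≤ y := by
    refine le_trans ?_ hyl
    rw [div_le_div_iff₀ h0 (by positivity)]
    have h1 : e * ε₀ ^ 2 ≤ ε₀ := by nlinarith
    nlinarith
  have hyb' : 32 ≤ y * ε₀ := (div_le_iff₀ h0).1 hyb
  have hgt : K * e * (J ^ 2 / T) = (1 + ε₀ / 2) * y := by
    rw [hy, hg]
    field_simp
    ring
  have hkey0 : (1 + (y + ε₀ / 4 * y)) * 4 ≤ (4 - ε₀ / 8) * ((1 + ε₀ / 2) * y * b) := by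
    have h1 : (1 + ε₀ / 2) * y * (1 - ε₀ / 32) ≤ (1 + ε₀ / 2) * y * b := by
      apply mul_le_mul_of_nonneg_left (by linarith) (by positivity)
    have h2 : (4 - ε₀ / 8) * ((1 + ε₀ / 2) * y * (1 - ε₀ / 32)) =
        4 * y + 7 / 4 * (y * ε₀) - 31 / 256 * (y * ε₀ * ε₀) +
          1 / 512 * (y * ε₀ * ε₀ * ε₀) := by
      ring
    have h3 : y * ε₀ * ε₀ ≤ y * ε₀ * (1 / 100) :=
      mul_le_mul_of_nonneg_left h01 (by positivity)
    have h4 : 0 ≤ y * ε₀ * ε₀ * ε₀ := by positivity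
    have h5 : (4 - ε₀ / 8) * ((1 + ε₀ / 2) * y * (1 - ε₀ / 32)) ≤
        (4 - ε₀ / 8) * ((1 + ε₀ / 2) * y * b) :=
      mul_le_mul_of_nonneg_left h1 (by linarith)
    rw [h2] at h5
    linarith only [h3, h4, h5, hyb']
  have hZ : 0 < (1 + ε₀ / 2) * y * b := by positivity
  have hkey : (1 + (y + ε₀ / 4 * y)) * m < n * ((1 + ε₀ / 2) * y * b) / 4 := by
    have h1 := mul_le_mul_of_nonneg_left hkey0 hm
    have h2 := mul_lt_mul_of_pos_right hnm hZ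
    have h3 : m * ((4 - ε₀ / 8) * ((1 + ε₀ / 2) * y * b)) =
        (4 - ε₀ / 8) * m * ((1 + ε₀ / 2) * y * b) := by ring
    rw [h3] at h1
    have h4 : m * ((1 + (y + ε₀ / 4 * y)) * 4) = 4 * ((1 + (y + ε₀ / 4 * y)) * m) := by ring
    rw [h4] at h1
    rw [lt_div_iff₀ (by norm_num)]
    linarith only [h1, h2]
  have hfac : 0 < P * T ^ 3 := by positivity
  calc (1 + (K * g * (J ^ 2 / T) + Real.sqrt (1024 / (e / 4 * (J ^ 2 * (b * (P * T ^ 2)))) *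
      (K * (2 * C1 * (g * ((1 + e ^ 3) * (J ^ 4 * (P * T))))) + K ^ 2 * g ^ 2 *
        max 0 ((1 + e ^ 3) ^ 2 * (J ^ 6 * P) -
          2 * (J ^ 2 / T) * ((1 - 2 * e ^ 3) * (J ^ 4 * (b2 * (P * T)))) +
          (J ^ 2 / T) ^ 2 * (J ^ 2 * (P * T ^ 2))))))) * (m * (P * T ^ 3))
      ≤ (1 + (y + ε₀ / 4 * y)) * (m * (P * T ^ 3)) := by
        apply mul_le_mul_of_nonneg_right _ (by positivity)
        rw [← hy]
        linarith
    _ = ((1 + (y + ε₀ / 4 * y)) * m) * (P * T ^ 3) := by ring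
    _ < (n * ((1 + ε₀ / 2) * y * b) / 4) * (P * T ^ 3) := mul_lt_mul_of_pos_right hkey hfac
    _ = n * (K * (e / 4 * (J ^ 2 * (b * (P * T ^ 2))))) := by
        rw [← hgt]
        field_simp

/-- the strict inequality at `ε = 0` -/
theorem base (n m : ℕ) (ε₀ ε₁ C1 : ℝ) (hn : 1 ≤ n) (hnm : (4 - ε₀ / 8) * (m : ℝ) < n)
    (h0 : 0 < ε₀) (h01 : ε₀ ≤ 1 / 100) (he : 0 < ε₁)
    (he1 : ε₁ ≤ ε₀ / 2000) (hC : 1 ≤ C1) : ∃ (K : ℕ) (Q : SPar), 2 ≤ K ∧ 3 ≤ n * K ∧ 0 < Q.I1 ∧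
    0 < Q.I2 ∧ 0 < Br Q (n * K) 0 ∧ 0 < Br2 Q (n * K) 0 ∧
    (1 + mucT Q n K ε₀ ε₁ (ε₁ / 4) C1 0) * ((m + 2 * 0) * Ac Q (n * K) 0) <
      n * (K * (ε₁ / 4 * βc Q (n * K) 0)) := by
  have hn1 : (1 : ℝ) ≤ n := by exact_mod_cast hn
  have hn0 : (0 : ℝ) < n := by linarith
  set s : ℝ := 2 + 1000000 / (ε₁ * ε₀ ^ 2) with hs
  set A : ℝ := 2 * s + 4 + 4000000 * C1 * n / (ε₁ ^ 2 * ε₀ ^ 2) with hA
  have hs0 : 0 < 1000000 / (ε₁ * ε₀ ^ 2) := by positivity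
  have hA0 : 0 < 4000000 * C1 * n / (ε₁ ^ 2 * ε₀ ^ 2) := by positivity
  have hs1 : 1 ≤ s := by rw [hs]; linarith
  have hAs : 2 * s + 4 ≤ A := by rw [hA]; linarith
  have hA4 : 4 ≤ A := by linarith
  obtain ⟨K', hK'⟩ := exists_nat_ge (100 * s ^ 2 * Real.exp A)
  set K : ℕ := K' + 3 with hK
  have hKR : 100 * s ^ 2 * Real.exp A ≤ (K : ℝ) := by
    rw [hK]; push_cast; linarith
  have hK2 : 2 ≤ K := by omega
  have hK2R : (2 : ℝ) ≤ K := by exact_mod_cast hK2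
  have hnK : K ≤ n * K := Nat.le_mul_of_pos_left K hn
  have hnK3 : 3 ≤ n * K := by omega
  have hkK : (K : ℝ) ≤ ((n * K : ℕ) : ℝ) := by exact_mod_cast hnK
  obtain ⟨Q, hQG, hQc, hQl⟩ := exists_parS A s hA4 hs1 (n * K) (hKR.trans hkK)
  obtain ⟨hI1, hI2, hI2le, hBl, hBu⟩ := Br_zero_bounds A s hs1 hAs (n * K) (hKR.trans hkK) Q
    hQG hQc hQl
  have hBl2 := Br2_zero_bounds A s hs1 hAs (n * K) (hKR.trans hkK) Q hQG hQc hQl
  set d : ℝ := Real.exp (-s + 2) with hd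
  have hd0 : 0 < d := Real.exp_pos _
  have hd1 : d ≤ ε₁ * ε₀ ^ 2 / 1000000 := by
    have h1 : d = (Real.exp (1000000 / (ε₁ * ε₀ ^ 2)))⁻¹ := by
      rw [hd, ← Real.exp_neg]
      congr 1
      rw [hs]; ring
    have h2 : 1000000 / (ε₁ * ε₀ ^ 2) ≤ Real.exp (1000000 / (ε₁ * ε₀ ^ 2)) := by
      have := Real.add_one_le_exp (1000000 / (ε₁ * ε₀ ^ 2))
      linarith
    rw [h1]
    calc (Real.exp (1000000 / (ε₁ * ε₀ ^ 2)))⁻¹ ≤ (1000000 / (ε₁ * ε₀ ^ 2))⁻¹ :=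
          inv_anti₀ hs0 h2
      _ = ε₁ * ε₀ ^ 2 / 1000000 := by rw [inv_div]
  have hd2 : d ≤ 1 / 2 := by
    have h1 : ε₁ * ε₀ ^ 2 ≤ 1 * 1 := by
      apply mul_le_mul (by linarith) _ (by positivity) (by norm_num)
      nlinarith
    linarith
  set k : ℕ := n * K with hk
  have hkcast : (k : ℝ) = n * K := by rw [hk]; push_cast; ring
  have hk3 : 3 ≤ k := hnK3
  have hK0 : (0 : ℝ) < K := by linarith
  have hk0 : (0 : ℝ) < k := by rw [hkcast]; positivity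
  set T : ℝ := Q.I2 with hT
  set P : ℝ := (1 / 3) * T ^ (k - 3) with hP
  have hP0 : 0 < P := by positivity
  have hpow1 : (1 / 3) * T ^ (k - 2) = P * T := by
    have : k - 2 = (k - 3) + 1 := by omega
    rw [this, pow_succ, hP]; ring
  have hpow2 : (1 / 3) * T ^ (k - 1) = P * T ^ 2 := by
    have : k - 1 = (k - 3) + 2 := by omega
    rw [hP, mul_assoc, ← pow_add, ← this]
  have hpow3 : (1 / 3) * T ^ k = P * T ^ 3 := by
    have : k = (k - 3) + 3 := by omega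
    rw [hP, mul_assoc, ← pow_add, ← this]
  have hPT : 0 < P * T := by positivity
  have hPT2 : 0 < P * T ^ 2 := by positivity
  rw [hpow1] at hBl2
  rw [hpow2] at hBl hBu
  set b : ℝ := Br Q k 0 / (P * T ^ 2) with hb
  set b2 : ℝ := Br2 Q k 0 / (P * T) with hb2
  have hBb : Br Q k 0 = b * (P * T ^ 2) := by
    rw [hb]; field_simp
  have hBb2 : Br2 Q k 0 = b2 * (P * T) := by
    rw [hb2]; field_simp
  have hb1 : 1 - d ≤ b := by
    rw [hb, le_div_iff₀ hPT2]; exact hBl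
  have hb1' : b ≤ 1 := by
    rw [hb, div_le_one hPT2]; exact hBu
  have hb21 : 1 - d ≤ b2 := by
    rw [hb2, le_div_iff₀ hPT]; exact hBl2
  have hJ : 0 < Q.I1 := by rw [hI1]; positivity
  have hBpos : 0 < Br Q k 0 := by
    rw [hBb]
    have : 0 < b := by linarith
    positivity
  have hB2pos : 0 < Br2 Q k 0 := by
    rw [hBb2]
    have : 0 < b2 := by linarith
    positivity
  set g : ℝ := ε₁ / 4 / (1 / 4 + ε₀ / 8) with hg
  have hg0 : 0 < g := by rw [hg]; positivity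
  have hyl : 2000000 * C1 / (ε₁ * ε₀ ^ 2) ≤ K * g * (Q.I1 ^ 2 / T) := by
    have h1 : A / k ≤ Q.I1 ^ 2 / T := by
      rw [le_div_iff₀ hI2, hI1]
      calc A / k * T ≤ A / k * (1 / (A * k)) := by
            apply mul_le_mul_of_nonneg_left hI2le
            have : 0 < A := by linarith
            positivity
        _ = (1 / (k : ℝ)) ^ 2 := by
            have : A ≠ 0 := by
              have : 0 < A := by linarith
              exact this.ne'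
            field_simp
    have h2 : ε₁ / 2 ≤ g := by
      rw [hg, le_div_iff₀ (by positivity)]
      have h4 : ε₁ * ε₀ ≤ ε₁ * (1 / 100) := mul_le_mul_of_nonneg_left h01 he.le
      have h5 : ε₁ / 2 * (1 / 4 + ε₀ / 8) = ε₁ / 8 + ε₁ * ε₀ / 16 := by ring
      rw [h5]
      linarith
    have h3 : 4000000 * C1 * n / (ε₁ ^ 2 * ε₀ ^ 2) ≤ A := by
      rw [hA]; linarith
    calc 2000000 * C1 / (ε₁ * ε₀ ^ 2) =
          (ε₁ / 2) * (1 / n) * (4000000 * C1 * n / (ε₁ ^ 2 * ε₀ ^ 2)) := by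
          field_simp
          ring
      _ ≤ (ε₁ / 2) * (1 / n) * A := by
          apply mul_le_mul_of_nonneg_left h3 (by positivity)
      _ = K * (ε₁ / 2) * (A / k) := by
          rw [hkcast]; field_simp
      _ ≤ K * g * (Q.I1 ^ 2 / T) := by
          have hA1 : 0 < A := by linarith
          apply mul_le_mul _ h1 (by positivity) (by positivity)
          apply mul_le_mul_of_nonneg_left h2 hK0.le
  have hcore := core n m ε₀ ε₁ C1 K Q.I1 T P b b2 d g (K * g * (Q.I1 ^ 2 / T))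
    (Nat.cast_nonneg m) hn0 hnm h0 h01 he he1 hC hK0
    hJ hI2 hP0 hd0.le hd1 hb1 hb1' hb21 hg rfl hyl
  refine ⟨K, Q, hK2, hnK3, hJ, hI2, hBpos, hB2pos, ?_⟩
  have eA : Ac Q k 0 = P * T ^ 3 := by
    unfold Ac
    rw [← hpow3]; simp [hT]
  have eβ : βc Q k 0 = Q.I1 ^ 2 * (b * (P * T ^ 2)) := by
    unfold βc
    rw [hBb]; simp
  have eg : g0c ε₀ (ε₁ / 4) 0 = g := by
    unfold g0c
    rw [hg]; simp
  have er : r0c Q k 0 = Q.I1 ^ 2 * (P * T ^ 2) := by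
    unfold r0c
    rw [← hpow2]
    simp only [add_zero, sub_zero, one_pow, div_one, one_mul, mul_one, ← hT]
    ring
  have el : l1c Q k ε₁ 0 = (1 - 2 * ε₁ ^ 3) * (Q.I1 ^ 4 * (b2 * (P * T))) := by
    unfold l1c
    rw [hBb2]; simp
  have eu : u2c Q k ε₁ 0 = (1 + ε₁ ^ 3) ^ 2 * (Q.I1 ^ 6 * P) := by
    unfold u2c
    rw [hP]
    simp only [add_zero, sub_zero, one_pow, div_one, one_mul, mul_one, ← hT]
    ring
  have ed : udc Q k ε₁ 0 = (1 + ε₁ ^ 3) * (Q.I1 ^ 4 * (P * T)) := by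
    unfold udc
    rw [← hpow1]
    simp only [add_zero, sub_zero, one_pow, div_one, one_mul, mul_one, ← hT]
    ring
  have emu : mucT Q n K ε₀ ε₁ (ε₁ / 4) C1 0 =
      K * g * (Q.I1 ^ 2 / T) + Real.sqrt (1024 / (ε₁ / 4 * (Q.I1 ^ 2 * (b * (P * T ^ 2)))) *
      (K * (2 * C1 * (g * ((1 + ε₁ ^ 3) * (Q.I1 ^ 4 * (P * T))))) + (K : ℝ) ^ 2 * g ^ 2 *
        max 0 ((1 + ε₁ ^ 3) ^ 2 * (Q.I1 ^ 6 * P) -
          2 * (Q.I1 ^ 2 / T) * ((1 - 2 * ε₁ ^ 3) * (Q.I1 ^ 4 * (b2 * (P * T)))) +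
          (Q.I1 ^ 2 / T) ^ 2 * (Q.I1 ^ 2 * (P * T ^ 2))))) := by
    unfold mucT qc
    rw [← hk, eg, eβ, ed, eu, el, er]
  rw [emu, eA, eβ, mul_zero, add_zero]
  exact hcore

theorem main : St_NUMT := by
  intro ε₀ h0 h01
  refine ⟨ε₀ / 8, by positivity, by linarith, ?_⟩
  intro n m hn hnm
  refine ⟨ε₀ / 2000, by positivity, ?_⟩
  intro ε₁ he he1 C1 hC
  obtain ⟨K, Q, hK, hnK3, hI1, hI2, hB, hB2, hb⟩ :=
    base n m ε₀ ε₁ C1 hn hnm h0 h01 he he1 hC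
  have hcB : Continuous fun ε : ℝ => Br Q (n * K) ε := by
    unfold Br
    fun_prop
  have hcB2 : Continuous fun ε : ℝ => Br2 Q (n * K) ε := by
    unfold Br2
    fun_prop
  have hcβ : Continuous fun ε : ℝ => βc Q (n * K) ε := by
    unfold βc
    fun_prop
  have hcA : Continuous fun ε : ℝ => Ac Q (n * K) ε := by
    unfold Ac
    fun_prop
  have hβ0 : βc Q (n * K) 0 ≠ 0 := by
    have : βc Q (n * K) 0 = Q.I1 ^ 2 * Br Q (n * K) 0 := by
      unfold βc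
      simp
    rw [this]
    positivity
  have hg : ContinuousAt (fun ε : ℝ => g0c ε₀ (ε₁ / 4) ε) 0 := by
    unfold g0c
    apply ContinuousAt.div (by fun_prop) (by fun_prop)
    have : (0 : ℝ) < (1 / 4 + ε₀ / 8) * (1 - 0) := by
      rw [sub_zero]; positivity
    exact this.ne'
  have hdv : ∀ n : ℕ, ContinuousAt (fun ε : ℝ => (Q.I1 + ε) ^ n / (1 - ε) ^ 2) 0 := by
    intro n
    apply ContinuousAt.div (by fun_prop) (by fun_prop)
    norm_num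
  have hr : ContinuousAt (fun ε : ℝ => r0c Q (n * K) ε) 0 := by
    unfold r0c
    have h1 := hdv 2
    have h2 : ContinuousAt (fun ε : ℝ => (1 + ε)) 0 := by fun_prop
    have h3 : ContinuousAt (fun ε : ℝ => (1 / 3 + ε)) 0 := by fun_prop
    have h4 : ContinuousAt (fun ε : ℝ => (Q.I2 + ε) ^ (n * K - 1)) 0 := by fun_prop
    exact (h2.mul (((h1.mul h2).mul h3).mul h4)).add continuousAt_id
  have hu : ContinuousAt (fun ε : ℝ => u2c Q (n * K) ε₁ ε) 0 := by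
    unfold u2c
    have h1 := hdv 6
    have h2 : ContinuousAt (fun ε : ℝ => (1 + ε)) 0 := by fun_prop
    have h3 : ContinuousAt (fun ε : ℝ => (1 / 3 + ε)) 0 := by fun_prop
    have h4 : ContinuousAt (fun ε : ℝ => (Q.I2 + ε) ^ (n * K - 3)) 0 := by fun_prop
    exact ((h2.mul continuousAt_const).mul (((h1.mul h2).mul h3).mul h4)).add continuousAt_id
  have hud : ContinuousAt (fun ε : ℝ => udc Q (n * K) ε₁ ε) 0 := by
    unfold udc
    have h1 := hdv 4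
    have h2 : ContinuousAt (fun ε : ℝ => (1 + ε)) 0 := by fun_prop
    have h3 : ContinuousAt (fun ε : ℝ => (1 / 3 + ε)) 0 := by fun_prop
    have h4 : ContinuousAt (fun ε : ℝ => (Q.I2 + ε) ^ (n * K - 2)) 0 := by fun_prop
    exact ((h2.mul continuousAt_const).mul (((h1.mul h2).mul h3).mul h4)).add continuousAt_id
  have hl : ContinuousAt (fun ε : ℝ => l1c Q (n * K) ε₁ ε) 0 := by
    unfold l1c
    have h1 : ContinuousAt (fun ε : ℝ => (1 - ε) ^ 4 * (Q.I1 - ε) ^ 4 / (1 + ε) ^ 2) 0 := by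
      apply ContinuousAt.div (by fun_prop) (by fun_prop)
      norm_num
    have h2 : ContinuousAt (fun ε : ℝ => (1 - ε)) 0 := by fun_prop
    have h3 : ContinuousAt (fun ε : ℝ => 2 * ε) 0 := by fun_prop
    exact ((h2.mul continuousAt_const).mul ((h1.mul h2).mul hcB2.continuousAt)).sub h3
  have hq : ContinuousAt (fun ε : ℝ => qc Q (n * K) ε₁ ε) 0 := by
    unfold qc
    have h1 : ContinuousAt (fun ε : ℝ => u2c Q (n * K) ε₁ ε -
        2 * (Q.I1 ^ 2 / Q.I2) * l1c Q (n * K) ε₁ ε +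
        (Q.I1 ^ 2 / Q.I2) ^ 2 * r0c Q (n * K) ε) 0 :=
      (hu.sub (continuousAt_const.mul hl)).add (continuousAt_const.mul hr)
    exact Filter.Tendsto.max tendsto_const_nhds h1.tendsto
  have hmu : ContinuousAt (fun ε : ℝ => mucT Q n K ε₀ ε₁ (ε₁ / 4) C1 ε) 0 := by
    unfold mucT
    have h1 : ContinuousAt (fun ε : ℝ => 1024 / (ε₁ / 4 * βc Q (n * K) ε)) 0 := by
      apply ContinuousAt.div continuousAt_const (continuousAt_const.mul hcβ.continuousAt)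
      have : ε₁ / 4 ≠ 0 := by positivity
      exact mul_ne_zero this hβ0
    have h2 : ContinuousAt (fun ε : ℝ => (K : ℝ) * (2 * C1 * (g0c ε₀ (ε₁ / 4) ε *
        udc Q (n * K) ε₁ ε)) + (K : ℝ) ^ 2 * g0c ε₀ (ε₁ / 4) ε ^ 2 * qc Q (n * K) ε₁ ε) 0 :=
      (continuousAt_const.mul (continuousAt_const.mul (hg.mul hud))).add
        ((continuousAt_const.mul (hg.pow 2)).mul hq)
    exact ((continuousAt_const.mul hg).mul continuousAt_const).add (h1.mul h2).sqrt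
  have hc1 : ContinuousAt (fun ε : ℝ => (1 + mucT Q n K ε₀ ε₁ (ε₁ / 4) C1 ε) *
      ((m + 2 * ε) * Ac Q (n * K) ε)) 0 := by
    apply ContinuousAt.mul (continuousAt_const.add hmu)
    apply ContinuousAt.mul (by fun_prop) hcA.continuousAt
  have hc2 : ContinuousAt (fun ε : ℝ => n * (K * (ε₁ / 4 * βc Q (n * K) ε))) 0 :=
    continuousAt_const.mul (continuousAt_const.mul (continuousAt_const.mul hcβ.continuousAt))
  have hev : ∀ᶠ ε : ℝ in 𝓝 0, (1 + mucT Q n K ε₀ ε₁ (ε₁ / 4) C1 ε) *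
      ((m + 2 * ε) * Ac Q (n * K) ε) < n * (K * (ε₁ / 4 * βc Q (n * K) ε)) :=
    hc1.tendsto.eventually_lt hc2.tendsto hb
  have hev1 : ∀ᶠ ε : ℝ in 𝓝 0, ε < 1 / 3 := gt_mem_nhds (by norm_num)
  have hev2 : ∀ᶠ ε : ℝ in 𝓝 0, ε < Q.I1 := gt_mem_nhds hI1
  have hev3 : ∀ᶠ ε : ℝ in 𝓝 0, ε < Q.I2 := gt_mem_nhds hI2
  have hev4 : ∀ᶠ ε : ℝ in 𝓝 0, 0 < Br Q (n * K) ε :=
    (hcB.tendsto (0 : ℝ)).eventually (lt_mem_nhds hB)
  have hev5 : ∀ᶠ ε : ℝ in 𝓝 0, 0 < Br2 Q (n * K) ε :=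
    (hcB2.tendsto (0 : ℝ)).eventually (lt_mem_nhds hB2)
  have hall := ((hev.and (hev1.and (hev2.and (hev3.and (hev4.and hev5))))).filter_mono
    (nhdsWithin_le_nhds (s := Set.Ioi (0 : ℝ)))).and (self_mem_nhdsWithin (s := Set.Ioi (0 : ℝ)))
  obtain ⟨ε, ⟨h1, h2, h3, h4, h5, h6⟩, h7⟩ := hall.exists
  exact ⟨K, Q, ε, hK, hnK3, h7, h2, h3, h4, h5, h6, h1⟩

end Pool.Agent.W856.UBNumT
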