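import Mathlib

/-!
Binomial sums, indicator polynomials of affine subspaces of `F_2 ^ n`, and the decision tree lemma.
-/

namespace Pool.Agent.W856.Corner

open Finset

lemma binom_le (n D : ℕ) (l : ℝ) (h0 : 0 < l) (h1 : l ≤ 1) (x : ℝ) (hx : (D : ℝ) ≤ x) :
    ∑ i ∈ range (D + 1), (n.choose i : ℝ) ≤ (1 + l) ^ n * l ^ (-x) := by
  have hstep : l ^ x * ∑ i ∈ range (D + 1), (n.choose i : ℝ) ≤ (1 + l) ^ n := by
    have e1 : (1 + l) ^ n = ∑ i ∈ range (n + 1), (n.choose i : ℝ) * l ^ i := by
      rw [add_comm, add_pow]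
      refine Finset.sum_congr rfl fun i _ => ?_
      rw [one_pow]; ring
    have e2 : ∑ i ∈ range (D + 1), (n.choose i : ℝ) * l ^ i ≤
        ∑ i ∈ range (n + 1), (n.choose i : ℝ) * l ^ i := by
      rcases le_total D n with h | h
      · exact Finset.sum_le_sum_of_subset_of_nonneg (Finset.range_mono (by omega))
          fun i _ _ => by positivity
      · refine le_of_eq (Finset.sum_subset (Finset.range_mono (by omega)) fun i _ hi => ?_).symm
        rw [Finset.mem_range, not_lt] at hi
        rw [Nat.choose_eq_zero_of_lt (by omega)]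
        simp
    rw [e1]
    refine le_trans ?_ e2
    rw [Finset.mul_sum]
    refine Finset.sum_le_sum fun i hi => ?_
    rw [mul_comm]
    refine mul_le_mul_of_nonneg_left ?_ (by positivity)
    rw [← Real.rpow_natCast]
    refine Real.rpow_le_rpow_of_exponent_ge h0 h1 ?_
    rw [Finset.mem_range] at hi
    have : (i : ℝ) ≤ D := by exact_mod_cast (by omega : i ≤ D)
    linarith
  rw [Real.rpow_neg h0.le, ← div_eq_mul_inv, le_div_iff₀ (Real.rpow_pos_of_pos h0 x)]
  linarith

/-- Hoeffding type bound. -/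
lemma binom_half (n D : ℕ) (ε : ℝ) (hε : 0 < ε) (hD : (D : ℝ) ≤ (1 / 2 - ε) * n) :
    ∑ i ∈ range (D + 1), (n.choose i : ℝ) ≤ 2 ^ n * Real.exp (-(2 * ε ^ 2) * n) := by
  have h := binom_le n D (Real.exp (-(4 * ε))) (Real.exp_pos _)
    (by rw [Real.exp_le_one_iff]; linarith) ((1 / 2 - ε) * n) hD
  refine h.trans ?_
  have e1 : Real.exp (-(4 * ε)) ^ (-((1 / 2 - ε) * (n : ℝ))) =
      Real.exp (2 * ε * (1 - 2 * ε)) ^ n := by
    rw [← Real.exp_mul, ← Real.exp_nat_mul]
    congr 1
    ring
  rw [e1, ← mul_pow]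
  have e2 : (1 + Real.exp (-(4 * ε))) * Real.exp (2 * ε * (1 - 2 * ε)) =
      2 * (Real.cosh (2 * ε) * Real.exp (-(4 * ε ^ 2))) := by
    rw [Real.cosh_eq]
    have a1 : Real.exp (2 * ε * (1 - 2 * ε)) = Real.exp (2 * ε) * Real.exp (-(4 * ε ^ 2)) := by
      rw [← Real.exp_add]; congr 1; ring
    have a2 : Real.exp (-(4 * ε)) * Real.exp (2 * ε) = Real.exp (-(2 * ε)) := by
      rw [← Real.exp_add]; congr 1; ring
    rw [a1]
    calc _ = (Real.exp (2 * ε) + Real.exp (-(4 * ε)) * Real.exp (2 * ε)) *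
          Real.exp (-(4 * ε ^ 2)) := by ring
      _ = _ := by rw [a2]; ring
  have e3 : Real.cosh (2 * ε) ≤ Real.exp (2 * ε ^ 2) := by
    have := Real.cosh_le_exp_half_sq (2 * ε)
    refine this.trans (le_of_eq ?_)
    congr 1; ring
  have e4 : Real.cosh (2 * ε) * Real.exp (-(4 * ε ^ 2)) ≤ Real.exp (-(2 * ε ^ 2)) := by
    calc _ ≤ Real.exp (2 * ε ^ 2) * Real.exp (-(4 * ε ^ 2)) :=
          mul_le_mul_of_nonneg_right e3 (Real.exp_pos _).le
      _ = _ := by rw [← Real.exp_add]; congr 1; ring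
  rw [e2]
  have e5 : Real.exp (-(2 * ε ^ 2) * n) = Real.exp (-(2 * ε ^ 2)) ^ n := by
    rw [← Real.exp_nat_mul]; congr 1; ring
  rw [e5, ← mul_pow]
  refine pow_le_pow_left₀ ?_ ?_ n
  · have := Real.cosh_pos (2 * ε)
    positivity
  · linarith

lemma binom_22 (n D : ℕ) (hD : (D : ℝ) ≤ 22 / 100 * n) :
    ∑ i ∈ range (D + 1), (n.choose i : ℝ) ≤ 2 ^ (77 / 100 * n : ℝ) := by
  have h := binom_le n D (11 / 39) (by norm_num) (by norm_num) (22 / 100 * n) hD
  refine h.trans ?_
  have e1 : ((11 : ℝ) / 39) ^ (-(22 / 100 * (n : ℝ))) = ((39 / 11 : ℝ) ^ (22 / 100 : ℝ)) ^ (n : ℝ) := by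
    rw [← Real.rpow_mul (by norm_num), Real.rpow_neg (by norm_num), ← Real.inv_rpow (by norm_num)]
    norm_num
  have e2 : (2 : ℝ) ^ (77 / 100 * n : ℝ) = ((2 : ℝ) ^ (77 / 100 : ℝ)) ^ (n : ℝ) := by
    rw [← Real.rpow_mul (by norm_num)]
  rw [e1, e2, ← Real.rpow_natCast, ← Real.mul_rpow (by norm_num) (by positivity)]
  refine Real.rpow_le_rpow (by positivity) ?_ (by positivity)
  refine le_of_pow_le_pow_left₀ (n := 100) (by norm_num) (by positivity) ?_
  rw [mul_pow, ← Real.rpow_natCast ((39 / 11 : ℝ) ^ (22 / 100 : ℝ)), ← Real.rpow_mul (by norm_num),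
    ← Real.rpow_natCast ((2 : ℝ) ^ (77 / 100 : ℝ)), ← Real.rpow_mul (by norm_num)]
  norm_num

lemma binom_10 (n D : ℕ) (hD : (D : ℝ) ≤ 1 / 10 * n) :
    ∑ i ∈ range (D + 1), (n.choose i : ℝ) ≤ 2 ^ (1 / 2 * n : ℝ) := by
  have h := binom_le n D (1 / 9) (by norm_num) (by norm_num) (1 / 10 * n) hD
  refine h.trans ?_
  have e1 : ((1 : ℝ) / 9) ^ (-(1 / 10 * (n : ℝ))) = ((9 : ℝ) ^ (1 / 10 : ℝ)) ^ (n : ℝ) := by
    rw [← Real.rpow_mul (by norm_num), Real.rpow_neg (by norm_num), ← Real.inv_rpow (by norm_num)]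
    norm_num
  have e2 : (2 : ℝ) ^ (1 / 2 * n : ℝ) = ((2 : ℝ) ^ (1 / 2 : ℝ)) ^ (n : ℝ) := by
    rw [← Real.rpow_mul (by norm_num)]
  rw [e1, e2, ← Real.rpow_natCast, ← Real.mul_rpow (by norm_num) (by positivity)]
  refine Real.rpow_le_rpow (by positivity) ?_ (by positivity)
  refine le_of_pow_le_pow_left₀ (n := 10) (by norm_num) (by positivity) ?_
  rw [mul_pow, ← Real.rpow_natCast ((9 : ℝ) ^ (1 / 10 : ℝ)), ← Real.rpow_mul (by norm_num),
    ← Real.rpow_natCast ((2 : ℝ) ^ (1 / 2 : ℝ)), ← Real.rpow_mul (by norm_num)]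
  norm_num

variable {n : ℕ}

lemma zmod2_cases (a : ZMod 2) : a = 0 ∨ a = 1 := by
  fin_cases a
  · left; rfl
  · right; rfl

lemma zmod2_add_self (a : ZMod 2) : a + a = 0 := CharTwo.add_self_eq_zero a

/-- Indicator polynomials of solution sets of `k` linear equations. -/
lemma ind_exists {k : ℕ} (Φ : (Fin n → ZMod 2) →ₗ[ZMod 2] (Fin k → ZMod 2)) (v : Fin k → ZMod 2) :
    ∃ p : MvPolynomial (Fin n) (ZMod 2), p.totalDegree ≤ k ∧
      ∀ y, MvPolynomial.eval y p ≠ 0 ↔ Φ y = v := by
  classical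
  refine ⟨∏ j : Fin k, (∑ i : Fin n, MvPolynomial.C (Φ (Pi.single i 1) j) * MvPolynomial.X i +
    MvPolynomial.C (1 + v j)), ?_, fun y => ?_⟩
  · refine (MvPolynomial.totalDegree_finsetProd _ _).trans ?_
    calc _ ≤ ∑ _j : Fin k, 1 := by
          refine Finset.sum_le_sum fun j _ => ?_
          refine (MvPolynomial.totalDegree_add _ _).trans (max_le ?_
            ((MvPolynomial.totalDegree_C _).le.trans (by norm_num)))
          refine MvPolynomial.totalDegree_finsetSum_le fun i _ => ?_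
          refine (MvPolynomial.totalDegree_mul _ _).trans ?_
          simp
      _ = k := by simp
  · have h1 : ∀ j, Φ y j = ∑ i : Fin n, Φ (Pi.single i 1) j * y i := by
      intro j
      have : y = ∑ i : Fin n, y i • (Pi.single i (1 : ZMod 2) : Fin n → ZMod 2) := by
        funext t
        simp [Finset.sum_apply, Pi.single_apply]
      conv_lhs => rw [this]
      rw [map_sum, Finset.sum_apply]
      refine Finset.sum_congr rfl fun i _ => ?_
      rw [map_smul, Pi.smul_apply, smul_eq_mul, mul_comm]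
    have h2 : MvPolynomial.eval y (∏ j : Fin k, (∑ i : Fin n, MvPolynomial.C (Φ (Pi.single i 1) j) *
        MvPolynomial.X i + MvPolynomial.C (1 + v j))) = ∏ j, (Φ y j + (1 + v j)) := by
      rw [map_prod]
      refine Finset.prod_congr rfl fun j _ => ?_
      rw [map_add, map_sum, h1]
      simp
    rw [h2, Finset.prod_ne_zero_iff]
    constructor
    · intro h
      funext j
      have := h j (Finset.mem_univ _)
      rcases zmod2_cases (Φ y j) with h3 | h3 <;> rcases zmod2_cases (v j) with h4 | h4 <;>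
        rw [h3, h4] at this ⊢ <;> revert this <;> decide
    · intro h j _
      rw [h]
      rcases zmod2_cases (v j) with h4 | h4 <;> rw [h4] <;> decide

/-- An affine subspace of codimension at most `k` is given by `k` equations. -/
lemma affine_eq (W : AffineSubspace (ZMod 2) (Fin n → ZMod 2)) (hW : (W : Set (Fin n → ZMod 2)).Nonempty)
    (k : ℕ) (hk : n ≤ Module.finrank (ZMod 2) W.direction + k) :
    ∃ (Φ : (Fin n → ZMod 2) →ₗ[ZMod 2] (Fin k → ZMod 2)) (b : Fin k → ZMod 2),
      ∀ y, y ∈ W ↔ Φ y = b := by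
  obtain ⟨p, hp⟩ := hW
  have hq : Module.finrank (ZMod 2) ((Fin n → ZMod 2) ⧸ W.direction) ≤
      Module.finrank (ZMod 2) (Fin k → ZMod 2) := by
    have := W.direction.finrank_quotient_add_finrank
    simp only [Module.finrank_fintype_fun_eq_card, Fintype.card_fin] at this ⊢
    omega
  obtain ⟨f, hf⟩ := (finrank_le_iff_exists_linearMap (R := ZMod 2)).1 hq
  refine ⟨f ∘ₗ W.direction.mkQ, f (W.direction.mkQ p), fun y => ?_⟩
  rw [LinearMap.comp_apply]
  constructor
  · intro hy
    congr 1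
    rw [Submodule.mkQ_apply, Submodule.mkQ_apply, Submodule.Quotient.eq]
    exact AffineSubspace.vsub_mem_direction hy hp
  · intro hy
    have := hf hy
    rw [Submodule.mkQ_apply, Submodule.mkQ_apply, Submodule.Quotient.eq] at this
    have h2 := AffineSubspace.vadd_mem_of_mem_direction this hp
    simpa using h2

lemma card_direction (W : AffineSubspace (ZMod 2) (Fin n → ZMod 2))
    (hW : (W : Set (Fin n → ZMod 2)).Nonempty) :
    (W : Set (Fin n → ZMod 2)).ncard = 2 ^ Module.finrank (ZMod 2) W.direction := by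
  classical
  obtain ⟨p, hp⟩ := hW
  have h1 : (W : Set (Fin n → ZMod 2)) = (fun v : Fin n → ZMod 2 => v + p) '' (W.direction : Set (Fin n → ZMod 2)) := by
    ext y
    simp only [Set.mem_image, SetLike.mem_coe]
    constructor
    · intro hy
      exact ⟨y - p, AffineSubspace.vsub_mem_direction hy hp, by simp⟩
    · rintro ⟨v, hv, rfl⟩
      exact AffineSubspace.vadd_mem_of_mem_direction hv hp
  rw [h1, Set.ncard_image_of_injective _ (add_left_injective p)]
  have h2 := Module.card_eq_pow_finrank (K := ZMod 2) (V := W.direction)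
  rw [ZMod.card] at h2
  rw [← h2, ← Nat.card_coe_set_eq]
  simp

/-- Decision tree lemma. -/
theorem tree {k : ℕ} (B : Set (Set (Fin n → ZMod 2)))
    (hB : ∀ b ∈ B, ∃ (Φ : (Fin n → ZMod 2) →ₗ[ZMod 2] (Fin k → ZMod 2)) (v : Fin k → ZMod 2),
      ∀ y, y ∈ b ↔ Φ y = v) :
    ∀ (m : ℕ) (N : Finset (Fin n → ZMod 2))
      (_ : ∀ a ∈ N, ∀ b ∈ N, ∀ c ∈ N, a + b + c ∈ N) (p : MvPolynomial (Fin n) (ZMod 2)) (d : ℕ)
      (_ : p.totalDegree ≤ d) (_ : ∀ y, MvPolynomial.eval y p ≠ 0 ↔ y ∈ N),
      ∃ F : Finset (MvPolynomial (Fin n) (ZMod 2)), F.card ≤ 2 ^ (k * m) ∧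
        (∀ q ∈ F, q.totalDegree ≤ d + k * m) ∧
        (∀ q ∈ F, ∀ y, MvPolynomial.eval y q ≠ 0 → y ∈ N ∧ ∀ b ∈ B, y ∉ b) ∧
        (Set.ncard {y | y ∈ N ∧ (∀ b ∈ B, y ∉ b) ∧ ∀ q ∈ F, MvPolynomial.eval y q = 0} : ℝ) ≤
          (1 - 1 / 2 ^ k) ^ m * N.card := by
  classical
  intro m
  induction m with
  | zero =>
    intro N hN p d hp hpN
    refine ⟨∅, by simp, by simp, by simp, ?_⟩
    simp only [pow_zero, one_mul]
    have : Set.ncard {y | y ∈ N ∧ (∀ b ∈ B, y ∉ b) ∧
        ∀ q ∈ (∅ : Finset (MvPolynomial (Fin n) (ZMod 2))), MvPolynomial.eval y q = 0} ≤ N.card := by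
      rw [← Set.ncard_coe_finset N]
      exact Set.ncard_le_ncard (fun y hy => hy.1) (Set.toFinite _)
    exact_mod_cast this
  | succ m ih =>
    intro N hN p d hp hpN
    have hr : (0 : ℝ) ≤ 1 - 1 / 2 ^ k := by
      have : (1 : ℝ) / 2 ^ k ≤ 1 := by
        rw [div_le_one (by positivity)]
        exact one_le_pow₀ (by norm_num)
      linarith
    by_cases hmeet : ∃ b ∈ B, ∃ y ∈ N, y ∈ b
    · obtain ⟨b, hb, y0, hy0N, hy0b⟩ := hmeet
      obtain ⟨Φ, v0, hΦ⟩ := hB b hb
      have hsub : ∀ v : Fin k → ZMod 2, ∃ F : Finset (MvPolynomial (Fin n) (ZMod 2)),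
          F.card ≤ 2 ^ (k * m) ∧ (∀ q ∈ F, q.totalDegree ≤ (d + k) + k * m) ∧
          (∀ q ∈ F, ∀ y, MvPolynomial.eval y q ≠ 0 → y ∈ N.filter (fun y => Φ y = v) ∧
            ∀ b ∈ B, y ∉ b) ∧
          (Set.ncard {y | y ∈ N.filter (fun y => Φ y = v) ∧ (∀ b ∈ B, y ∉ b) ∧
            ∀ q ∈ F, MvPolynomial.eval y q = 0} : ℝ) ≤
            (1 - 1 / 2 ^ k) ^ m * (N.filter (fun y => Φ y = v)).card := by
        intro v
        obtain ⟨q, hq, hqe⟩ := ind_exists Φ v
        refine ih (N.filter fun y => Φ y = v) ?_ (p * q) (d + k) ?_ ?_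
        · intro a ha b hb c hc
          rw [Finset.mem_filter] at ha hb hc ⊢
          refine ⟨hN a ha.1 b hb.1 c hc.1, ?_⟩
          rw [map_add, map_add, ha.2, hb.2, hc.2]
          funext j
          simp only [Pi.add_apply]
          rw [zmod2_add_self, zero_add]
        · exact (MvPolynomial.totalDegree_mul _ _).trans (Nat.add_le_add hp hq)
        · intro y
          rw [map_mul, mul_ne_zero_iff, hpN, hqe, Finset.mem_filter]
      choose F hF1 hF2 hF3 hF4 using hsub
      refine ⟨(univ.filter fun v => v ≠ v0).biUnion F, ?_, ?_, ?_, ?_⟩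
      · calc _ ≤ ∑ v ∈ univ.filter (fun v : Fin k → ZMod 2 => v ≠ v0), (F v).card :=
              Finset.card_biUnion_le
          _ ≤ ∑ _v : Fin k → ZMod 2, 2 ^ (k * m) := by
              refine (Finset.sum_le_sum fun v _ => hF1 v).trans ?_
              exact Finset.sum_le_sum_of_subset (Finset.filter_subset _ _)
          _ = 2 ^ (k * (m + 1)) := by
              rw [Finset.sum_const, smul_eq_mul]
              simp
              rw [← pow_add]
              congr 1
              ring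
      · intro q hq
        rw [Finset.mem_biUnion] at hq
        obtain ⟨v, _, hq⟩ := hq
        have := hF2 v q hq
        have e : d + k * (m + 1) = d + k + k * m := by ring
        rw [e]
        exact this
      · intro q hq y hy
        rw [Finset.mem_biUnion] at hq
        obtain ⟨v, _, hq⟩ := hq
        have := hF3 v q hq y hy
        exact ⟨(Finset.mem_filter.1 this.1).1, this.2⟩
      · have hcov : {y | y ∈ N ∧ (∀ b ∈ B, y ∉ b) ∧
            ∀ q ∈ (univ.filter fun v => v ≠ v0).biUnion F, MvPolynomial.eval y q = 0} ⊆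
            ⋃ v ∈ (univ.filter fun v : Fin k → ZMod 2 => v ≠ v0),
              {y | y ∈ N.filter (fun y => Φ y = v) ∧ (∀ b ∈ B, y ∉ b) ∧
                ∀ q ∈ F v, MvPolynomial.eval y q = 0} := by
          intro y hy
          obtain ⟨h1, h2, h3⟩ := hy
          rw [Set.mem_iUnion₂]
          have h4 : Φ y ≠ v0 := fun h => h2 b hb ((hΦ y).2 h)
          refine ⟨Φ y, by simp [h4], ?_⟩
          refine ⟨by rw [Finset.mem_filter]; exact ⟨h1, rfl⟩, h2, fun q hq => h3 q ?_⟩
          rw [Finset.mem_biUnion]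
          exact ⟨Φ y, by simp [h4], hq⟩
        have hb1 := Set.ncard_le_ncard hcov (Set.toFinite _)
        have hb2 := hb1.trans (Finset.set_ncard_biUnion_le _ _)
        have hb3 : (Set.ncard {y | y ∈ N ∧ (∀ b ∈ B, y ∉ b) ∧
            ∀ q ∈ (univ.filter fun v => v ≠ v0).biUnion F, MvPolynomial.eval y q = 0} : ℝ) ≤
            ∑ v ∈ (univ.filter fun v : Fin k → ZMod 2 => v ≠ v0),
              (1 - 1 / 2 ^ k : ℝ) ^ m * (N.filter (fun y => Φ y = v)).card := by
          refine le_trans (Nat.cast_le.2 hb2) ?_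
          push_cast
          exact Finset.sum_le_sum fun v _ => hF4 v
        rw [← Finset.mul_sum] at hb3
        -- total count
        have hc1 : (N.card : ℝ) = ∑ v : Fin k → ZMod 2, ((N.filter fun y => Φ y = v).card : ℝ) := by
          have : N.card = ∑ v : Fin k → ZMod 2, (N.filter fun y => Φ y = v).card :=
            Finset.card_eq_sum_card_fiberwise (fun _ _ => Finset.mem_univ _)
          rw [this]; push_cast; rfl
        have hc2 : ∑ v ∈ (univ.filter fun v : Fin k → ZMod 2 => v ≠ v0),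
            ((N.filter fun y => Φ y = v).card : ℝ) + ((N.filter fun y => Φ y = v0).card : ℝ) =
            N.card := by
          rw [hc1, ← Finset.sum_filter_add_sum_filter_not univ (fun v : Fin k → ZMod 2 => v ≠ v0)]
          congr 1
          have : (univ.filter fun v : Fin k → ZMod 2 => ¬ v ≠ v0) = {v0} := by
            ext v; simp
          rw [this, Finset.sum_singleton]
        have hc3 : ∀ v : Fin k → ZMod 2, ((N.filter fun y => Φ y = v).card : ℝ) ≤
            ((N.filter fun y => Φ y = v0).card : ℝ) := by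
          intro v
          rcases (N.filter fun y => Φ y = v).eq_empty_or_nonempty with h | ⟨y1, hy1⟩
          · rw [h]; simp
          · rw [Finset.mem_filter] at hy1
            have : (N.filter fun y => Φ y = v).card ≤ (N.filter fun y => Φ y = v0).card := by
              refine Finset.card_le_card_of_injOn (fun y => y + y1 + y0) ?_ ?_
              · intro y hy
                rw [Finset.mem_coe, Finset.mem_filter] at hy ⊢
                refine ⟨hN y hy.1 y1 hy1.1 y0 hy0N, ?_⟩
                rw [map_add, map_add, hy.2, hy1.2, (hΦ y0).1 hy0b]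
                funext j
                simp only [Pi.add_apply]
                rw [zmod2_add_self, zero_add]
              · intro y _ y' _ h
                simpa using h
            exact_mod_cast this
        have hc4 : (N.card : ℝ) ≤ 2 ^ k * ((N.filter fun y => Φ y = v0).card : ℝ) := by
          rw [hc1]
          refine (Finset.sum_le_sum fun v _ => hc3 v).trans ?_
          rw [Finset.sum_const, nsmul_eq_mul]
          simp
        have hc5 : ∑ v ∈ (univ.filter fun v : Fin k → ZMod 2 => v ≠ v0),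
            ((N.filter fun y => Φ y = v).card : ℝ) ≤ (1 - 1 / 2 ^ k) * N.card := by
          have h2k : (0 : ℝ) < 2 ^ k := by positivity
          have : (1 / 2 ^ k : ℝ) * N.card ≤ ((N.filter fun y => Φ y = v0).card : ℝ) := by
            rw [div_mul_eq_mul_div, one_mul, div_le_iff₀ h2k]
            linarith
          linarith
        calc _ ≤ _ := hb3
          _ ≤ (1 - 1 / 2 ^ k) ^ m * ((1 - 1 / 2 ^ k) * N.card) :=
              mul_le_mul_of_nonneg_left hc5 (pow_nonneg hr _)
          _ = _ := by rw [pow_succ]; ring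
    · push Not at hmeet
      refine ⟨{p}, by simp [Nat.one_le_two_pow], ?_, ?_, ?_⟩
      · intro q hq
        rw [Finset.mem_singleton] at hq
        rw [hq]
        omega
      · intro q hq y hy
        rw [Finset.mem_singleton] at hq
        rw [hq, hpN] at hy
        exact ⟨hy, fun b hb => hmeet b hb y hy⟩
      · have : {y | y ∈ N ∧ (∀ b ∈ B, y ∉ b) ∧
            ∀ q ∈ ({p} : Finset (MvPolynomial (Fin n) (ZMod 2))), MvPolynomial.eval y q = 0} = ∅ := by
          rw [Set.eq_empty_iff_forall_notMem]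
          rintro y ⟨h1, _, h3⟩
          exact (hpN y).2 h1 (h3 p (by simp))
        rw [this]
        simp only [Set.ncard_empty, Nat.cast_zero]
        positivity

end Pool.Agent.W856.Corner
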