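import Mathlib

/-!
Corner-free sets: the linear algebra bound for sets with structured rows.
-/

namespace Pool.Agent.W856.Corner

open Finset

/-- The core linear-algebra inequality. -/
theorem core {G F : Type*} [AddCommGroup G] [Fintype G] [DecidableEq G] [Field F] [DecidableEq F]
    (A : Finset (G × G))
    (hA : ∀ x y z : G, (x, y) ∈ A → (x, y + z) ∈ A → (x + z, y) ∈ A → z = 0)
    (U : Submodule F (G → F)) (hU : ∀ f ∈ U, ∀ a : G, (fun t => f (t + a)) ∈ U)
    (g : G → G → F) (hg : ∀ x, g x ∈ U) (hs : ∀ x y, g x y ≠ 0 → (x, y) ∈ A) :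
    ∑ x, (univ.filter fun y => g x y ≠ 0).card ≤ Fintype.card G * Module.finrank F U := by
  classical
  have hswap : ∑ x, (univ.filter fun y => g x y ≠ 0).card =
      ∑ y, (univ.filter fun x => g x y ≠ 0).card := by
    simp only [Finset.card_filter]
    exact Finset.sum_comm
  rw [hswap]
  have hcol : ∀ y ∈ (univ : Finset G), (univ.filter fun x => g x y ≠ 0).card ≤
      Module.finrank F U := by
    intro y _
    set S : Finset G := univ.filter fun x => g x y ≠ 0 with hS
    have hmem : ∀ x, x ∈ S ↔ g x y ≠ 0 := fun x => by simp [hS]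
    let f : S → U := fun x => ⟨fun t => g x.1 (t + (y - x.1)), hU _ (hg x.1) _⟩
    have hf : LinearIndependent F f := by
      rw [Fintype.linearIndependent_iff]
      intro c hc x'
      have h1 : (∑ x : S, c x • f x : U).1 x'.1 = 0 := by rw [hc]; rfl
      have h2 : (∑ x : S, c x • f x : U).1 x'.1 = ∑ x : S, c x * g x.1 (x'.1 + (y - x.1)) := by
        simp [f, Finset.sum_apply]
      rw [h2, Finset.sum_eq_single x'] at h1
      · have h3 : g x'.1 (x'.1 + (y - x'.1)) ≠ 0 := by
          have : x'.1 + (y - x'.1) = y := by abel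
          rw [this]
          exact (hmem _).1 x'.2
        exact (mul_eq_zero.1 h1).resolve_right h3
      · intro x _ hx
        by_contra hne
        have h3 : g x.1 (x'.1 + (y - x.1)) ≠ 0 := fun h => hne (by rw [h, mul_zero])
        have h4 := hs _ _ h3
        have h5 := hs _ _ ((hmem _).1 x.2)
        have h6 := hs _ _ ((hmem _).1 x'.2)
        have h7 := hA x.1 y (x'.1 - x.1) h5
          (by rw [show y + (x'.1 - x.1) = x'.1 + (y - x.1) by abel]; exact h4)
          (by rw [show x.1 + (x'.1 - x.1) = x'.1 by abel]; exact h6)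
        exact hx (Subtype.ext (sub_eq_zero.1 h7).symm)
      · intro h
        exact absurd (Finset.mem_univ _) h
    have := hf.fintype_card_le_finrank
    simpa using this
  calc ∑ y, (univ.filter fun x => g x y ≠ 0).card ≤ ∑ _y : G, Module.finrank F U :=
        Finset.sum_le_sum hcol
    _ = Fintype.card G * Module.finrank F U := by simp

variable {n : ℕ}

/-- Functions spanned by multilinear monomials of degree at most `D`. -/
def LD (n D : ℕ) : Submodule (ZMod 2) ((Fin n → ZMod 2) → ZMod 2) :=
  Submodule.span (ZMod 2)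
    (Set.range fun s : {s : Finset (Fin n) // s.card ≤ D} => fun y : Fin n → ZMod 2 => ∏ i ∈ s.1, y i)

lemma mono_mem {D : ℕ} (s : Finset (Fin n)) (hs : s.card ≤ D) :
    (fun y : Fin n → ZMod 2 => ∏ i ∈ s, y i) ∈ LD n D :=
  Submodule.subset_span ⟨⟨s, hs⟩, rfl⟩

lemma card_small (n D : ℕ) :
    Fintype.card {s : Finset (Fin n) // s.card ≤ D} = ∑ i ∈ range (D + 1), n.choose i := by
  classical
  rw [Fintype.card_subtype]
  have h : (univ.filter fun s : Finset (Fin n) => s.card ≤ D) =
      (range (D + 1)).biUnion fun i => powersetCard i (univ : Finset (Fin n)) := by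
    ext s
    simp [Finset.mem_powersetCard]
  rw [h, Finset.card_biUnion]
  · refine Finset.sum_congr rfl fun i _ => ?_
    rw [Finset.card_powersetCard]
    simp
  · intro i _ j _ hij
    rw [Function.onFun, Finset.disjoint_left]
    intro s hs hs'
    rw [Finset.mem_powersetCard] at hs hs'
    exact hij (hs.2.symm.trans hs'.2)

lemma finrank_LD (n D : ℕ) :
    Module.finrank (ZMod 2) (LD n D) ≤ ∑ i ∈ range (D + 1), n.choose i := by
  rw [← card_small]
  exact finrank_range_le_card _

lemma LD_shift {D : ℕ} (f : (Fin n → ZMod 2) → ZMod 2) (hf : f ∈ LD n D) (a : Fin n → ZMod 2) :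
    (fun t => f (t + a)) ∈ LD n D := by
  classical
  unfold LD at hf
  induction hf using Submodule.span_induction with
  | mem f hf =>
    obtain ⟨⟨s, hs⟩, rfl⟩ := hf
    have : (fun t : Fin n → ZMod 2 => ∏ i ∈ s, (t + a) i) =
        ∑ u ∈ s.powerset, (∏ i ∈ s \ u, a i) • (fun t : Fin n → ZMod 2 => ∏ i ∈ u, t i) := by
      funext t
      simp only [Pi.add_apply, Finset.sum_apply, Pi.smul_apply, smul_eq_mul]
      rw [Finset.prod_add]
      exact Finset.sum_congr rfl fun u _ => mul_comm _ _
    simp only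
    rw [this]
    refine Submodule.sum_mem _ fun u hu => Submodule.smul_mem _ _ (mono_mem u ?_)
    exact (Finset.card_le_card (Finset.mem_powerset.1 hu)).trans hs
  | zero => exact Submodule.zero_mem _
  | add f g _ _ hf hg => exact Submodule.add_mem _ hf hg
  | smul c f _ hf => exact Submodule.smul_mem _ c hf

lemma zmod2_pow (a : ZMod 2) {k : ℕ} (hk : k ≠ 0) : a ^ k = a := by
  have h : a = 0 ∨ a = 1 := by
    fin_cases a
    · left; rfl
    · right; rfl
  rcases h with rfl | rfl
  · exact zero_pow hk
  · exact one_pow k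

lemma poly_mem {D : ℕ} (p : MvPolynomial (Fin n) (ZMod 2)) (hp : p.totalDegree ≤ D) :
    (fun y => MvPolynomial.eval y p) ∈ LD n D := by
  have h : (fun y : Fin n → ZMod 2 => MvPolynomial.eval y p) =
      ∑ m ∈ p.support, p.coeff m • (fun y : Fin n → ZMod 2 => ∏ i ∈ m.support, y i) := by
    funext y
    rw [MvPolynomial.eval_eq]
    simp only [Finset.sum_apply, Pi.smul_apply, smul_eq_mul]
    refine Finset.sum_congr rfl fun m _ => ?_
    congr 1
    refine Finset.prod_congr rfl fun i hi => zmod2_pow _ ?_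
    exact Finsupp.mem_support_iff.1 hi
  rw [h]
  refine Submodule.sum_mem _ fun m hm => Submodule.smul_mem _ _ (mono_mem _ ?_)
  have h1 := MvPolynomial.le_totalDegree hm
  have h2 : m.support.card ≤ m.sum fun _ e => e := by
    rw [Finsupp.sum, Finset.card_eq_sum_ones]
    exact Finset.sum_le_sum fun i hi => Nat.one_le_iff_ne_zero.2 (Finsupp.mem_support_iff.1 hi)
  exact h2.trans (h1.trans hp)

/-- General inequality, for rows. `F x` is a finite set of at most `T` polynomials of degree at
most `D` whose supports are contained in the row of `x` and cover it up to `E` points. -/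
theorem rows_bound (A : Finset ((Fin n → ZMod 2) × (Fin n → ZMod 2)))
    (hA : ∀ x y z : Fin n → ZMod 2, (x, y) ∈ A → (x, y + z) ∈ A → (x + z, y) ∈ A → z = 0)
    (T D : ℕ) (E : ℝ)
    (F : (Fin n → ZMod 2) → Finset (MvPolynomial (Fin n) (ZMod 2)))
    (hT : ∀ x, (F x).card ≤ T) (hD : ∀ x, ∀ p ∈ F x, p.totalDegree ≤ D)
    (hin : ∀ x, ∀ p ∈ F x, ∀ y, MvPolynomial.eval y p ≠ 0 → (x, y) ∈ A)
    (hE : ∀ x, ((univ.filter fun y => (x, y) ∈ A ∧ ∀ p ∈ F x, MvPolynomial.eval y p = 0).card : ℝ) ≤ E) :
    (A.card : ℝ) ≤ T * (2 ^ n * ∑ i ∈ range (D + 1), (n.choose i : ℝ)) + 2 ^ n * E := by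
  classical
  -- enumeration of the polynomials
  have hen : ∀ x, ∃ q : Fin T → MvPolynomial (Fin n) (ZMod 2),
      (∀ i, q i = 0 ∨ q i ∈ F x) ∧ ∀ p ∈ F x, ∃ i, q i = p := by
    intro x
    refine ⟨fun i => (F x).toList.getD i 0, fun i => ?_, fun p hp => ?_⟩
    · by_cases h : (i : ℕ) < (F x).toList.length
      · right
        simp only [List.getD_eq_getElem _ _ h]
        exact Finset.mem_toList.1 (List.getElem_mem _)
      · left
        simp only
        exact List.getD_eq_default _ _ (not_lt.1 h)
    · obtain ⟨i, hi, rfl⟩ := List.getElem_of_mem (Finset.mem_toList.2 hp)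
      have : i < T := by
        have := hT x
        rw [Finset.length_toList] at hi
        omega
      exact ⟨⟨i, this⟩, by simp only [List.getD_eq_getElem _ _ hi]⟩
  choose q hq1 hq2 using hen
  -- each index contributes at most `2 ^ n * S`
  set S : ℕ := ∑ i ∈ range (D + 1), n.choose i with hS
  have hcore : ∀ i : Fin T, ∑ x, (univ.filter fun y => MvPolynomial.eval y (q x i) ≠ 0).card ≤
      2 ^ n * S := by
    intro i
    have h := core A hA (LD n D) (fun f hf a => LD_shift f hf a)
      (fun x y => MvPolynomial.eval y (q x i))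
      (fun x => poly_mem _ (by
        rcases hq1 x i with h | h
        · rw [h]; simp
        · exact hD x _ h))
      (fun x y hxy => by
        rcases hq1 x i with h | h
        · rw [h] at hxy; simp at hxy
        · exact hin x _ h y hxy)
    have hc : Fintype.card (Fin n → ZMod 2) = 2 ^ n := by simp
    rw [hc] at h
    exact h.trans (Nat.mul_le_mul_left _ (finrank_LD n D))
  -- rows
  have hA' : A.card = ∑ x, (univ.filter fun y => (x, y) ∈ A).card := by
    have h1 : A.card = ∑ x, (A.filter fun p => p.1 = x).card :=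
      Finset.card_eq_sum_card_fiberwise (fun _ _ => Finset.mem_univ _)
    rw [h1]
    refine Finset.sum_congr rfl fun x _ => ?_
    refine Finset.card_bij' (fun p _ => p.2) (fun y _ => (x, y)) ?_ ?_ ?_ ?_
    · intro p hp
      rw [Finset.mem_filter] at hp
      obtain ⟨h1, rfl⟩ := hp
      simpa using h1
    · intro y hy
      rw [Finset.mem_filter] at hy
      simpa using hy.2
    · intro p hp
      rw [Finset.mem_filter] at hp
      obtain ⟨h1, rfl⟩ := hp
      rfl
    · intro y hy
      rfl
  have hrow : ∀ x, ((univ.filter fun y => (x, y) ∈ A).card : ℝ) ≤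
      ∑ i : Fin T, ((univ.filter fun y => MvPolynomial.eval y (q x i) ≠ 0).card : ℝ) + E := by
    intro x
    have h1 : (univ.filter fun y => (x, y) ∈ A) ⊆
        (univ.biUnion fun i : Fin T => univ.filter fun y => MvPolynomial.eval y (q x i) ≠ 0) ∪
        (univ.filter fun y => (x, y) ∈ A ∧ ∀ p ∈ F x, MvPolynomial.eval y p = 0) := by
      intro y hy
      rw [Finset.mem_filter] at hy
      rw [Finset.mem_union]
      by_cases h : ∀ p ∈ F x, MvPolynomial.eval y p = 0
      · right
        rw [Finset.mem_filter]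
        exact ⟨Finset.mem_univ _, hy.2, h⟩
      · left
        push Not at h
        obtain ⟨p, hp, hpy⟩ := h
        obtain ⟨i, hi⟩ := hq2 x p hp
        rw [Finset.mem_biUnion]
        exact ⟨i, Finset.mem_univ _, by rw [Finset.mem_filter]; exact ⟨Finset.mem_univ _, by rw [hi]; exact hpy⟩⟩
    have h2 := (Finset.card_le_card h1).trans (Finset.card_union_le _ _)
    have h3 : ((univ.filter fun y => (x, y) ∈ A).card : ℝ) ≤
        ((univ.biUnion fun i : Fin T => univ.filter fun y => MvPolynomial.eval y (q x i) ≠ 0).card : ℝ)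
        + ((univ.filter fun y => (x, y) ∈ A ∧ ∀ p ∈ F x, MvPolynomial.eval y p = 0).card : ℝ) := by
      exact_mod_cast h2
    have h4 : ((univ.biUnion fun i : Fin T => univ.filter fun y => MvPolynomial.eval y (q x i) ≠ 0).card : ℝ)
        ≤ ∑ i : Fin T, ((univ.filter fun y => MvPolynomial.eval y (q x i) ≠ 0).card : ℝ) := by
      exact_mod_cast Finset.card_biUnion_le
    linarith [hE x]
  have hsum : (A.card : ℝ) ≤ ∑ x : Fin n → ZMod 2, (∑ i : Fin T,
      ((univ.filter fun y => MvPolynomial.eval y (q x i) ≠ 0).card : ℝ) + E) := by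
    rw [hA']
    push_cast
    exact Finset.sum_le_sum fun x _ => hrow x
  rw [Finset.sum_add_distrib, Finset.sum_comm] at hsum
  have h5 : ∑ i : Fin T, ∑ x : Fin n → ZMod 2,
      ((univ.filter fun y => MvPolynomial.eval y (q x i) ≠ 0).card : ℝ) ≤ ∑ _i : Fin T, (2 : ℝ) ^ n * S := by
    refine Finset.sum_le_sum fun i _ => ?_
    exact_mod_cast hcore i
  have h6 : ∑ _x : Fin n → ZMod 2, E = 2 ^ n * E := by
    rw [Finset.sum_const, nsmul_eq_mul]
    simp
  have h7 : ∑ _i : Fin T, (2 : ℝ) ^ n * S = T * (2 ^ n * S) := by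
    rw [Finset.sum_const, nsmul_eq_mul]
    simp
  rw [h6] at hsum
  rw [h7] at h5
  have h8 : (S : ℝ) = ∑ i ∈ range (D + 1), (n.choose i : ℝ) := by
    rw [hS]; push_cast; rfl
  rw [← h8]
  linarith

end Pool.Agent.W856.Corner
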