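import Mathlib
import Pool.Agent.W856.Corner1
import Pool.Agent.W856.Corner2

/-!
Sparse Fourier transform implies low degree over `F_2`.
-/

namespace Pool.Agent.W856.Corner

open Finset

variable {n : ℕ}

/-- The nontrivial character of `ZMod 2`. -/
def chi (t : ZMod 2) : ℤ := if t = 0 then 1 else -1

lemma chi_zero : chi 0 = 1 := by simp [chi]

lemma chi_one : chi 1 = -1 := by simp [chi]

lemma chi_add (a b : ZMod 2) : chi (a + b) = chi a * chi b := by
  rcases zmod2_cases a with rfl | rfl <;> rcases zmod2_cases b with rfl | rfl <;> decide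

lemma chi_cast (a : ZMod 2) : ((chi a : ℤ) : ZMod 2) = 1 := by
  rcases zmod2_cases a with rfl | rfl <;> decide

lemma charsum (s : Finset (Fin n)) (z : Fin n → ZMod 2) :
    ∑ u ∈ univ.filter (fun u : Fin n → ZMod 2 => ∀ i ∈ s, u i = 0), chi (u ⬝ᵥ z) =
      if ∀ i, i ∉ s → z i = 0 then
        ((univ.filter (fun u : Fin n → ZMod 2 => ∀ i ∈ s, u i = 0)).card : ℤ) else 0 := by
  classical
  split_ifs with h
  · rw [Finset.sum_congr rfl (g := fun _ => (1 : ℤ))]
    · simp
    · intro u hu
      rw [Finset.mem_filter] at hu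
      have : u ⬝ᵥ z = 0 := by
        unfold dotProduct
        refine Finset.sum_eq_zero fun i _ => ?_
        by_cases hi : i ∈ s
        · rw [hu.2 i hi, zero_mul]
        · rw [h i hi, mul_zero]
      rw [this, chi_zero]
  · push Not at h
    obtain ⟨i0, hi0, hz⟩ := h
    have hz1 : z i0 = 1 := (zmod2_cases _).resolve_left hz
    have hneg : ∑ u ∈ univ.filter (fun u : Fin n → ZMod 2 => ∀ i ∈ s, u i = 0), chi (u ⬝ᵥ z) =
        ∑ u ∈ univ.filter (fun u : Fin n → ZMod 2 => ∀ i ∈ s, u i = 0), -chi (u ⬝ᵥ z) := by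
      refine Finset.sum_nbij' (fun u => u + Pi.single i0 1) (fun u => u + Pi.single i0 1) ?_ ?_ ?_ ?_ ?_
      · intro u hu
        rw [Finset.mem_filter] at hu ⊢
        refine ⟨Finset.mem_univ _, fun i hi => ?_⟩
        have : i ≠ i0 := fun h => hi0 (h ▸ hi)
        rw [Pi.add_apply, hu.2 i hi, Pi.single_eq_of_ne this, add_zero]
      · intro u hu
        rw [Finset.mem_filter] at hu ⊢
        refine ⟨Finset.mem_univ _, fun i hi => ?_⟩
        have : i ≠ i0 := fun h => hi0 (h ▸ hi)
        rw [Pi.add_apply, hu.2 i hi, Pi.single_eq_of_ne this, add_zero]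
      · intro u _
        funext i
        simp only [Pi.add_apply]
        rw [add_assoc, zmod2_add_self, add_zero]
      · intro u _
        funext i
        simp only [Pi.add_apply]
        rw [add_assoc, zmod2_add_self, add_zero]
      · intro u _
        rw [add_dotProduct, chi_add, single_dotProduct, hz1, one_mul, chi_one]
        ring
    rw [Finset.sum_neg_distrib] at hneg
    linarith

/-- The Fourier coefficients (scaled by `2 ^ n`) of the indicator function of a set. -/
noncomputable def fourier (S : Set (Fin n → ZMod 2)) (a : Fin n → ZMod 2) : ℤ :=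
  open Classical in ∑ y, if y ∈ S then chi (a ⬝ᵥ y) else 0

lemma fourier_sum (S : Set (Fin n → ZMod 2)) (s : Finset (Fin n)) (b : Fin n → ZMod 2)
    (h0 : ∀ u : Fin n → ZMod 2, (∀ i ∈ s, u i = 0) → fourier S (b + u) = 0) :
    (Nat.card {z : Fin n → ZMod 2 // z ∈ S ∧ ∀ i, i ∉ s → z i = 0} : ZMod 2) = 0 := by
  classical
  set K := univ.filter (fun u : Fin n → ZMod 2 => ∀ i ∈ s, u i = 0) with hK
  have h1 : ∑ u ∈ K, fourier S (b + u) = 0 :=
    Finset.sum_eq_zero fun u hu => h0 u (Finset.mem_filter.1 hu).2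
  have h2 : ∑ u ∈ K, fourier S (b + u) =
      (K.card : ℤ) * ∑ z ∈ univ.filter (fun z : Fin n → ZMod 2 => z ∈ S ∧ ∀ i, i ∉ s → z i = 0),
        chi (b ⬝ᵥ z) := by
    unfold fourier
    rw [Finset.sum_comm]
    have h3 : ∀ z : Fin n → ZMod 2, ∑ u ∈ K, (if z ∈ S then chi ((b + u) ⬝ᵥ z) else 0) =
        if z ∈ S ∧ ∀ i, i ∉ s → z i = 0 then (K.card : ℤ) * chi (b ⬝ᵥ z) else 0 := by
      intro z
      by_cases hz : z ∈ S
      · simp only [hz, if_true, true_and]
        have : ∀ u ∈ K, chi ((b + u) ⬝ᵥ z) = chi (b ⬝ᵥ z) * chi (u ⬝ᵥ z) := fun u _ => by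
          rw [add_dotProduct, chi_add]
        rw [Finset.sum_congr rfl this, ← Finset.mul_sum, charsum]
        split_ifs <;> ring
      · simp [hz]
    rw [Finset.sum_congr rfl fun z _ => h3 z, ← Finset.sum_filter, Finset.mul_sum]
  rw [h2] at h1
  have hKpos : (K.card : ℤ) ≠ 0 := by
    have : 0 < K.card := Finset.card_pos.2 ⟨0, by simp [hK]⟩
    exact_mod_cast this.ne'
  have h4 := (mul_eq_zero.1 h1).resolve_left hKpos
  have h5 := congrArg (fun t : ℤ => (t : ZMod 2)) h4
  simp only [Int.cast_sum, chi_cast, Int.cast_zero, Finset.sum_const, nsmul_eq_mul, mul_one] at h5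
  rw [Nat.card_eq_fintype_card, Fintype.card_subtype]
  exact h5

/-- Möbius coefficient. -/
lemma coeff_sparse (S : Set (Fin n → ZMod 2)) (s : Finset (Fin n))
    (hs : (Nat.card {z : Fin n → ZMod 2 // z ∈ S ∧ ∀ i, i ∉ s → z i = 0} : ZMod 2) ≠ 0) :
    2 ^ s.card ≤ Nat.card {a : Fin n → ZMod 2 // fourier S a ≠ 0} := by
  classical
  have hsurj : Function.Surjective (fun (a : {a : Fin n → ZMod 2 // fourier S a ≠ 0}) (i : s) =>
      a.1 i.1) := by
    intro w
    by_contra hcon
    push Not at hcon
    refine hs (fourier_sum S s (fun i => if h : i ∈ s then w ⟨i, h⟩ else 0) fun u hu => ?_)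
    by_contra hne
    refine hcon ⟨_, hne⟩ ?_
    funext i
    simp only [Pi.add_apply]
    rw [hu i.1 i.2, add_zero, dif_pos i.2]
  have := Nat.card_le_card_of_surjective _ hsurj
  simpa using this

/-- A set whose indicator function has fewer than `2 ^ (D + 1)` nonzero Fourier coefficients has
degree at most `D` over `F_2`. -/
theorem sparse_deg (S : Set (Fin n → ZMod 2)) (D : ℕ)
    (hS : Nat.card {a : Fin n → ZMod 2 // fourier S a ≠ 0} < 2 ^ (D + 1)) :
    ∃ p : MvPolynomial (Fin n) (ZMod 2), p.totalDegree ≤ D ∧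
      ∀ y, MvPolynomial.eval y p ≠ 0 ↔ y ∈ S := by
  classical
  let c : Finset (Fin n) → ZMod 2 := fun s =>
    ∑ z : Fin n → ZMod 2, (if z ∈ S then 1 else 0) * ∏ i ∈ univ \ s, (1 + z i)
  have hc : ∀ s, c s = (Nat.card {z : Fin n → ZMod 2 // z ∈ S ∧ ∀ i, i ∉ s → z i = 0} : ZMod 2) := by
    intro s
    have h1 : ∀ z : Fin n → ZMod 2, (if z ∈ S then 1 else 0) * ∏ i ∈ univ \ s, (1 + z i) =
        if z ∈ S ∧ ∀ i, i ∉ s → z i = 0 then (1 : ZMod 2) else 0 := by
      intro z
      by_cases hz : z ∈ S
      · by_cases hz2 : ∀ i, i ∉ s → z i = 0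
        · rw [if_pos hz, if_pos ⟨hz, hz2⟩, one_mul]
          refine Finset.prod_eq_one fun i hi => ?_
          rw [hz2 i (by simpa using hi), add_zero]
        · have hne : ¬ (z ∈ S ∧ ∀ i, i ∉ s → z i = 0) := fun h => hz2 h.2
          rw [if_neg hne]
          push Not at hz2
          obtain ⟨i, hi, hzi⟩ := hz2
          have h1i : (1 : ZMod 2) + z i = 0 := by
            rw [(zmod2_cases _).resolve_left hzi]
            decide
          rw [Finset.prod_eq_zero (i := i) (by simpa using hi) h1i, mul_zero]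
      · have hne : ¬ (z ∈ S ∧ ∀ i, i ∉ s → z i = 0) := fun h => hz h.1
        rw [if_neg hz, if_neg hne, zero_mul]
    simp only [c]
    rw [Finset.sum_congr rfl fun z _ => h1 z, Finset.sum_boole, Nat.card_eq_fintype_card,
      Fintype.card_subtype]
  refine ⟨∑ s : Finset (Fin n), MvPolynomial.C (c s) * ∏ i ∈ s, MvPolynomial.X i, ?_, fun y => ?_⟩
  · refine MvPolynomial.totalDegree_finsetSum_le fun s _ => ?_
    by_cases h0 : c s = 0
    · rw [h0]; simp
    · have h1 := coeff_sparse S s (by rw [← hc]; exact h0)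
      have h2 : s.card ≤ D := by
        by_contra hlt
        push Not at hlt
        have : 2 ^ (D + 1) ≤ 2 ^ s.card := Nat.pow_le_pow_right (by norm_num) hlt
        omega
      refine (MvPolynomial.totalDegree_mul _ _).trans ?_
      rw [MvPolynomial.totalDegree_C, zero_add]
      refine (MvPolynomial.totalDegree_finsetProd _ _).trans ?_
      refine le_trans (Finset.sum_le_sum fun i _ => (MvPolynomial.totalDegree_X (R := ZMod 2) i).le) ?_
      simpa using h2
  · have h1 : MvPolynomial.eval y (∑ s : Finset (Fin n), MvPolynomial.C (c s) *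
        ∏ i ∈ s, MvPolynomial.X i) = ∑ s : Finset (Fin n), c s * ∏ i ∈ s, y i := by
      simp [map_sum, map_mul, map_prod]
    have h2 : ∑ s : Finset (Fin n), c s * ∏ i ∈ s, y i =
        ∑ z : Fin n → ZMod 2, (if z ∈ S then 1 else 0) * ∏ i, (y i + (1 + z i)) := by
      simp only [c, Finset.sum_mul]
      rw [Finset.sum_comm]
      refine Finset.sum_congr rfl fun z _ => ?_
      rw [Finset.prod_add, Finset.powerset_univ, Finset.mul_sum]
      refine Finset.sum_congr rfl fun s _ => ?_
      ring
    have h3 : ∀ z : Fin n → ZMod 2, ∏ i, (y i + (1 + z i)) = if z = y then 1 else 0 := by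
      intro z
      split_ifs with h
      · subst h
        refine Finset.prod_eq_one fun i _ => ?_
        rcases zmod2_cases (z i) with h | h <;> rw [h] <;> decide
      · have : ∃ i, z i ≠ y i := by
          by_contra hcon
          push Not at hcon
          exact h (funext hcon)
        obtain ⟨i, hi⟩ := this
        refine Finset.prod_eq_zero (Finset.mem_univ i) ?_
        rcases zmod2_cases (z i) with h | h <;> rcases zmod2_cases (y i) with h' | h' <;>
          rw [h, h'] at hi ⊢ <;> revert hi <;> decide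
    rw [h1, h2]
    simp only [h3, mul_ite, mul_one, mul_zero]
    rw [Finset.sum_ite_eq' univ y]
    simp

end Pool.Agent.W856.Corner
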