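import Mathlib
import Pool.Agent.W856.Corner3

/-!
Power saving for corner-free sets with structured lines.
-/

namespace Pool.Agent.W856.Corner

open Finset

variable {n : ℕ}

/-- Rows, columns and diagonals are exchanged by symmetries of the corner problem. -/
lemma lines_reduce (A : Finset ((Fin n → ZMod 2) × (Fin n → ZMod 2)))
    (hA : ∀ x y z : Fin n → ZMod 2, (x, y) ∈ A → (x, y + z) ∈ A → (x + z, y) ∈ A → z = 0)
    (L : (Fin n → ZMod 2) → Set (Fin n → ZMod 2))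
    (hL : (∀ s, L s = {y | (s, y) ∈ A}) ∨ (∀ s, L s = {x | (x, s) ∈ A}) ∨
      (∀ s, L s = {y | (s + y, y) ∈ A})) :
    ∃ A' : Finset ((Fin n → ZMod 2) × (Fin n → ZMod 2)),
      (∀ x y z : Fin n → ZMod 2, (x, y) ∈ A' → (x, y + z) ∈ A' → (x + z, y) ∈ A' → z = 0) ∧
      A'.card = A.card ∧ ∀ s y, y ∈ L s ↔ (s, y) ∈ A' := by
  classical
  have hadd : ∀ a : Fin n → ZMod 2, a + a = 0 := fun a => by
    funext i; exact zmod2_add_self _
  rcases hL with hL | hL | hL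
  · exact ⟨A, hA, rfl, fun s y => by rw [hL]; rfl⟩
  · refine ⟨A.map (Equiv.prodComm _ _).toEmbedding, ?_, Finset.card_map _, fun s y => ?_⟩
    · intro x y z h1 h2 h3
      simp only [Finset.mem_map_equiv, Equiv.prodComm_symm, Equiv.prodComm_apply, Prod.swap] at h1 h2 h3
      exact hA y x z h1 h3 h2
    · rw [hL]
      simp [Finset.mem_map_equiv]
  · let e : ((Fin n → ZMod 2) × (Fin n → ZMod 2)) ≃ ((Fin n → ZMod 2) × (Fin n → ZMod 2)) :=
      { toFun := fun p => (p.1 + p.2, p.2)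
        invFun := fun p => (p.1 + p.2, p.2)
        left_inv := fun p => by simp [add_assoc, hadd]
        right_inv := fun p => by simp [add_assoc, hadd] }
    have he : ∀ s y, (s, y) ∈ A.map e.toEmbedding ↔ (s + y, y) ∈ A := by
      intro s y
      rw [Finset.mem_map_equiv]
      rfl
    refine ⟨A.map e.toEmbedding, ?_, Finset.card_map _, fun s y => ?_⟩
    · intro x y z h1 h2 h3
      rw [he] at h1 h2 h3
      -- the corner has vertex (x + y + z, y)
      refine hA (x + y + z) y z ?_ ?_ ?_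
      · rw [show x + y + z = x + z + y by abel]; exact h3
      · rw [show x + y + z = x + (y + z) by abel]; exact h2
      · have : x + y + z + z = x + y := by rw [add_assoc, hadd, add_zero]
        rw [this]; exact h1
    · rw [hL, he]
      rfl

/-- General inequality. -/
theorem lines_bound (T D : ℕ) (E : ℝ) (A : Finset ((Fin n → ZMod 2) × (Fin n → ZMod 2)))
    (hA : ∀ x y z : Fin n → ZMod 2, (x, y) ∈ A → (x, y + z) ∈ A → (x + z, y) ∈ A → z = 0)
    (L : (Fin n → ZMod 2) → Set (Fin n → ZMod 2))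
    (hL : (∀ s, L s = {y | (s, y) ∈ A}) ∨ (∀ s, L s = {x | (x, s) ∈ A}) ∨
      (∀ s, L s = {y | (s + y, y) ∈ A}))
    (h : ∀ s, ∃ F : Finset (MvPolynomial (Fin n) (ZMod 2)), F.card ≤ T ∧
      (∀ p ∈ F, p.totalDegree ≤ D ∧ {y | MvPolynomial.eval y p ≠ 0} ⊆ L s) ∧
      (Set.ncard {y | y ∈ L s ∧ ∀ p ∈ F, MvPolynomial.eval y p = 0} : ℝ) ≤ E) :
    (A.card : ℝ) ≤ T * 2 ^ n * ∑ i ∈ range (D + 1), (n.choose i : ℝ) + 2 ^ n * E := by
  classical
  obtain ⟨A', hA', hc, hL'⟩ := lines_reduce A hA L hL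
  choose F hF1 hF2 hF3 using h
  have := rows_bound A' hA' T D E F hF1 (fun x p hp => (hF2 x p hp).1)
    (fun x p hp y hy => (hL' x y).1 ((hF2 x p hp).2 hy)) (fun x => by
      refine le_trans (le_of_eq ?_) (hF3 x)
      congr 1
      rw [← Set.ncard_coe_finset]
      congr 1
      ext y
      simp [hL'])
  rw [hc] at this
  linarith

/-- From unions of at most `T` sets, each approximated by polynomials. -/
theorem lines_union (T T' D : ℕ) (E : ℝ) (A : Finset ((Fin n → ZMod 2) × (Fin n → ZMod 2)))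
    (hA : ∀ x y z : Fin n → ZMod 2, (x, y) ∈ A → (x, y + z) ∈ A → (x + z, y) ∈ A → z = 0)
    (L : (Fin n → ZMod 2) → Set (Fin n → ZMod 2))
    (hL : (∀ s, L s = {y | (s, y) ∈ A}) ∨ (∀ s, L s = {x | (x, s) ∈ A}) ∨
      (∀ s, L s = {y | (s + y, y) ∈ A}))
    {ι : Type} (dom : ι → Prop) (V : ι → Set (Fin n → ZMod 2))
    (h : ∀ s, ∃ I : Finset ι, I.card ≤ T ∧ (∀ i ∈ I, dom i) ∧ L s = ⋃ i ∈ I, V i)
    (hV : ∀ i, dom i → ∃ F : Finset (MvPolynomial (Fin n) (ZMod 2)), F.card ≤ T' ∧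
      (∀ p ∈ F, p.totalDegree ≤ D ∧ {y | MvPolynomial.eval y p ≠ 0} ⊆ V i) ∧
      (Set.ncard {y | y ∈ V i ∧ ∀ p ∈ F, MvPolynomial.eval y p = 0} : ℝ) ≤ E) (hE : 0 ≤ E) :
    (A.card : ℝ) ≤ T * T' * 2 ^ n * ∑ i ∈ range (D + 1), (n.choose i : ℝ) + 2 ^ n * (T * E) := by
  classical
  have key := lines_bound (T * T') D (T * E) A hA L hL (fun s => by
    obtain ⟨I, hI1, hI2, hI3⟩ := h s
    have hF : ∀ i, ∃ F : Finset (MvPolynomial (Fin n) (ZMod 2)), i ∈ I → (F.card ≤ T' ∧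
      (∀ p ∈ F, p.totalDegree ≤ D ∧ {y | MvPolynomial.eval y p ≠ 0} ⊆ V i) ∧
      (Set.ncard {y | y ∈ V i ∧ ∀ p ∈ F, MvPolynomial.eval y p = 0} : ℝ) ≤ E) := by
      intro i
      by_cases hi : i ∈ I
      · obtain ⟨F, hF⟩ := hV i (hI2 i hi)
        exact ⟨F, fun _ => hF⟩
      · exact ⟨∅, fun h => absurd h hi⟩
    choose F hF using hF
    refine ⟨I.biUnion F, ?_, ?_, ?_⟩
    · calc _ ≤ ∑ i ∈ I, (F i).card := Finset.card_biUnion_le
        _ ≤ ∑ _i ∈ I, T' := Finset.sum_le_sum fun i hi => (hF i hi).1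
        _ = I.card * T' := by simp
        _ ≤ T * T' := Nat.mul_le_mul_right _ hI1
    · intro p hp
      rw [Finset.mem_biUnion] at hp
      obtain ⟨i, hi, hp⟩ := hp
      refine ⟨((hF i hi).2.1 p hp).1, ((hF i hi).2.1 p hp).2.trans ?_⟩
      rw [hI3]
      exact Set.subset_biUnion_of_mem (u := V) hi
    · have hsub : {y | y ∈ L s ∧ ∀ p ∈ I.biUnion F, MvPolynomial.eval y p = 0} ⊆
          ⋃ i ∈ I, {y | y ∈ V i ∧ ∀ p ∈ F i, MvPolynomial.eval y p = 0} := by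
        rintro y ⟨h1, h2⟩
        rw [hI3, Set.mem_iUnion₂] at h1
        obtain ⟨i, hi, hy⟩ := h1
        rw [Set.mem_iUnion₂]
        exact ⟨i, hi, hy, fun p hp => h2 p (Finset.mem_biUnion.2 ⟨i, hi, hp⟩)⟩
      have h1 := (Set.ncard_le_ncard hsub (Set.toFinite _)).trans (Finset.set_ncard_biUnion_le _ _)
      have h2 : (∑ i ∈ I, (Set.ncard {y | y ∈ V i ∧ ∀ p ∈ F i, MvPolynomial.eval y p = 0} : ℝ)) ≤
          ∑ _i ∈ I, E := Finset.sum_le_sum fun i hi => (hF i hi).2.2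
      rw [Finset.sum_const, nsmul_eq_mul] at h2
      have h3 : (I.card : ℝ) ≤ T := by exact_mod_cast hI1
      calc _ ≤ ((∑ i ∈ I, Set.ncard {y | y ∈ V i ∧ ∀ p ∈ F i, MvPolynomial.eval y p = 0} : ℕ) : ℝ) :=
            Nat.cast_le.2 h1
        _ = ∑ i ∈ I, (Set.ncard {y | y ∈ V i ∧ ∀ p ∈ F i, MvPolynomial.eval y p = 0} : ℝ) := by
            push_cast; rfl
        _ ≤ _ := h2
        _ ≤ T * E := mul_le_mul_of_nonneg_right h3 hE)
  push_cast at key
  exact key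

end Pool.Agent.W856.Corner
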