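import Mathlib
import Pool.Agent.W856.Corner2

/-!
Low degree functions on the cube over a field `K`, the rank inequality for corner-free sets, and
the size of the degree closure of a set.
-/

namespace Pool.Agent.W856.Corner

open Finset

/-- The rank inequality: a matrix supported on a corner-free set of `G × G` whose rows lie in `U`
has at most `|G| * dim U` nonzero entries. -/
theorem core_rank {G K : Type*} [AddCommGroup G] [Fintype G] [DecidableEq G] [Field K]
    [DecidableEq K] (A : Finset (G × G))
    (hA : ∀ x y z : G, (x, y) ∈ A → (x, y + z) ∈ A → (x + z, y) ∈ A → z = 0)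
    (U : Submodule K (G → K)) [FiniteDimensional K U]
    (M : G → G → K) (hM : ∀ x, M x ∈ U) (hs : ∀ x y, M x y ≠ 0 → (x, y) ∈ A) :
    ∑ x, (univ.filter fun y => M x y ≠ 0).card ≤ Fintype.card G * Module.finrank K U := by
  classical
  have hswap : ∑ x, (univ.filter fun y => M x y ≠ 0).card =
      ∑ s, (univ.filter fun x => M x (s - x) ≠ 0).card := by
    simp only [Finset.card_filter]
    rw [Finset.sum_comm (s := (univ : Finset G)) (t := (univ : Finset G))
      (f := fun s x => if M x (s - x) ≠ 0 then 1 else 0)]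
    refine Finset.sum_congr rfl fun x _ => ?_
    exact (Fintype.sum_equiv (Equiv.subRight x) (fun s => if M x (s - x) ≠ 0 then 1 else 0)
      (fun y => if M x y ≠ 0 then 1 else 0) (fun s => rfl)).symm
  rw [hswap]
  have hcol : ∀ s ∈ (univ : Finset G), (univ.filter fun x => M x (s - x) ≠ 0).card ≤
      Module.finrank K U := by
    intro s _
    set S : Finset G := univ.filter fun x => M x (s - x) ≠ 0 with hS
    have hmem : ∀ x, x ∈ S ↔ M x (s - x) ≠ 0 := fun x => by simp [hS]
    let f : S → U := fun x => ⟨M x.1, hM x.1⟩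
    have hf : LinearIndependent K f := by
      rw [Fintype.linearIndependent_iff]
      intro c hc x'
      have h1 : (∑ x : S, c x • f x : U).1 (s - x'.1) = 0 := by rw [hc]; rfl
      have h2 : (∑ x : S, c x • f x : U).1 (s - x'.1) = ∑ x : S, c x * M x.1 (s - x'.1) := by
        simp [f, Finset.sum_apply]
      rw [h2, Finset.sum_eq_single x'] at h1
      · exact (mul_eq_zero.1 h1).resolve_right ((hmem _).1 x'.2)
      · intro x _ hx
        by_contra hne
        have h3 : M x.1 (s - x'.1) ≠ 0 := fun h => hne (by rw [h, mul_zero])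
        have h4 := hs _ _ h3
        have h5 := hs _ _ ((hmem _).1 x.2)
        have h6 := hs _ _ ((hmem _).1 x'.2)
        have h7 := hA x.1 (s - x'.1) (x'.1 - x.1) h4
          (by rw [show s - x'.1 + (x'.1 - x.1) = s - x.1 by abel]; exact h5)
          (by rw [show x.1 + (x'.1 - x.1) = x'.1 by abel]; exact h6)
        exact hx (Subtype.ext (sub_eq_zero.1 h7).symm)
      · intro h
        exact absurd (Finset.mem_univ _) h
    have := hf.fintype_card_le_finrank
    simpa using this
  calc ∑ s, (univ.filter fun x => M x (s - x) ≠ 0).card ≤ ∑ _s : G, Module.finrank K U :=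
        Finset.sum_le_sum hcol
    _ = Fintype.card G * Module.finrank K U := by simp

variable {n : ℕ} (K : Type) [Field K]

/-- `[y i = 1]` as an element of `K`. -/
def bit (y : Fin n → ZMod 2) (i : Fin n) : K := if y i = 1 then 1 else 0

/-- The monomial of a set of coordinates. -/
def mon (s : Finset (Fin n)) (y : Fin n → ZMod 2) : K := ∏ i ∈ s, bit K y i

/-- Functions on the cube which are polynomials of degree at most `D` over `K`. -/
def LK (n D : ℕ) : Submodule K ((Fin n → ZMod 2) → K) :=
  Submodule.span K (Set.range fun s : {s : Finset (Fin n) // s.card ≤ D} => mon K s.1)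

variable {K}

lemma mon_mem {D : ℕ} (s : Finset (Fin n)) (hs : s.card ≤ D) : mon K s ∈ LK K n D :=
  Submodule.subset_span ⟨⟨s, hs⟩, rfl⟩

lemma LK_mono {D D' : ℕ} (h : D ≤ D') : LK K n D ≤ LK K n D' := by
  unfold LK
  refine Submodule.span_mono ?_
  rintro _ ⟨⟨s, hs⟩, rfl⟩
  exact ⟨⟨s, hs.trans h⟩, rfl⟩

lemma card_small' (n D : ℕ) :
    Fintype.card {s : Finset (Fin n) // s.card ≤ D} = ∑ i ∈ range (D + 1), n.choose i := by
  classical
  rw [Fintype.card_subtype]
  have h : (univ.filter fun s : Finset (Fin n) => s.card ≤ D) =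
      (range (D + 1)).biUnion fun i => powersetCard i (univ : Finset (Fin n)) := by
    ext s
    simp [Finset.mem_powersetCard]
  rw [h, Finset.card_biUnion]
  · refine Finset.sum_congr rfl fun i _ => ?_
    rw [Finset.card_powersetCard]
    simp
  · intro i _ j _ hij
    rw [Function.onFun, Finset.disjoint_left]
    intro s hs hs'
    rw [Finset.mem_powersetCard] at hs hs'
    exact hij (hs.2.symm.trans hs'.2)

lemma finrank_LK (n D : ℕ) :
    Module.finrank K (LK K n D) ≤ ∑ i ∈ range (D + 1), n.choose i := by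
  rw [← card_small']
  exact finrank_range_le_card _

lemma mon_mul (s t : Finset (Fin n)) : mon K s * mon K t = mon K (s ∪ t) := by
  funext y
  simp only [Pi.mul_apply]
  unfold mon
  by_cases h : ∀ i ∈ s ∪ t, y i = 1
  · have e : ∀ i ∈ s ∪ t, bit K y i = 1 := fun i hi => by unfold bit; rw [if_pos (h i hi)]
    rw [Finset.prod_eq_one e, Finset.prod_eq_one fun i hi => e i (Finset.mem_union_left _ hi),
      Finset.prod_eq_one fun i hi => e i (Finset.mem_union_right _ hi), one_mul]
  · push Not at h
    obtain ⟨i, hi, hy⟩ := h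
    have e : bit K y i = 0 := by unfold bit; rw [if_neg hy]
    rw [Finset.prod_eq_zero hi e]
    rcases Finset.mem_union.1 hi with h | h
    · rw [Finset.prod_eq_zero h e, zero_mul]
    · rw [Finset.prod_eq_zero h e, mul_zero]

lemma LK_mul {a b : ℕ} {f g : (Fin n → ZMod 2) → K} (hf : f ∈ LK K n a) (hg : g ∈ LK K n b) :
    f * g ∈ LK K n (a + b) := by
  have h := Submodule.mul_mem_mul hf hg
  unfold LK at h
  rw [Submodule.span_mul_span] at h
  refine Submodule.span_le.2 ?_ h
  rintro _ ⟨_, ⟨⟨s, hs⟩, rfl⟩, _, ⟨⟨t, ht⟩, rfl⟩, rfl⟩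
  simp only
  rw [SetLike.mem_coe, mon_mul]
  exact mon_mem _ ((Finset.card_union_le _ _).trans (Nat.add_le_add hs ht))

lemma LK_one (D : ℕ) : (1 : (Fin n → ZMod 2) → K) ∈ LK K n D := by
  have : (1 : (Fin n → ZMod 2) → K) = mon K ∅ := by
    funext y; simp [mon]
  rw [this]
  exact mon_mem _ (by simp)

lemma LK_const (D : ℕ) (c : K) : (fun _ => c : (Fin n → ZMod 2) → K) ∈ LK K n D := by
  have : (fun _ => c : (Fin n → ZMod 2) → K) = c • 1 := by
    funext y; simp
  rw [this]
  exact Submodule.smul_mem _ _ (LK_one D)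

lemma LK_prod {ι : Type*} (s : Finset ι) (D : ι → ℕ) (f : ι → (Fin n → ZMod 2) → K)
    (h : ∀ i ∈ s, f i ∈ LK K n (D i)) : (∏ i ∈ s, f i) ∈ LK K n (∑ i ∈ s, D i) := by
  classical
  induction s using Finset.induction_on with
  | empty => simpa using LK_one (n := n) (K := K) 0
  | insert a s ha ih =>
    rw [Finset.prod_insert ha, Finset.sum_insert ha]
    exact LK_mul (h a (Finset.mem_insert_self _ _))
      (ih fun i hi => h i (Finset.mem_insert_of_mem hi))

lemma LK_pow {D : ℕ} (k : ℕ) {f : (Fin n → ZMod 2) → K} (h : f ∈ LK K n D) :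
    f ^ k ∈ LK K n (k * D) := by
  have := LK_prod (Finset.range k) (fun _ => D) (fun _ => f) (fun _ _ => h)
  simpa using this

lemma zmod2_c (a : ZMod 2) : a = 0 ∨ a = 1 := by
  fin_cases a
  · left; rfl
  · right; rfl

lemma bit_shift (a : Fin n → ZMod 2) (i : Fin n) :
    (fun y : Fin n → ZMod 2 => bit K (y + a) i) ∈ LK K n 1 := by
  have hb : (fun y : Fin n → ZMod 2 => bit K y i) ∈ LK K n 1 := by
    have : (fun y : Fin n → ZMod 2 => bit K y i) = mon K {i} := by
      funext y; simp [mon]
    rw [this]
    exact mon_mem _ (by simp)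
  rcases zmod2_c (a i) with h | h
  · have : (fun y : Fin n → ZMod 2 => bit K (y + a) i) = fun y => bit K y i := by
      funext y
      unfold bit
      rw [Pi.add_apply, h, add_zero]
    rw [this]; exact hb
  · have : (fun y : Fin n → ZMod 2 => bit K (y + a) i) = 1 - fun y => bit K y i := by
      funext y
      rw [Pi.sub_apply, Pi.one_apply]
      unfold bit
      rw [Pi.add_apply, h]
      rcases zmod2_c (y i) with h2 | h2 <;> rw [h2]
      · simp
      · rw [if_neg (by decide), if_pos rfl, sub_self]
    rw [this]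
    exact Submodule.sub_mem _ (LK_one 1) hb

lemma mon_shift {D : ℕ} (s : Finset (Fin n)) (hs : s.card ≤ D) (a : Fin n → ZMod 2) :
    (fun y => mon K s (y + a)) ∈ LK K n D := by
  have : (fun y => mon K s (y + a)) = ∏ i ∈ s, fun y : Fin n → ZMod 2 => bit K (y + a) i := by
    funext y
    rw [Finset.prod_apply]
    rfl
  rw [this]
  have h := LK_prod s (fun _ => 1) (fun i y => bit K (y + a) i) (fun i _ => bit_shift (K := K) a i)
  refine LK_mono ?_ h
  simpa using hs

/-- support of a vector -/
def sp (y : Fin n → ZMod 2) : Finset (Fin n) := univ.filter fun i => y i = 1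

lemma mon_ne_zero {s : Finset (Fin n)} {y : Fin n → ZMod 2} : mon K s y ≠ 0 ↔ s ⊆ sp y := by
  unfold mon
  rw [Finset.prod_ne_zero_iff]
  constructor
  · intro h i hi
    have := h i hi
    unfold bit at this
    unfold sp
    rw [Finset.mem_filter]
    refine ⟨Finset.mem_univ _, ?_⟩
    by_contra hne
    rw [if_neg hne] at this
    exact this rfl
  · intro h i hi
    have := h hi
    unfold sp at this
    rw [Finset.mem_filter] at this
    unfold bit
    rw [if_pos this.2]
    exact one_ne_zero

lemma sp_inj {y y' : Fin n → ZMod 2} (h : sp y = sp y') : y = y' := by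
  funext i
  have h1 : i ∈ sp y ↔ i ∈ sp y' := by rw [h]
  unfold sp at h1
  simp only [Finset.mem_filter, Finset.mem_univ, true_and] at h1
  rcases zmod2_c (y i) with h2 | h2 <;> rcases zmod2_c (y' i) with h3 | h3
  · rw [h2, h3]
  · have := h1.2 h3; rw [h2] at this; exact absurd this (by decide)
  · have := h1.1 h2; rw [h3] at this; exact absurd this (by decide)
  · rw [h2, h3]

/-- Evaluation functional. -/
def ev (D : ℕ) (z : Fin n → ZMod 2) : LK K n D →ₗ[K] K where
  toFun f := f.1 z
  map_add' _ _ := rfl
  map_smul' _ _ := rfl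

/-- Evaluations at the points of a translate of the Hamming ball of radius `D` are independent. -/
lemma ev_indep (D : ℕ) (a : Fin n → ZMod 2) (B : Finset (Fin n → ZMod 2))
    (hB : ∀ z ∈ B, (sp (z + a)).card ≤ D) :
    LinearIndependent K (fun z : B => ev (K := K) D z.1) := by
  classical
  rw [Fintype.linearIndependent_iff]
  intro c hc
  by_contra hne
  push Not at hne
  obtain ⟨z0, hz0⟩ := hne
  obtain ⟨z, hz, hmax⟩ := Finset.exists_max_image (univ.filter fun z : B => c z ≠ 0)
    (fun z => (sp (z.1 + a)).card) ⟨z0, by simp [hz0]⟩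
  rw [Finset.mem_filter] at hz
  have hf := mon_shift (K := K) (sp (z.1 + a)) (hB z.1 z.2) a
  have h1 : (∑ w : B, c w • ev (K := K) D w.1) ⟨_, hf⟩ = 0 := by rw [hc]; rfl
  have h2 : (∑ w : B, c w • ev (K := K) D w.1) ⟨_, hf⟩ =
      ∑ w : B, c w * mon K (sp (z.1 + a)) (w.1 + a) := by
    rw [LinearMap.sum_apply]
    rfl
  rw [h2, Finset.sum_eq_single z] at h1
  · refine hz.2 ((mul_eq_zero.1 h1).resolve_right ?_)
    exact mon_ne_zero.2 (Finset.Subset.refl _)
  · intro w _ hw
    by_cases hcw : c w = 0
    · rw [hcw, zero_mul]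
    · have hle := hmax w (by rw [Finset.mem_filter]; exact ⟨Finset.mem_univ _, hcw⟩)
      by_contra hne
      have h3 : mon K (sp (z.1 + a)) (w.1 + a) ≠ 0 := fun h => hne (by rw [h, mul_zero])
      have h4 := mon_ne_zero.1 h3
      have h5 := Finset.eq_of_subset_of_card_le h4 hle
      have h6 := sp_inj h5
      exact hw (Subtype.ext (add_right_cancel h6).symm)
  · intro h
    exact absurd (Finset.mem_univ _) h

instance LK_fin (D : ℕ) : FiniteDimensional K (LK K n D) := by
  unfold LK
  exact FiniteDimensional.span_of_finite K (Set.finite_range _)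

/-- The degree closure of `E` is not much larger than `E`. -/
theorem closure_le (D : ℕ) (E Z : Finset (Fin n → ZMod 2))
    (hZ : ∀ z ∈ Z, ∀ f ∈ LK K n D, (∀ e ∈ E, f e = 0) → f z = 0) :
    Z.card * ∑ i ∈ range (D + 1), n.choose i ≤ 2 ^ n * E.card := by
  classical
  have hspan : ∀ z ∈ Z, ev (K := K) D z ∈
      Submodule.span K (Set.range fun e : E => ev (K := K) D e.1) := by
    intro z hz
    refine mem_span_of_iInf_ker_le_ker ?_
    intro f hf
    rw [Submodule.mem_iInf] at hf
    rw [LinearMap.mem_ker]
    exact hZ z hz f.1 f.2 fun e he => hf ⟨e, he⟩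
  have hball : ∀ a : Fin n → ZMod 2, (Z.filter fun z => (sp (z + a)).card ≤ D).card ≤ E.card := by
    intro a
    set B := Z.filter fun z => (sp (z + a)).card ≤ D with hBdef
    have hB : ∀ z ∈ B, (sp (z + a)).card ≤ D := fun z hz => (Finset.mem_filter.1 hz).2
    have hBZ : ∀ z ∈ B, z ∈ Z := fun z hz => (Finset.mem_filter.1 hz).1
    let v : B → Submodule.span K (Set.range fun e : E => ev (K := K) D e.1) :=
      fun z => ⟨ev (K := K) D z.1, hspan z.1 (hBZ z.1 z.2)⟩
    have hv : LinearIndependent K v := by
      refine LinearIndependent.of_comp (Submodule.subtype _) ?_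
      exact ev_indep (K := K) D a B hB
    have h1 := hv.fintype_card_le_finrank
    have h2 : Module.finrank K (Submodule.span K (Set.range fun e : E => ev (K := K) D e.1)) ≤
        Fintype.card E := finrank_range_le_card _
    have h3 := h1.trans h2
    simpa using h3
  have hcount : ∑ a : Fin n → ZMod 2, (Z.filter fun z => (sp (z + a)).card ≤ D).card =
      Z.card * ∑ i ∈ range (D + 1), n.choose i := by
    simp only [Finset.card_filter]
    rw [Finset.sum_comm]
    have h1 : ∀ z ∈ Z, ∑ a : Fin n → ZMod 2, (if (sp (z + a)).card ≤ D then 1 else 0) =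
        ∑ i ∈ range (D + 1), n.choose i := by
      intro z _
      rw [← card_small', Fintype.card_subtype]
      rw [← Finset.card_filter]
      refine Finset.card_bij' (fun a _ => sp (z + a)) (fun s _ => z + fun i => if i ∈ s then 1 else 0)
        ?_ ?_ ?_ ?_
      · intro a ha
        simpa using ha
      · intro s hs
        simp only [Finset.mem_filter, Finset.mem_univ, true_and] at hs ⊢
        have e : sp (z + (z + fun i => if i ∈ s then (1 : ZMod 2) else 0)) = s := by
          ext i
          unfold sp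
          simp only [Finset.mem_filter, Finset.mem_univ, true_and, Pi.add_apply]
          rw [← add_assoc, CharTwo.add_self_eq_zero, zero_add]
          by_cases hi : i ∈ s <;> simp [hi]
        rw [e]; exact hs
      · intro a _
        funext i
        simp only [Pi.add_apply]
        have : (if i ∈ sp (z + a) then (1 : ZMod 2) else 0) = z i + a i := by
          unfold sp
          simp only [Finset.mem_filter, Finset.mem_univ, true_and, Pi.add_apply]
          rcases zmod2_c (z i + a i) with h | h <;> rw [h] <;> simp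
        rw [this, ← add_assoc, CharTwo.add_self_eq_zero, zero_add]
      · intro s _
        ext i
        unfold sp
        simp only [Finset.mem_filter, Finset.mem_univ, true_and, Pi.add_apply]
        rw [← add_assoc, CharTwo.add_self_eq_zero, zero_add]
        by_cases hi : i ∈ s <;> simp [hi]
    rw [Finset.sum_congr rfl h1, Finset.sum_const, smul_eq_mul]
  rw [← hcount]
  calc _ ≤ ∑ _a : Fin n → ZMod 2, E.card := Finset.sum_le_sum fun a _ => hball a
    _ = 2 ^ n * E.card := by simp

/-- A low degree function vanishing on `E` whose support contains a large part of `V`. -/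
theorem exists_vanish [Fintype K] [DecidableEq K] (D : ℕ) (E V : Finset (Fin n → ZMod 2)) :
    ∃ h ∈ LK K n D, (∀ e ∈ E, h e = 0) ∧ ∃ z : ℕ,
      z * ∑ i ∈ range (D + 1), n.choose i ≤ 2 ^ n * E.card ∧
      V.card ≤ z + 2 * (V.filter fun y => h y ≠ 0).card := by
  classical
  set W : Finset ((Fin n → ZMod 2) → K) := univ.filter fun f => f ∈ LK K n D ∧ ∀ e ∈ E, f e = 0
    with hW
  set Z : Finset (Fin n → ZMod 2) := univ.filter fun z => ∀ f ∈ W, f z = 0 with hZ
  have hWm : ∀ f, f ∈ W ↔ f ∈ LK K n D ∧ ∀ e ∈ E, f e = 0 := fun f => by simp [hW]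
  have hZc : Z.card * ∑ i ∈ range (D + 1), n.choose i ≤ 2 ^ n * E.card := by
    refine closure_le (K := K) D E Z fun z hz f hf hfe => ?_
    rw [hZ, Finset.mem_filter] at hz
    exact hz.2 f ((hWm f).2 ⟨hf, hfe⟩)
  have hWne : W.Nonempty := ⟨0, (hWm 0).2 ⟨Submodule.zero_mem _, fun _ _ => rfl⟩⟩
  -- for every point outside of `Z`, at least half of the elements of `W` do not vanish there
  have hhalf : ∀ y, y ∉ Z → W.card ≤ 2 * (W.filter fun f => f y ≠ 0).card := by
    intro y hy
    have h1 : ∃ f0 ∈ W, f0 y ≠ 0 := by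
      by_contra hcon
      push Not at hcon
      exact hy (by rw [hZ, Finset.mem_filter]; exact ⟨Finset.mem_univ _, hcon⟩)
    obtain ⟨f0, hf0, hf0y⟩ := h1
    have h2 : (W.filter fun f => f y = 0).card ≤ (W.filter fun f => f y ≠ 0).card := by
      refine Finset.card_le_card_of_injOn (fun f => f + f0) ?_ ?_
      · intro f hf
        rw [Finset.mem_coe, Finset.mem_filter] at hf ⊢
        obtain ⟨hf1, hf2⟩ := hf
        rw [hWm] at hf1 hf0 ⊢
        refine ⟨⟨Submodule.add_mem _ hf1.1 hf0.1, fun e he => ?_⟩, ?_⟩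
        · show f e + f0 e = 0
          rw [hf1.2 e he, hf0.2 e he, add_zero]
        · show f y + f0 y ≠ 0
          rw [hf2, zero_add]; exact hf0y
      · intro f _ g _ hfg
        exact add_right_cancel hfg
    have h3 : (W.filter fun f => f y = 0).card + (W.filter fun f => f y ≠ 0).card = W.card :=
      Finset.card_filter_add_card_filter_not (s := W) (fun f => f y = 0)
    omega
  -- averaging
  have havg : (V \ Z).card * W.card ≤ 2 * ∑ f ∈ W, (V.filter fun y => f y ≠ 0).card := by
    have h1 : ∑ f ∈ W, (V.filter fun y => f y ≠ 0).card =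
        ∑ y ∈ V, (W.filter fun f => f y ≠ 0).card := by
      simp only [Finset.card_filter]
      exact Finset.sum_comm
    rw [h1, Finset.mul_sum]
    calc (V \ Z).card * W.card = ∑ _y ∈ V \ Z, W.card := by rw [Finset.sum_const, smul_eq_mul]
      _ ≤ ∑ y ∈ V \ Z, 2 * (W.filter fun f => f y ≠ 0).card :=
          Finset.sum_le_sum fun y hy => hhalf y (Finset.mem_sdiff.1 hy).2
      _ ≤ ∑ y ∈ V, 2 * (W.filter fun f => f y ≠ 0).card :=
          Finset.sum_le_sum_of_subset Finset.sdiff_subset
  have hex : ∃ f ∈ W, (V \ Z).card ≤ 2 * (V.filter fun y => f y ≠ 0).card := by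
    by_contra hcon
    push Not at hcon
    have : 2 * ∑ f ∈ W, (V.filter fun y => f y ≠ 0).card < ∑ _f ∈ W, (V \ Z).card := by
      rw [Finset.mul_sum]
      exact Finset.sum_lt_sum_of_nonempty hWne fun f hf => hcon f hf
    rw [Finset.sum_const, smul_eq_mul, mul_comm W.card] at this
    omega
  obtain ⟨f, hf, hfV⟩ := hex
  refine ⟨f, ((hWm f).1 hf).1, ((hWm f).1 hf).2, Z.card, hZc, ?_⟩
  have : V.card ≤ Z.card + (V \ Z).card := by
    have := Finset.card_le_card_sdiff_add_card (s := V) (t := Z)
    omega
  omega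

end Pool.Agent.W856.Corner
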