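import Mathlib

/-!
Definitions for the theorem on corner-free sets with rows computed by small circuits.
-/

namespace Pool.Agent.W856.Corner

/-- The group `F_2^n`. -/
abbrev V (n : ℕ) := Fin n → ZMod 2

/-- `A` contains no nontrivial corner. -/
def CornerFree {n : ℕ} (A : Finset (V n × V n)) : Prop :=
  ∀ x y z : V n, (x, y) ∈ A → (x, y + z) ∈ A → (x + z, y) ∈ A → z = 0

/-- `L` is the family of all rows, or of all columns, or of all diagonals of `A`. -/
def IsLines {n : ℕ} (A : Finset (V n × V n)) (L : V n → Set (V n)) : Prop :=
  (∀ s, L s = {y | (s, y) ∈ A}) ∨ (∀ s, L s = {x | (x, s) ∈ A}) ∨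
    (∀ s, L s = {y | (s + y, y) ∈ A})

/-- The Boolean function `f` (as a function with values `0` and `1`) is a polynomial of degree at
most `k` over `Z/p` in the coordinates, which are read as the elements `0` and `1` of `Z/p`. -/
def HasDegree (p k : ℕ) {n : ℕ} (f : V n → Bool) : Prop :=
  ∃ P : MvPolynomial (Fin n) (ZMod p), P.totalDegree ≤ k ∧
    ∀ y : V n, MvPolynomial.eval (fun i => if y i = 1 then (1 : ZMod p) else 0) P =
      if f y = true then 1 else 0

/-- A circuit on `n` bits with the nodes `0, …, N - 1`; `val i` is the Boolean function computed at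
the node `i`. A node is either an input node, which computes a function of degree at most `k` over
`Z/p`, or the negation of an earlier node, or a `MOD p` gate (which tests whether the number of true
inputs is congruent to `r` modulo `p`), or an AND gate or an OR gate. The fan-in is unbounded. The
function `depth` grows along every wire into a `MOD p`, AND or OR gate. -/
structure Circuit (p n k : ℕ) where
  /-- the number of nodes -/
  N : ℕ
  /-- the functions computed at the nodes -/
  val : Fin N → V n → Bool
  /-- the depth of the nodes -/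
  depth : Fin N → ℕ
  /-- the AND gates and the OR gates -/
  andOr : Finset (Fin N)
  /-- every node is of one of the allowed kinds -/
  rule : ∀ i : Fin N,
    (i ∉ andOr ∧ HasDegree p k (val i)) ∨
    (i ∉ andOr ∧ ∃ j : Fin N, j < i ∧ depth j ≤ depth i ∧ ∀ y, val i y = !val j y) ∨
    (i ∉ andOr ∧ ∃ (J : Finset (Fin N)) (r : ZMod p), (∀ j ∈ J, j < i ∧ depth j < depth i) ∧
      ∀ y, val i y = decide (((J.filter fun j => val j y = true).card : ZMod p) = r)) ∨
    (i ∈ andOr ∧ ∃ J : Finset (Fin N), (∀ j ∈ J, j < i ∧ depth j < depth i) ∧
      ((∀ y, val i y = decide (∀ j ∈ J, val j y = true)) ∨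
        ∀ y, val i y = decide (∃ j ∈ J, val j y = true)))

/-- `S` is computed by a circuit with at most `s` AND and OR gates (and any number of other nodes),
of depth at most `d`, whose input nodes are functions of degree at most `k` over `Z/p`. -/
def Computed (p k s d : ℕ) {n : ℕ} (S : Set (V n)) : Prop :=
  ∃ C : Circuit p n k, C.andOr.card ≤ s ∧ (∀ i, C.depth i ≤ d) ∧
    ∃ i, ∀ y, y ∈ S ↔ C.val i y = true

end Pool.Agent.W856.Corner
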