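import Mathlib
import Pool.Agent.W856.CornerDefs
import Pool.Agent.W856.Corner6

/-!
Probabilistic polynomials for circuits (Razborov, Smolensky).
-/

namespace Pool.Agent.W856.Corner

open Finset

/-- A Boolean value as an element of `K`. -/
def bi (K : Type) [Field K] (b : Bool) : K := if b = true then 1 else 0

/-- Boolean functions of degree at most `D` over `K`. -/
def LB (K : Type) [Field K] {n : ℕ} (D : ℕ) (f : V n → Bool) : Prop :=
  (fun y => bi K (f y)) ∈ LK K n D

variable {n : ℕ} {K : Type} [Field K]

lemma LB_mono {D D' : ℕ} (h : D ≤ D') {f : V n → Bool} (hf : LB K D f) : LB K D' f :=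
  LK_mono h hf

lemma LB_const (D : ℕ) (b : Bool) : LB K D (fun _ : V n => b) := LK_const D (bi K b)

lemma bi_not (b : Bool) : bi K (!b) = 1 - bi K b := by
  cases b <;> simp [bi]

lemma LB_not {D : ℕ} {f : V n → Bool} (hf : LB K D f) : LB K D (fun y => !f y) := by
  unfold LB
  have : (fun y => bi K (!f y)) = 1 - fun y => bi K (f y) := by
    funext y
    rw [bi_not]; rfl
  rw [this]
  exact Submodule.sub_mem _ (LK_one D) hf

lemma bit_pow (y : Fin n → ZMod 2) (i : Fin n) {k : ℕ} (hk : k ≠ 0) : bit K y i ^ k = bit K y i := by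
  unfold bit
  split_ifs
  · exact one_pow k
  · exact zero_pow hk

lemma hasDegree_LB {p k : ℕ} [Fact p.Prime] {f : V n → Bool} (h : HasDegree p k f) :
    LB (ZMod p) k f := by
  obtain ⟨P, hP, he⟩ := h
  unfold LB
  have h1 : (fun y => bi (ZMod p) (f y)) =
      ∑ m ∈ P.support, P.coeff m • mon (n := n) (ZMod p) m.support := by
    funext y
    have h2 : bi (ZMod p) (f y) = MvPolynomial.eval (fun i => bit (ZMod p) y i) P := (he y).symm
    rw [h2, MvPolynomial.eval_eq]
    simp only [Finset.sum_apply, Pi.smul_apply, smul_eq_mul]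
    refine Finset.sum_congr rfl fun m _ => ?_
    congr 1
    unfold mon
    exact Finset.prod_congr rfl fun i hi => bit_pow y i (Finsupp.mem_support_iff.1 hi)
  rw [h1]
  refine Submodule.sum_mem _ fun m hm => Submodule.smul_mem _ _ (mon_mem _ ?_)
  have h1 := MvPolynomial.le_totalDegree hm
  have h2 : m.support.card ≤ m.sum fun _ e => e := by
    rw [Finsupp.sum, Finset.card_eq_sum_ones]
    exact Finset.sum_le_sum fun i hi => Nat.one_le_iff_ne_zero.2 (Finsupp.mem_support_iff.1 hi)
  exact h2.trans (h1.trans hP)

section Gates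

variable {p : ℕ} [Fact p.Prime]

/-- `[a = 0]` as a polynomial. -/
lemma fermat (a : ZMod p) : (if a = 0 then (1 : ZMod p) else 0) = 1 - a ^ (p - 1) := by
  have hp : p - 1 ≠ 0 := by
    have := (Fact.out : p.Prime).two_le
    omega
  split_ifs with h
  · rw [h, zero_pow hp, sub_zero]
  · rw [ZMod.pow_card_sub_one_eq_one h, sub_self]

variable {N t : ℕ}

/-- The test that all the random linear combinations vanish. -/
def zeroS (J : Finset (Fin N)) (w : Fin t → Fin N → ZMod p) (c : Fin N → V n → Bool) (y : V n) :
    Bool :=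
  decide (∀ τ : Fin t, ∑ j ∈ J, w τ j * bi (ZMod p) (c j y) = 0)

lemma zeroS_LB {D : ℕ} (J : Finset (Fin N)) (w : Fin t → Fin N → ZMod p) (c : Fin N → V n → Bool)
    (hc : ∀ j ∈ J, LB (ZMod p) D (c j)) : LB (ZMod p) (t * ((p - 1) * D)) (zeroS J w c) := by
  unfold LB
  have h1 : (fun y => bi (ZMod p) (zeroS J w c y)) =
      ∏ τ : Fin t, (1 - (∑ j ∈ J, w τ j • fun y => bi (ZMod p) (c j y)) ^ (p - 1)) := by
    funext y
    rw [Finset.prod_apply]
    have h2 : ∀ τ : Fin t, (1 - (∑ j ∈ J, w τ j • fun y => bi (ZMod p) (c j y)) ^ (p - 1) :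
        V n → ZMod p) y = if ∑ j ∈ J, w τ j * bi (ZMod p) (c j y) = 0 then (1 : ZMod p) else 0 := by
      intro τ
      rw [fermat, Pi.sub_apply, Pi.pow_apply, Pi.one_apply, Finset.sum_apply]
      simp only [Pi.smul_apply, smul_eq_mul]
    rw [Finset.prod_congr rfl fun τ _ => h2 τ]
    by_cases h : ∀ τ : Fin t, ∑ j ∈ J, w τ j * bi (ZMod p) (c j y) = 0
    · have e : zeroS J w c y = true := by unfold zeroS; simpa using h
      rw [e, Finset.prod_eq_one fun τ _ => if_pos (h τ)]
      rfl
    · have e : zeroS J w c y = false := by unfold zeroS; simpa using h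
      push Not at h
      obtain ⟨τ, hτ⟩ := h
      rw [e, Finset.prod_eq_zero (Finset.mem_univ τ) (if_neg hτ)]
      rfl
  rw [h1]
  have h3 := LK_prod (K := ZMod p) (n := n) (Finset.univ : Finset (Fin t)) (fun _ => (p - 1) * D)
    (fun τ => 1 - (∑ j ∈ J, w τ j • fun y => bi (ZMod p) (c j y)) ^ (p - 1)) (fun τ _ => by
      refine Submodule.sub_mem _ (LK_one _) (LK_pow _ ?_)
      exact Submodule.sum_mem _ fun j hj => Submodule.smul_mem _ _ (hc j hj))
  simpa using h3

lemma mod_LB {D : ℕ} (J : Finset (Fin N)) (r : ZMod p) (c : Fin N → V n → Bool)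
    (hc : ∀ j ∈ J, LB (ZMod p) D (c j)) :
    LB (ZMod p) ((p - 1) * D)
      (fun y => decide (((J.filter fun j => c j y = true).card : ZMod p) = r)) := by
  unfold LB
  have h1 : (fun y => bi (ZMod p) (decide (((J.filter fun j => c j y = true).card : ZMod p) = r))) =
      (1 - (∑ j ∈ J, (fun y => bi (ZMod p) (c j y)) - fun _ : V n => r) ^ (p - 1)) := by
    funext y
    rw [Pi.sub_apply, Pi.pow_apply, Pi.one_apply, Pi.sub_apply, Finset.sum_apply, ← fermat]
    have h2 : ∑ j ∈ J, bi (ZMod p) (c j y) = ((J.filter fun j => c j y = true).card : ZMod p) := by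
      unfold bi
      rw [Finset.sum_boole]
    rw [h2]
    unfold bi
    by_cases h3 : ((J.filter fun j => c j y = true).card : ZMod p) = r
    · rw [if_pos (by simpa using h3), if_pos (sub_eq_zero.2 h3)]
    · rw [if_neg (by simpa using h3), if_neg (fun h => h3 (sub_eq_zero.1 h))]
  rw [h1]
  refine Submodule.sub_mem _ (LK_one _) (LK_pow _ (Submodule.sub_mem _ ?_ (LK_const _ _)))
  exact Submodule.sum_mem _ fun j hj => hc j hj

/-- a nonzero linear form vanishes on at most half of the space -/
lemma ker_half (J : Finset (Fin N)) (e : Fin N → ZMod p) (h : ∃ j ∈ J, e j ≠ 0) :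
    2 * (univ.filter fun r : Fin N → ZMod p => ∑ j ∈ J, r j * e j = 0).card ≤
      Fintype.card (Fin N → ZMod p) := by
  classical
  obtain ⟨j0, hj0, he⟩ := h
  have h1 : (univ.filter fun r : Fin N → ZMod p => ∑ j ∈ J, r j * e j = 0).card ≤
      (univ.filter fun r : Fin N → ZMod p => ¬ ∑ j ∈ J, r j * e j = 0).card := by
    refine Finset.card_le_card_of_injOn (fun r => r + Pi.single j0 1) ?_ ?_
    · intro r hr
      rw [Finset.mem_coe, Finset.mem_filter] at hr ⊢
      refine ⟨Finset.mem_univ _, ?_⟩
      have h2 : ∑ j ∈ J, (r + Pi.single j0 1 : Fin N → ZMod p) j * e j =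
          ∑ j ∈ J, r j * e j + e j0 := by
        simp only [Pi.add_apply, add_mul, Finset.sum_add_distrib]
        congr 1
        rw [Finset.sum_eq_single j0]
        · simp
        · intro j _ hj
          rw [Pi.single_eq_of_ne hj, zero_mul]
        · intro h; exact absurd hj0 h
      show ¬ ∑ j ∈ J, (r + Pi.single j0 1 : Fin N → ZMod p) j * e j = 0
      rw [h2, hr.2, zero_add]
      exact he
    · intro r _ r' _ hrr
      exact add_right_cancel hrr
  have h2 := Finset.card_filter_add_card_filter_not (s := (univ : Finset (Fin N → ZMod p)))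
    (fun r => ∑ j ∈ J, r j * e j = 0)
  rw [Finset.card_univ] at h2
  omega

/-- the random bits: for every node and every round a vector of coefficients -/
abbrev Om (p N t : ℕ) := Fin N × Fin t → (Fin N → ZMod p)

lemma bad_count (i : Fin N) (J : Finset (Fin N)) (e : Fin N → ZMod p) (h : ∃ j ∈ J, e j ≠ 0) :
    (univ.filter fun w : Om p N t => ∀ τ : Fin t, ∑ j ∈ J, w (i, τ) j * e j = 0).card * 2 ^ t ≤
      Fintype.card (Om p N t) := by
  classical
  set Ker : Finset (Fin N → ZMod p) := univ.filter fun r => ∑ j ∈ J, r j * e j = 0 with hKer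
  have hsub : (univ.filter fun w : Om p N t => ∀ τ : Fin t, ∑ j ∈ J, w (i, τ) j * e j = 0) ⊆
      Fintype.piFinset (fun q : Fin N × Fin t => if q.1 = i then Ker else univ) := by
    intro w hw
    rw [Finset.mem_filter] at hw
    rw [Fintype.mem_piFinset]
    rintro ⟨a, b⟩
    split_ifs with hab
    · simp only at hab
      subst hab
      rw [hKer, Finset.mem_filter]
      exact ⟨Finset.mem_univ _, hw.2 b⟩
    · exact Finset.mem_univ _
  have hle := Finset.card_le_card hsub
  rw [Fintype.card_piFinset] at hle
  have h2 : (2 : ℕ) ^ t = ∏ q : Fin N × Fin t, (if q.1 = i then 2 else 1) := by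
    rw [Finset.prod_ite, Finset.prod_const, Finset.prod_const_one, mul_one]
    congr 1
    have : (univ.filter fun q : Fin N × Fin t => q.1 = i) = ({i} : Finset (Fin N)) ×ˢ univ := by
      ext ⟨a, b⟩
      simp [eq_comm]
    rw [this, Finset.card_product]
    simp
  calc _ ≤ (∏ q : Fin N × Fin t, (if q.1 = i then Ker else univ).card) * 2 ^ t :=
        Nat.mul_le_mul_right _ hle
    _ = ∏ q : Fin N × Fin t, ((if q.1 = i then Ker else univ).card * (if q.1 = i then 2 else 1)) := by
        rw [h2, Finset.prod_mul_distrib]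
    _ ≤ ∏ _q : Fin N × Fin t, Fintype.card (Fin N → ZMod p) := by
        refine Finset.prod_le_prod' fun q _ => ?_
        split_ifs with hq
        · have := ker_half J e h
          rw [mul_comm]
          exact this
        · simp
    _ = Fintype.card (Om p N t) := by
        rw [Finset.prod_const, Finset.card_univ, Fintype.card_fun (α := Fin N × Fin t)]

lemma exists_rec {α : Type} (St : Fin N → (Fin N → α) → α) (d : α) :
    ∃ P : Fin N → α, ∀ i, P i = St i (fun j => if j < i then P j else d) := by
  classical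
  let wf : WellFounded (fun a b : Fin N => a < b) := wellFounded_lt
  let P : Fin N → α := wf.fix fun i prev => St i (fun j => if h : j < i then prev j h else d)
  refine ⟨P, fun i => ?_⟩
  have h := wf.fix_eq (C := fun _ => α)
    (fun i prev => St i (fun j => if h : j < i then prev j h else d)) i
  show P i = _
  rw [show P i = wf.fix (C := fun _ => α)
    (fun i prev => St i (fun j => if h : j < i then prev j h else d)) i from rfl, h]
  congr 1

/-- One step of the construction. -/
lemma step {k : ℕ} (C : Circuit p n k) (t : ℕ) (ht : 1 ≤ t) (i : Fin C.N) :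
    ∃ (St : Om p C.N t → (Fin C.N → V n → Bool) → (V n → Bool)) (Bad : V n → Om p C.N t → Prop),
      (∀ w prev, (∀ j, j < i → LB (ZMod p) (k * ((p - 1) * t) ^ C.depth j) (prev j)) →
        LB (ZMod p) (k * ((p - 1) * t) ^ C.depth i) (St w prev)) ∧
      (∀ w prev y, (∀ j, j < i → prev j y = C.val j y) → ¬ Bad y w → St w prev y = C.val i y) ∧
      (∀ y, i ∉ C.andOr → ∀ w, ¬ Bad y w) ∧
      (∀ y, Nat.card {w // Bad y w} * 2 ^ t ≤ Fintype.card (Om p C.N t)) := by
  classical
  have hp := (Fact.out : p.Prime).two_le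
  have hQ : 1 ≤ (p - 1) * t := Nat.one_le_iff_ne_zero.2 (by
    have : p - 1 ≠ 0 := by omega
    exact Nat.mul_ne_zero this (by omega))
  have hmono : ∀ a b : ℕ, a ≤ b → k * ((p - 1) * t) ^ a ≤ k * ((p - 1) * t) ^ b := fun a b hab =>
    Nat.mul_le_mul_left _ (Nat.pow_le_pow_right hQ hab)
  have hnone : ∀ y : V n, Nat.card {w : Om p C.N t // (fun _ _ => False : V n → Om p C.N t → Prop) y w}
      * 2 ^ t ≤ Fintype.card (Om p C.N t) := by
    intro y
    simp
  rcases C.rule i with ⟨hi, h⟩ | ⟨hi, j, hj, hdj, h⟩ | ⟨hi, J, r, hJ, h⟩ | ⟨hi, J, hJ, h⟩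
  · refine ⟨fun _ _ => C.val i, fun _ _ => False, ?_, ?_, ?_, hnone⟩
    · intro w prev _
      refine LB_mono ?_ (hasDegree_LB h)
      exact Nat.le_mul_of_pos_right _ (pow_pos (by omega) _)
    · intro w prev y _ _; rfl
    · intro y _ w h; exact h
  · refine ⟨fun _ prev y => !prev j y, fun _ _ => False, ?_, ?_, ?_, hnone⟩
    · intro w prev hprev
      exact LB_not (LB_mono (hmono _ _ hdj) (hprev j hj))
    · intro w prev y hprev _
      show (!prev j y) = C.val i y
      rw [h y, hprev j hj]
    · intro y _ w h; exact h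
  · refine ⟨fun _ prev y => decide (((J.filter fun j => prev j y = true).card : ZMod p) = r),
      fun _ _ => False, ?_, ?_, ?_, hnone⟩
    · intro w prev hprev
      rcases J.eq_empty_or_nonempty with hJe | ⟨j0, hj0⟩
      · subst hJe
        refine LB_mono (Nat.zero_le _) ?_
        exact LB_const 0 (decide ((((∅ : Finset (Fin C.N)).filter fun _ => true = true).card : ZMod p) = r))
      · have hd : 1 ≤ C.depth i := by have := (hJ j0 hj0).2; omega
        have h1 : ∀ j ∈ J, LB (ZMod p) (k * ((p - 1) * t) ^ (C.depth i - 1)) (prev j) := by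
          intro j hj
          refine LB_mono (hmono _ _ ?_) (hprev j (hJ j hj).1)
          have := (hJ j hj).2
          omega
        refine LB_mono ?_ (mod_LB J r prev h1)
        calc (p - 1) * (k * ((p - 1) * t) ^ (C.depth i - 1))
            ≤ ((p - 1) * t) * (k * ((p - 1) * t) ^ (C.depth i - 1)) :=
              Nat.mul_le_mul_right _ (Nat.le_mul_of_pos_right _ (by omega))
          _ = k * ((p - 1) * t) ^ C.depth i := by
              obtain ⟨m, hm⟩ : ∃ m, C.depth i = m + 1 := ⟨C.depth i - 1, by omega⟩
              rw [hm, Nat.add_sub_cancel, pow_succ]; ring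
    · intro w prev y hprev _
      show decide (((J.filter fun j => prev j y = true).card : ZMod p) = r) = C.val i y
      rw [h y]
      have : (J.filter fun j => prev j y = true) = J.filter fun j => C.val j y = true :=
        Finset.filter_congr fun j hj => by rw [hprev j (hJ j hj).1]
      rw [this]
    · intro y _ w h; exact h
  · -- AND and OR gates
    have hdeg : ∀ (w : Om p C.N t) (c : Fin C.N → V n → Bool),
        (∀ j ∈ J, LB (ZMod p) (k * ((p - 1) * t) ^ (C.depth i - 1)) (c j)) →
        LB (ZMod p) (k * ((p - 1) * t) ^ C.depth i) (zeroS J (fun τ => w (i, τ)) c) := by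
      intro w c hc
      rcases J.eq_empty_or_nonempty with hJe | ⟨j0, hj0⟩
      · subst hJe
        have e : zeroS (∅ : Finset (Fin C.N)) (fun τ => w (i, τ)) c = fun _ => true := by
          funext y; simp [zeroS]
        rw [e]
        exact LB_const _ _
      · have hd : 1 ≤ C.depth i := by have := (hJ j0 hj0).2; omega
        refine LB_mono (le_of_eq ?_) (zeroS_LB J (fun τ => w (i, τ)) c hc)
        obtain ⟨m, hm⟩ : ∃ m, C.depth i = m + 1 := ⟨C.depth i - 1, by omega⟩
        rw [hm, Nat.add_sub_cancel, pow_succ]; ring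
    have hprev' : ∀ prev : Fin C.N → V n → Bool,
        (∀ j, j < i → LB (ZMod p) (k * ((p - 1) * t) ^ C.depth j) (prev j)) →
        ∀ j ∈ J, LB (ZMod p) (k * ((p - 1) * t) ^ (C.depth i - 1)) (prev j) := by
      intro prev hprev j hj
      refine LB_mono (hmono _ _ ?_) (hprev j (hJ j hj).1)
      have := (hJ j hj).2
      omega
    have hcount : ∀ c : Fin C.N → Bool, Nat.card {w : Om p C.N t // (∃ j ∈ J, c j = true) ∧
        ∀ τ : Fin t, ∑ j ∈ J, w (i, τ) j * bi (ZMod p) (c j) = 0} * 2 ^ t ≤
          Fintype.card (Om p C.N t) := by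
      intro c
      by_cases hc : ∃ j ∈ J, c j = true
      · have h1 := bad_count (t := t) i J (fun j => bi (ZMod p) (c j)) (by
          obtain ⟨j, hj, hcj⟩ := hc
          refine ⟨j, hj, ?_⟩
          rw [hcj]; simp [bi])
        have h2 : Nat.card {w : Om p C.N t // (∃ j ∈ J, c j = true) ∧
            ∀ τ : Fin t, ∑ j ∈ J, w (i, τ) j * bi (ZMod p) (c j) = 0} =
            (univ.filter fun w : Om p C.N t => ∀ τ : Fin t,
              ∑ j ∈ J, w (i, τ) j * bi (ZMod p) (c j) = 0).card := by
          rw [Nat.card_eq_fintype_card, Fintype.card_subtype]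
          congr 1
          ext w
          simp only [Finset.mem_filter, Finset.mem_univ, true_and]
          exact ⟨fun h => h.2, fun h => ⟨hc, h⟩⟩
        rw [h2]
        exact h1
      · have : IsEmpty {w : Om p C.N t // (∃ j ∈ J, c j = true) ∧
            ∀ τ : Fin t, ∑ j ∈ J, w (i, τ) j * bi (ZMod p) (c j) = 0} :=
          ⟨fun w => hc w.2.1⟩
        rw [Nat.card_of_isEmpty, zero_mul]
        exact Nat.zero_le _
    rcases h with h | h
    · refine ⟨fun w prev => zeroS J (fun τ => w (i, τ)) (fun j y => !prev j y),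
        fun y w => (∃ j ∈ J, (!C.val j y) = true) ∧
          ∀ τ : Fin t, ∑ j ∈ J, w (i, τ) j * bi (ZMod p) (!C.val j y) = 0, ?_, ?_, ?_, ?_⟩
      · intro w prev hprev
        exact hdeg w _ fun j hj => LB_not (hprev' prev hprev j hj)
      · intro w prev y hprev hbad
        have e : zeroS J (fun τ => w (i, τ)) (fun j y => !prev j y) y =
            decide (∀ τ : Fin t, ∑ j ∈ J, w (i, τ) j * bi (ZMod p) (!C.val j y) = 0) := by
          unfold zeroS
          congr 1
          rw [eq_iff_iff]
          refine forall_congr' fun τ => ?_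
          have : ∑ j ∈ J, w (i, τ) j * bi (ZMod p) (!prev j y) =
              ∑ j ∈ J, w (i, τ) j * bi (ZMod p) (!C.val j y) :=
            Finset.sum_congr rfl fun j hj => by rw [hprev j (hJ j hj).1]
          rw [this]
        show zeroS J (fun τ => w (i, τ)) (fun j y => !prev j y) y = C.val i y
        rw [e, h y]
        by_cases hall : ∀ j ∈ J, C.val j y = true
        · rw [decide_eq_true hall, decide_eq_true]
          intro τ
          refine Finset.sum_eq_zero fun j hj => ?_
          rw [hall j hj]; simp [bi]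
        · rw [decide_eq_false hall, decide_eq_false]
          intro hz
          apply hbad
          push Not at hall
          obtain ⟨j, hj, hv⟩ := hall
          refine ⟨⟨j, hj, ?_⟩, hz⟩
          simpa using hv
      · intro y hi'; exact absurd hi hi'
      · intro y
        exact hcount fun j => !C.val j y
    · refine ⟨fun w prev y => !zeroS J (fun τ => w (i, τ)) prev y,
        fun y w => (∃ j ∈ J, C.val j y = true) ∧
          ∀ τ : Fin t, ∑ j ∈ J, w (i, τ) j * bi (ZMod p) (C.val j y) = 0, ?_, ?_, ?_, ?_⟩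
      · intro w prev hprev
        exact LB_not (hdeg w _ (hprev' prev hprev))
      · intro w prev y hprev hbad
        have e : zeroS J (fun τ => w (i, τ)) prev y =
            decide (∀ τ : Fin t, ∑ j ∈ J, w (i, τ) j * bi (ZMod p) (C.val j y) = 0) := by
          unfold zeroS
          congr 1
          rw [eq_iff_iff]
          refine forall_congr' fun τ => ?_
          have : ∑ j ∈ J, w (i, τ) j * bi (ZMod p) (prev j y) =
              ∑ j ∈ J, w (i, τ) j * bi (ZMod p) (C.val j y) :=
            Finset.sum_congr rfl fun j hj => by rw [hprev j (hJ j hj).1]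
          rw [this]
        show (!zeroS J (fun τ => w (i, τ)) prev y) = C.val i y
        rw [e, h y]
        by_cases hex : ∃ j ∈ J, C.val j y = true
        · have hz : ¬ ∀ τ : Fin t, ∑ j ∈ J, w (i, τ) j * bi (ZMod p) (C.val j y) = 0 :=
            fun hz => hbad ⟨hex, hz⟩
          rw [decide_eq_true hex, decide_eq_false hz]
          rfl
        · have hz : ∀ τ : Fin t, ∑ j ∈ J, w (i, τ) j * bi (ZMod p) (C.val j y) = 0 := by
            intro τ
            refine Finset.sum_eq_zero fun j hj => ?_
            have : C.val j y = false := by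
              by_contra hv
              exact hex ⟨j, hj, by simpa using hv⟩
            rw [this]; simp [bi]
          rw [decide_eq_false hex, decide_eq_true hz]
          rfl
      · intro y hi'; exact absurd hi hi'
      · intro y
        exact hcount fun j => C.val j y

/-- Joint probabilistic polynomials for all the nodes of a circuit. -/
theorem approx {k : ℕ} (C : Circuit p n k) (t : ℕ) (ht : 1 ≤ t) :
    ∃ P : Om p C.N t → Fin C.N → V n → Bool,
      (∀ w i, LB (ZMod p) (k * ((p - 1) * t) ^ C.depth i) (P w i)) ∧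
      ∀ y, Nat.card {w // ∃ i, P w i y ≠ C.val i y} * 2 ^ t ≤
        C.andOr.card * Fintype.card (Om p C.N t) := by
  classical
  choose St Bad h1 h2 h3 h4 using step C t ht
  have hP : ∀ w : Om p C.N t, ∃ P : Fin C.N → V n → Bool, ∀ i, P i =
      St i w (fun j => if j < i then P j else fun _ => false) := fun w =>
    exists_rec (fun i prev => St i w prev) _
  choose P hP using hP
  have hdeg : ∀ w i, LB (ZMod p) (k * ((p - 1) * t) ^ C.depth i) (P w i) := by
    intro w i
    induction i using WellFoundedLT.induction with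
    | ind i ih =>
      rw [hP w i]
      refine h1 i w _ fun j hj => ?_
      rw [if_pos hj]
      exact ih j hj
  refine ⟨P, hdeg, fun y => ?_⟩
  have hcorr : ∀ w, (∀ i ∈ C.andOr, ¬ Bad i y w) → ∀ i, P w i y = C.val i y := by
    intro w hw i
    induction i using WellFoundedLT.induction with
    | ind i ih =>
      rw [hP w i]
      refine h2 i w _ y (fun j hj => ?_) ?_
      · rw [if_pos hj]
        exact ih j hj
      · by_cases hi : i ∈ C.andOr
        · exact hw i hi
        · exact h3 i y hi w
  have hsub : (univ.filter fun w => ∃ i, P w i y ≠ C.val i y) ⊆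
      C.andOr.biUnion fun i => univ.filter fun w => Bad i y w := by
    intro w hw
    rw [Finset.mem_filter] at hw
    by_contra hcon
    rw [Finset.mem_biUnion] at hcon
    push Not at hcon
    obtain ⟨i, hi⟩ := hw.2
    refine hi (hcorr w (fun i hi hb => ?_) i)
    exact hcon i hi (by rw [Finset.mem_filter]; exact ⟨Finset.mem_univ _, hb⟩)
  have hcard : Nat.card {w // ∃ i, P w i y ≠ C.val i y} =
      (univ.filter fun w => ∃ i, P w i y ≠ C.val i y).card := by
    rw [Nat.card_eq_fintype_card, Fintype.card_subtype]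
  rw [hcard]
  calc _ ≤ (∑ i ∈ C.andOr, (univ.filter fun w => Bad i y w).card) * 2 ^ t :=
        Nat.mul_le_mul_right _ ((Finset.card_le_card hsub).trans Finset.card_biUnion_le)
    _ = ∑ i ∈ C.andOr, (univ.filter fun w => Bad i y w).card * 2 ^ t := by
        rw [Finset.sum_mul]
    _ ≤ ∑ _i ∈ C.andOr, Fintype.card (Om p C.N t) := by
        refine Finset.sum_le_sum fun i _ => ?_
        have := h4 i y
        rw [Nat.card_eq_fintype_card, Fintype.card_subtype] at this
        exact this
    _ = _ := by rw [Finset.sum_const, smul_eq_mul]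

end Gates

end Pool.Agent.W856.Corner
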