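import Mathlib
import Pool.Agent.W856.CornerDefs
import Pool.Agent.W856.Corner4
import Pool.Agent.W856.Corner7

/-!
Amplification by majority, and the bound for corner-free sets with lines computed by circuits.
-/

namespace Pool.Agent.W856.Corner

open Finset

section

variable {n : ℕ} {K : Type} [Field K]

lemma bi_ne_zero {b : Bool} : bi K b ≠ 0 ↔ b = true := by
  cases b <;> simp [bi]

lemma LB_comp {l D : ℕ} (G : (Fin l → Bool) → Bool) (Q : Fin l → V n → Bool)
    (hQ : ∀ j, LB K D (Q j)) : LB K (l * D) (fun y => G (fun j => Q j y)) := by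
  classical
  unfold LB
  have h1 : (fun y => bi K (G fun j => Q j y)) =
      ∑ c : Fin l → Bool, bi K (G c) •
        ∏ j : Fin l, fun y => bi K (if c j = true then Q j y else !Q j y) := by
    funext y
    rw [Finset.sum_apply, Finset.sum_eq_single (fun j => Q j y)]
    · rw [Pi.smul_apply, smul_eq_mul, Finset.prod_apply, Finset.prod_eq_one, mul_one]
      intro j _
      cases h0 : Q j y <;> simp [bi, h0]
    · intro c _ hc
      rw [Pi.smul_apply, smul_eq_mul, Finset.prod_apply]
      obtain ⟨j, hj⟩ := Function.ne_iff.1 hc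
      rw [Finset.prod_eq_zero (Finset.mem_univ j), mul_zero]
      cases h1 : c j <;> cases h2 : Q j y <;> simp_all [bi]
    · intro h; exact absurd (Finset.mem_univ _) h
  rw [h1]
  refine Submodule.sum_mem _ fun c _ => Submodule.smul_mem _ _ ?_
  have h2 := LK_prod (K := K) (n := n) (Finset.univ : Finset (Fin l)) (fun _ => D)
    (fun j y => bi K (if c j = true then Q j y else !Q j y)) (fun j _ => by
      cases hc : c j
      · have := LB_not (hQ j)
        unfold LB at this
        simpa using this
      · have := hQ j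
        unfold LB at this
        simpa using this)
  simpa using h2

/-- At most a `4^{-m}` fraction of the `2m`-tuples has `m` members in a set of density `1/16`. -/
lemma tuples {W : Type} [Fintype W] [DecidableEq W] (B : Finset W)
    (hB : 16 * B.card ≤ Fintype.card W) (m : ℕ) :
    (univ.filter fun w : Fin (2 * m) → W =>
      m ≤ (univ.filter fun j => w j ∈ B).card).card * 4 ^ m ≤ Fintype.card (Fin (2 * m) → W) := by
  classical
  have hsub : (univ.filter fun w : Fin (2 * m) → W => m ≤ (univ.filter fun j => w j ∈ B).card) ⊆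
      (powersetCard m (univ : Finset (Fin (2 * m)))).biUnion fun J =>
        Fintype.piFinset fun j => if j ∈ J then B else univ := by
    intro w hw
    rw [Finset.mem_filter] at hw
    obtain ⟨J, hJ1, hJ2⟩ := Finset.exists_subset_card_eq hw.2
    rw [Finset.mem_biUnion]
    refine ⟨J, ?_, ?_⟩
    · rw [Finset.mem_powersetCard]
      exact ⟨Finset.subset_univ _, hJ2⟩
    · rw [Fintype.mem_piFinset]
      intro j
      split_ifs with hj
      · have := hJ1 hj
        rw [Finset.mem_filter] at this
        exact this.2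
      · exact Finset.mem_univ _
  have hcard : ∀ J ∈ powersetCard m (univ : Finset (Fin (2 * m))),
      (Fintype.piFinset fun j => if j ∈ J then B else (univ : Finset W)).card =
        B.card ^ m * Fintype.card W ^ m := by
    intro J hJ
    rw [Finset.mem_powersetCard] at hJ
    rw [Fintype.card_piFinset]
    have h1 : ∀ j : Fin (2 * m), (if j ∈ J then B else (univ : Finset W)).card =
        if j ∈ J then B.card else Fintype.card W := by
      intro j
      split_ifs
      · rfl
      · exact Finset.card_univ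
    rw [Finset.prod_congr rfl fun j _ => h1 j, Finset.prod_ite, Finset.prod_const,
      Finset.prod_const]
    have e1 : (univ.filter fun j : Fin (2 * m) => j ∈ J).card = m := by
      have e0 : (univ.filter fun j : Fin (2 * m) => j ∈ J) = J := by
        ext j; simp
      rw [e0, hJ.2]
    have e2 := Finset.card_filter_add_card_filter_not (s := (univ : Finset (Fin (2 * m))))
      (fun j => j ∈ J)
    rw [Finset.card_univ, Fintype.card_fin, e1] at e2
    have e3 : (univ.filter fun j : Fin (2 * m) => ¬ j ∈ J).card = m := by omega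
    rw [e1, e3]
  have h1 : (univ.filter fun w : Fin (2 * m) → W => m ≤ (univ.filter fun j => w j ∈ B).card).card ≤
      4 ^ m * (B.card ^ m * Fintype.card W ^ m) := by
    refine (Finset.card_le_card hsub).trans (Finset.card_biUnion_le.trans ?_)
    rw [Finset.sum_congr rfl hcard, Finset.sum_const, smul_eq_mul, Finset.card_powersetCard,
      Finset.card_univ, Fintype.card_fin]
    refine Nat.mul_le_mul_right _ ?_
    have := Nat.choose_le_two_pow (2 * m) m
    rwa [pow_mul] at this
  rw [Fintype.card_fun, Fintype.card_fin]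
  calc _ ≤ 4 ^ m * (B.card ^ m * Fintype.card W ^ m) * 4 ^ m := Nat.mul_le_mul_right _ h1
    _ = (16 * B.card) ^ m * Fintype.card W ^ m := by
        rw [show (16 : ℕ) = 4 * 4 by norm_num, mul_pow, mul_pow]; ring
    _ ≤ Fintype.card W ^ m * Fintype.card W ^ m :=
        Nat.mul_le_mul_right _ (Nat.pow_le_pow_left hB m)
    _ = Fintype.card W ^ (2 * m) := by rw [← pow_add]; congr 1; ring

end

section

variable {p k s d n : ℕ} [Fact p.Prime]

lemma amplify {S : Set (V n)} (h : Computed p k s d S) (m : ℕ) :
    ∃ f g : V n → Bool, (∀ y, y ∈ S ↔ f y = true) ∧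
      LB (ZMod p) (2 * m * (k * ((p - 1) * (Nat.clog 2 s + 4)) ^ d)) g ∧
      (univ.filter fun y => g y ≠ f y).card * 4 ^ m ≤ 2 ^ n := by
  classical
  obtain ⟨C, hs, hd, i, hi⟩ := h
  set t := Nat.clog 2 s + 4 with ht
  have hp := (Fact.out : p.Prime).two_le
  obtain ⟨P, hP, hbad⟩ := approx C t (by omega)
  have hQ1 : 1 ≤ (p - 1) * t := Nat.one_le_iff_ne_zero.2 (by
    have : p - 1 ≠ 0 := by omega
    exact Nat.mul_ne_zero this (by omega))
  have hQ : ∀ w, LB (ZMod p) (k * ((p - 1) * t) ^ d) (P w i) := fun w =>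
    LB_mono (Nat.mul_le_mul_left _ (Nat.pow_le_pow_right hQ1 (hd i))) (hP w i)
  let B : V n → Finset (Om p C.N t) := fun y => univ.filter fun w => P w i y ≠ C.val i y
  have hmemB : ∀ y w, w ∈ B y ↔ P w i y ≠ C.val i y := fun y w => by
    show w ∈ (univ.filter fun w => P w i y ≠ C.val i y) ↔ _
    simp
  have hB : ∀ y, 16 * (B y).card ≤ Fintype.card (Om p C.N t) := by
    intro y
    have h1 : (B y).card ≤ Nat.card {w // ∃ i, P w i y ≠ C.val i y} := by
      rw [Nat.card_eq_fintype_card, Fintype.card_subtype]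
      refine Finset.card_le_card fun w hw => ?_
      rw [Finset.mem_filter]
      exact ⟨Finset.mem_univ _, i, (hmemB y w).1 hw⟩
    have h2 : (B y).card * 2 ^ t ≤ s * Fintype.card (Om p C.N t) :=
      (Nat.mul_le_mul_right _ h1).trans ((hbad y).trans (Nat.mul_le_mul_right _ hs))
    rcases Nat.eq_zero_or_pos s with h0 | h0
    · rw [h0, zero_mul] at h2
      have : (B y).card = 0 := by
        rcases Nat.mul_eq_zero.1 (Nat.le_zero.1 h2) with h | h
        · exact h
        · exact absurd h (pow_ne_zero _ (by norm_num))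
      rw [this]
      simp
    · have h3 : s ≤ 2 ^ Nat.clog 2 s := Nat.le_pow_clog (by norm_num) s
      have h4 : s * (16 * (B y).card) ≤ s * Fintype.card (Om p C.N t) := by
        have h5 : s * 2 ^ 4 ≤ 2 ^ t := by
          have : (2 : ℕ) ^ t = 2 ^ Nat.clog 2 s * 2 ^ 4 := by rw [ht]; exact pow_add _ _ _
          rw [this]
          exact Nat.mul_le_mul_right _ h3
        refine le_trans ?_ h2
        calc s * (16 * (B y).card) = (B y).card * (s * 2 ^ 4) := by ring
          _ ≤ _ := Nat.mul_le_mul_left _ h5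
      exact Nat.le_of_mul_le_mul_left h4 h0
  let G : (Fin (2 * m) → Bool) → Bool := fun c =>
    decide (m < (univ.filter fun j => c j = true).card)
  let g : (Fin (2 * m) → Om p C.N t) → V n → Bool := fun w y => G fun j => P (w j) i y
  have hg : ∀ w, LB (ZMod p) (2 * m * (k * ((p - 1) * t) ^ d)) (g w) := fun w =>
    LB_comp G (fun j => P (w j) i) fun j => hQ (w j)
  have hwrong : ∀ y w, g w y ≠ C.val i y → m ≤ (univ.filter fun j => w j ∈ B y).card := by
    intro y w hne
    have hsum := Finset.card_filter_add_card_filter_not (s := (univ : Finset (Fin (2 * m))))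
      (fun j => P (w j) i y = true)
    rw [Finset.card_univ, Fintype.card_fin] at hsum
    cases hv : C.val i y
    · rw [hv] at hne
      have h1 : g w y = true := by simpa using hne
      have h2 : m < (univ.filter fun j => P (w j) i y = true).card := by
        simpa [g, G] using h1
      have h3 : (univ.filter fun j => P (w j) i y = true) = univ.filter fun j => w j ∈ B y :=
        Finset.filter_congr fun j _ => by rw [hmemB, hv]; simp
      rw [← h3]
      exact h2.le
    · rw [hv] at hne
      have h1 : g w y = false := by simpa using hne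
      have h2 : (univ.filter fun j => P (w j) i y = true).card ≤ m := by
        simpa [g, G] using h1
      have h3 : (univ.filter fun j => ¬ P (w j) i y = true) = univ.filter fun j => w j ∈ B y :=
        Finset.filter_congr fun j _ => by rw [hmemB, hv]
      rw [← h3]
      omega
  have hsum : ∑ w : Fin (2 * m) → Om p C.N t,
      (univ.filter fun y => g w y ≠ C.val i y).card * 4 ^ m ≤
        ∑ _w : Fin (2 * m) → Om p C.N t, 2 ^ n := by
    have e1 : ∑ w : Fin (2 * m) → Om p C.N t,
        (univ.filter fun y => g w y ≠ C.val i y).card * 4 ^ m =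
        ∑ y : V n, (univ.filter fun w => g w y ≠ C.val i y).card * 4 ^ m := by
      rw [← Finset.sum_mul, ← Finset.sum_mul]
      congr 1
      simp only [Finset.card_filter]
      exact Finset.sum_comm
    rw [e1, Finset.sum_const, Finset.card_univ, smul_eq_mul]
    calc _ ≤ ∑ _y : V n, Fintype.card (Fin (2 * m) → Om p C.N t) := by
          refine Finset.sum_le_sum fun y _ => le_trans (Nat.mul_le_mul_right _ ?_)
            (tuples (B y) (hB y) m)
          refine Finset.card_le_card fun w hw => ?_
          rw [Finset.mem_filter] at hw ⊢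
          exact ⟨Finset.mem_univ _, hwrong y w hw.2⟩
      _ = _ := by
          rw [Finset.sum_const, Finset.card_univ, smul_eq_mul, mul_comm]
          congr 1
          simp
  obtain ⟨w, _, hw⟩ := Finset.exists_le_of_sum_le Finset.univ_nonempty hsum
  exact ⟨C.val i, g w, hi, hg w, hw⟩

lemma piece {S : Set (V n)} (h : Computed p k s d S) (m D : ℕ) :
    ∃ g ∈ LK (ZMod p) n (2 * m * (k * ((p - 1) * (Nat.clog 2 s + 4)) ^ d) + D),
      (∀ y, g y ≠ 0 → y ∈ S) ∧ ∃ z : ℕ,
        z * (∑ i ∈ range (D + 1), n.choose i) * 4 ^ m ≤ 2 ^ n * 2 ^ n ∧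
        S.ncard ≤ z + 2 * (univ.filter fun y => g y ≠ 0).card := by
  classical
  obtain ⟨f, g, hf, hg, hE⟩ := amplify h m
  set E := univ.filter fun y => g y ≠ f y with hEdef
  set W : Finset (V n) := univ.filter fun y => f y = true with hW
  obtain ⟨h', hh', hvan, z, hz1, hz2⟩ := exists_vanish (K := ZMod p) D E W
  have hkey : ∀ y, ((fun y => bi (ZMod p) (g y)) * h') y ≠ 0 ↔ y ∈ W ∧ h' y ≠ 0 := by
    intro y
    rw [Pi.mul_apply, mul_ne_zero_iff, bi_ne_zero, hW, Finset.mem_filter]
    constructor
    · rintro ⟨h1, h2⟩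
      refine ⟨⟨Finset.mem_univ _, ?_⟩, h2⟩
      have h3 : y ∉ E := fun hy => h2 (hvan y hy)
      rw [hEdef, Finset.mem_filter] at h3
      push Not at h3
      rw [← h3 (Finset.mem_univ _)]
      exact h1
    · rintro ⟨h1, h2⟩
      refine ⟨?_, h2⟩
      have h3 : y ∉ E := fun hy => h2 (hvan y hy)
      rw [hEdef, Finset.mem_filter] at h3
      push Not at h3
      rw [h3 (Finset.mem_univ _)]
      exact h1.2
  refine ⟨(fun y => bi (ZMod p) (g y)) * h', LK_mul hg hh', ?_, z, ?_, ?_⟩
  · intro y hy
    have := ((hkey y).1 hy).1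
    rw [hW, Finset.mem_filter] at this
    exact (hf y).2 this.2
  · calc z * (∑ i ∈ range (D + 1), n.choose i) * 4 ^ m ≤ 2 ^ n * E.card * 4 ^ m :=
        Nat.mul_le_mul_right _ hz1
      _ = 2 ^ n * (E.card * 4 ^ m) := by ring
      _ ≤ 2 ^ n * 2 ^ n := Nat.mul_le_mul_left _ hE
  · have e1 : S.ncard = W.card := by
      rw [← Set.ncard_coe_finset]
      congr 1
      ext y
      rw [Finset.mem_coe, hW, Finset.mem_filter, hf y]
      simp
    have e2 : (univ.filter fun y => ((fun y => bi (ZMod p) (g y)) * h') y ≠ 0) =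
        W.filter fun y => h' y ≠ 0 := by
      ext y
      rw [Finset.mem_filter, Finset.mem_filter, hkey y]
      simp
    rw [e1, e2]
    exact hz2

/-- The inequality behind the bound. -/
theorem circuit_ineq (A : Finset (V n × V n)) (hA : CornerFree A) (L : V n → Set (V n))
    (hL : IsLines A L) (T : ℕ)
    (h : ∀ x, ∃ F : Fin T → Set (V n), (∀ i, Computed p k s d (F i)) ∧ L x = ⋃ i, F i)
    (m D : ℕ) :
    (A.card : ℝ) ≤ T * (2 * 2 ^ n * (∑ i ∈ range (2 * m *
      (k * ((p - 1) * (Nat.clog 2 s + 4)) ^ d) + D + 1), (n.choose i : ℝ)) +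
      2 ^ n * (4 ^ n / (4 ^ m * ∑ i ∈ range (D + 1), (n.choose i : ℝ)))) := by
  classical
  obtain ⟨A', hA', hc, hL'⟩ := lines_reduce A hA L hL
  choose F hF hLF using h
  set M := k * ((p - 1) * (Nat.clog 2 s + 4)) ^ d with hM
  have hpc := fun x i => piece (hF x i) m D
  rw [← hM] at hpc
  choose g hg1 hg2 z hz1 hz2 using hpc
  set SD : ℕ := ∑ i ∈ range (D + 1), n.choose i with hSD
  have hSDpos : 0 < SD := by
    rw [hSD]
    refine Finset.sum_pos' (fun _ _ => Nat.zero_le _) ⟨0, by simp, by simp⟩
  -- the columns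
  have hrank : ∀ i : Fin T, ∑ x, (univ.filter fun y => g x i y ≠ 0).card ≤
      2 ^ n * ∑ j ∈ range (2 * m * M + D + 1), n.choose j := by
    intro i
    have h1 := core_rank A' hA' (LK (ZMod p) n (2 * m * M + D)) (fun x => g x i)
      (fun x => hg1 x i) (fun x y hxy => by
        rw [← hL', hLF]
        exact Set.mem_iUnion.2 ⟨i, hg2 x i y hxy⟩)
    have h2 : Fintype.card (V n) = 2 ^ n := by simp
    rw [h2] at h1
    exact h1.trans (Nat.mul_le_mul_left _ (finrank_LK n _))
  have hzr : ∀ x i, (z x i : ℝ) ≤ 4 ^ n / (4 ^ m * SD) := by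
    intro x i
    have hpos : (0 : ℝ) < 4 ^ m * SD := by
      have : (0 : ℝ) < SD := by exact_mod_cast hSDpos
      positivity
    rw [le_div_iff₀ hpos]
    have h1 : ((z x i * SD * 4 ^ m : ℕ) : ℝ) ≤ ((2 ^ n * 2 ^ n : ℕ) : ℝ) := by
      exact_mod_cast hz1 x i
    push_cast at h1
    have h2 : (4 : ℝ) ^ n = 2 ^ n * 2 ^ n := by
      rw [← mul_pow]; norm_num
    rw [h2]
    linarith
  have hrow : ∀ x, ((univ.filter fun y => (x, y) ∈ A').card : ℝ) ≤
      ∑ i : Fin T, (4 ^ n / (4 ^ m * SD) + 2 * ((univ.filter fun y => g x i y ≠ 0).card : ℝ)) := by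
    intro x
    have e1 : (univ.filter fun y => (x, y) ∈ A').card = (⋃ i, F x i).ncard := by
      rw [← Set.ncard_coe_finset, ← hLF]
      congr 1
      ext y
      simp [hL']
    have e2 : (⋃ i, F x i).ncard ≤ ∑ i : Fin T, (F x i).ncard := by
      have := Finset.set_ncard_biUnion_le (univ : Finset (Fin T)) (fun i => F x i)
      simpa using this
    rw [e1]
    calc (((⋃ i, F x i).ncard : ℕ) : ℝ) ≤ ((∑ i : Fin T, (F x i).ncard : ℕ) : ℝ) :=
          Nat.cast_le.2 e2
      _ = ∑ i : Fin T, ((F x i).ncard : ℝ) := by push_cast; rfl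
      _ ≤ _ := by
          refine Finset.sum_le_sum fun i _ => ?_
          have h1 : ((F x i).ncard : ℝ) ≤
              z x i + 2 * ((univ.filter fun y => g x i y ≠ 0).card : ℝ) := by
            exact_mod_cast hz2 x i
          have := hzr x i
          linarith
  have hcardA : (A'.card : ℝ) = ∑ x, ((univ.filter fun y => (x, y) ∈ A').card : ℝ) := by
    have h1 : A'.card = ∑ x : V n, (univ.filter fun y => (x, y) ∈ A').card := by
      rw [Finset.card_eq_sum_card_fiberwise (f := Prod.fst) (t := univ)
        (fun _ _ => Finset.mem_coe.2 (Finset.mem_univ _))]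
      refine Finset.sum_congr rfl fun x _ => ?_
      refine Finset.card_bij' (fun q _ => q.2) (fun y _ => (x, y)) ?_ ?_ ?_ ?_
      · rintro ⟨a, b⟩ hq
        rw [Finset.mem_filter] at hq ⊢
        obtain ⟨h1, h2⟩ := hq
        simp only at h2
        subst h2
        exact ⟨Finset.mem_univ _, h1⟩
      · intro y hy
        rw [Finset.mem_filter] at hy ⊢
        exact ⟨hy.2, rfl⟩
      · rintro ⟨a, b⟩ hq
        rw [Finset.mem_filter] at hq
        have h2 := hq.2
        simp only at h2
        rw [h2]
      · intro y _; rfl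
    rw [h1]; push_cast; rfl
  rw [← hc, hcardA]
  calc _ ≤ ∑ x : V n, ∑ i : Fin T,
        (4 ^ n / (4 ^ m * SD) + 2 * ((univ.filter fun y => g x i y ≠ 0).card : ℝ)) :=
        Finset.sum_le_sum fun x _ => hrow x
    _ = ∑ i : Fin T, ∑ x : V n,
        (4 ^ n / (4 ^ m * SD) + 2 * ((univ.filter fun y => g x i y ≠ 0).card : ℝ)) :=
        Finset.sum_comm
    _ ≤ ∑ _i : Fin T, (2 ^ n * (4 ^ n / (4 ^ m * SD)) +
        2 * (2 ^ n * ∑ j ∈ range (2 * m * M + D + 1), (n.choose j : ℝ))) := by
        refine Finset.sum_le_sum fun i _ => ?_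
        rw [Finset.sum_add_distrib, Finset.sum_const, Finset.card_univ, ← Finset.mul_sum,
          nsmul_eq_mul]
        have h1 : ((∑ x, (univ.filter fun y => g x i y ≠ 0).card : ℕ) : ℝ) ≤
            ((2 ^ n * ∑ j ∈ range (2 * m * M + D + 1), n.choose j : ℕ) : ℝ) :=
          Nat.cast_le.2 (hrank i)
        push_cast at h1
        have h2 : ((Fintype.card (V n) : ℕ) : ℝ) = 2 ^ n := by simp
        rw [h2]
        linarith
    _ = _ := by
        rw [Finset.sum_const, Finset.card_univ, Fintype.card_fin, nsmul_eq_mul, hSD]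
        push_cast
        ring

end

end Pool.Agent.W856.Corner
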