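import Mathlib
import Pool.Agent.W856.Corner2
import Pool.Agent.W856.Corner8

/-!
Choice of the parameters.
-/

namespace Pool.Agent.W856.Corner

open Finset

lemma exp_two_le {x : ℝ} (h0 : 0 ≤ x) (h1 : x ≤ 1 / 2) : Real.exp (-(2 * x)) ≤ 1 - x := by
  have h2 : 1 + 2 * x ≤ Real.exp (2 * x) := by
    have := Real.add_one_le_exp (2 * x)
    linarith
  rw [Real.exp_neg, inv_le_comm₀ (Real.exp_pos _) (by linarith)]
  refine le_trans ?_ h2
  rw [inv_le_iff_one_le_mul₀ (by linarith)]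
  nlinarith

/-- A lower bound for binomial coefficients below the middle. -/
lemma choose_lower (n D : ℕ) (r : ℝ) (hr0 : 0 < r) (hr1 : r ≤ 1 / 80) (hrn : 1 ≤ r * n)
    (hD : D ≤ n / 2) (hD' : (n : ℝ) / 2 - r * n - 1 ≤ D) :
    (2 : ℝ) ^ n * Real.exp (-(24 * r ^ 2 * n)) ≤ (n + 1) * (n.choose D : ℝ) := by
  have hstep : ∀ j : ℕ, j ≤ n / 2 - D →
      (n.choose (n / 2) : ℝ) * (1 - 6 * r) ^ j ≤ n.choose (n / 2 - j) := by
    intro j
    induction j with
    | zero => intro _; simp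
    | succ j ih =>
      intro hj
      have h1 := ih (by omega)
      set k := n / 2 - (j + 1) with hk
      have hk1 : n / 2 - j = k + 1 := by omega
      have hkn : k ≤ n := by omega
      rw [hk1] at h1
      have h2 : (n.choose (k + 1) : ℝ) * (k + 1) = n.choose k * (n - k) := by
        have := Nat.choose_succ_right_eq n k
        have h3 : ((n.choose (k + 1) * (k + 1) : ℕ) : ℝ) = ((n.choose k * (n - k) : ℕ) : ℝ) := by
          rw [this]
        push_cast [Nat.cast_sub hkn] at h3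
        exact h3
      have hDk : (D : ℝ) ≤ k := by
        have : D ≤ k := by omega
        exact_mod_cast this
      have hk2 : (k : ℝ) + 1 ≤ n / 2 := by
        have h4 : 2 * (k + 1) ≤ n := by omega
        have h5 : ((2 * (k + 1) : ℕ) : ℝ) ≤ n := by exact_mod_cast h4
        push_cast at h5
        linarith
      have hnk : (0 : ℝ) < n - k := by
        have hn0 : (0 : ℝ) ≤ n := Nat.cast_nonneg n
        linarith
      have h3 : (1 - 6 * r) * ((n : ℝ) - k) ≤ k + 1 := by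
        have h4 : (n : ℝ) - k ≤ n / 2 + r * n + 1 := by linarith
        have h5 : (1 - 6 * r) * ((n : ℝ) - k) ≤ (1 - 6 * r) * (n / 2 + r * n + 1) :=
          mul_le_mul_of_nonneg_left h4 (by linarith)
        have h6 : (1 - 6 * r) * ((n : ℝ) / 2 + r * n + 1) ≤ n / 2 - r * n := by
          have : 0 ≤ r * (r * n) := mul_nonneg hr0.le (by linarith)
          nlinarith
        linarith
      have h4 : (n.choose (k + 1) : ℝ) * (1 - 6 * r) ≤ n.choose k := by
        have h5 : (n.choose (k + 1) : ℝ) * (1 - 6 * r) * (n - k) ≤ n.choose k * (n - k) := by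
          rw [← h2, mul_assoc]
          exact mul_le_mul_of_nonneg_left h3 (Nat.cast_nonneg _)
        exact le_of_mul_le_mul_right h5 hnk
      calc (n.choose (n / 2) : ℝ) * (1 - 6 * r) ^ (j + 1)
          = (n.choose (n / 2) : ℝ) * (1 - 6 * r) ^ j * (1 - 6 * r) := by rw [pow_succ]; ring
        _ ≤ n.choose (k + 1) * (1 - 6 * r) := mul_le_mul_of_nonneg_right h1 (by linarith)
        _ ≤ n.choose k := h4
  have h1 := hstep (n / 2 - D) le_rfl
  have h2 : n / 2 - (n / 2 - D) = D := by omega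
  rw [h2] at h1
  have hmid : (2 : ℝ) ^ n ≤ (n + 1) * n.choose (n / 2) := by
    have h3 : 2 ^ n ≤ (n + 1) * n.choose (n / 2) := by
      rw [← Nat.sum_range_choose]
      calc _ ≤ ∑ _i ∈ range (n + 1), n.choose (n / 2) :=
            Finset.sum_le_sum fun i _ => Nat.choose_le_middle i n
        _ = _ := by simp
    exact_mod_cast h3
  have hexp : Real.exp (-(24 * r ^ 2 * n)) ≤ (1 - 6 * r) ^ (n / 2 - D) := by
    have h3 : Real.exp (-(2 * (6 * r))) ≤ 1 - 6 * r := exp_two_le (by linarith) (by linarith)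
    have h4 : Real.exp (-(2 * (6 * r))) ^ (n / 2 - D) ≤ (1 - 6 * r) ^ (n / 2 - D) :=
      pow_le_pow_left₀ (Real.exp_pos _).le h3 _
    refine le_trans ?_ h4
    rw [← Real.exp_nat_mul, Real.exp_le_exp]
    have h5 : ((n / 2 - D : ℕ) : ℝ) ≤ 2 * (r * n) := by
      rw [Nat.cast_sub hD]
      have : ((n / 2 : ℕ) : ℝ) ≤ n / 2 := by
        have := Nat.cast_div_le (α := ℝ) (m := n) (n := 2)
        simpa using this
      linarith
    nlinarith
  calc (2 : ℝ) ^ n * Real.exp (-(24 * r ^ 2 * n)) ≤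
      ((n + 1) * n.choose (n / 2)) * (1 - 6 * r) ^ (n / 2 - D) :=
        mul_le_mul hmid hexp (Real.exp_pos _).le (by positivity)
    _ = (n + 1) * (n.choose (n / 2) * (1 - 6 * r) ^ (n / 2 - D)) := by ring
    _ ≤ _ := mul_le_mul_of_nonneg_left h1 (by positivity)

theorem numerics (n M : ℕ) (hM : 1 ≤ M) (T a : ℝ) (hT : 0 ≤ T) (ha0 : a ≤ T * 4 ^ n)
    (ha : ∀ m D : ℕ, a ≤ T * (2 * 2 ^ n * (∑ i ∈ range (2 * m * M + D + 1), (n.choose i : ℝ)) +
      2 ^ n * (4 ^ n / (4 ^ m * ∑ i ∈ range (D + 1), (n.choose i : ℝ))))) :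
    a ≤ 40000 * T * (M : ℝ) ^ 2 * 4 ^ n * Real.exp (-(n : ℝ) / (12800 * (M : ℝ) ^ 2)) := by
  have hMr : (1 : ℝ) ≤ M := by exact_mod_cast hM
  have hn0 : (0 : ℝ) ≤ n := Nat.cast_nonneg n
  have h4n : (0 : ℝ) < 4 ^ n := by positivity
  have hM2 : (1 : ℝ) ≤ (M : ℝ) ^ 2 := one_le_pow₀ hMr
  set r : ℝ := 1 / (80 * M) with hr
  have hr0 : 0 < r := by positivity
  have hr1 : r ≤ 1 / 80 := by
    rw [hr]
    exact one_div_le_one_div_of_le (by norm_num) (by linarith)
  have hrM : r * (80 * M) = 1 := by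
    rw [hr]; field_simp
  have hexp : -(n : ℝ) / (12800 * (M : ℝ) ^ 2) = -(r ^ 2 * n / 2) := by
    rw [hr]; field_simp; norm_num; ring
  rw [hexp]
  by_cases hcase : r * n < 1
  · have h1 : r ^ 2 * n / 2 ≤ 1 / 2 := by nlinarith
    have h2 : 1 / 2 ≤ Real.exp (-(r ^ 2 * n / 2)) := by
      have := Real.add_one_le_exp (-(r ^ 2 * n / 2))
      linarith
    calc a ≤ T * 4 ^ n * 1 := by linarith
      _ ≤ T * 4 ^ n * (40000 * (M : ℝ) ^ 2 * Real.exp (-(r ^ 2 * n / 2))) := by
          refine mul_le_mul_of_nonneg_left ?_ (by positivity)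
          nlinarith
      _ = _ := by ring
  push Not at hcase
  set D := ⌊(n : ℝ) / 2 - r * n⌋₊ with hD
  set m := ⌊r * n / (4 * M)⌋₊ with hm
  have hrn : r * n ≤ 1 / 80 * n := mul_le_mul_of_nonneg_right hr1 hn0
  have hD1 : (D : ℝ) ≤ n / 2 - r * n := Nat.floor_le (by linarith)
  have hD2 : (n : ℝ) / 2 - r * n - 1 ≤ D := by
    have := Nat.lt_floor_add_one ((n : ℝ) / 2 - r * n)
    linarith
  have hm1 : (m : ℝ) ≤ r * n / (4 * M) := Nat.floor_le (by positivity)
  have hm2 : r * n / (4 * M) ≤ m + 1 := (Nat.lt_floor_add_one (r * n / (4 * M))).le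
  have hDn : D ≤ n / 2 := by
    rw [Nat.le_div_iff_mul_le (by norm_num)]
    have : ((D * 2 : ℕ) : ℝ) ≤ n := by
      push_cast
      have : 0 ≤ r * n := by positivity
      linarith
    exact_mod_cast this
  have hS1 := binom_half n (2 * m * M + D) (r / 2) (by linarith) (by
    push_cast
    have h1 : (m : ℝ) * (4 * M) ≤ r * n := by
      rwa [le_div_iff₀ (by linarith)] at hm1
    nlinarith)
  have hS1' : ∑ i ∈ range (2 * m * M + D + 1), (n.choose i : ℝ) ≤
      2 ^ n * Real.exp (-(r ^ 2 * n / 2)) := by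
    refine hS1.trans (le_of_eq ?_)
    congr 2
    ring
  have hlow := choose_lower n D r hr0 hr1 hcase hDn hD2
  have hSD : (n.choose D : ℝ) ≤ ∑ i ∈ range (D + 1), (n.choose i : ℝ) := by
    refine Finset.single_le_sum (f := fun i => (n.choose i : ℝ)) (fun i _ => Nat.cast_nonneg _) ?_
    simp
  have h4m : Real.exp (27 * r ^ 2 * n) ≤ 4 * 4 ^ m := by
    have h1 : (4 : ℝ) * 4 ^ m = Real.exp (Real.log 4 * (m + 1)) := by
      rw [← pow_succ', ← Real.exp_log (show (0 : ℝ) < 4 by norm_num), ← Real.exp_nat_mul,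
        Real.log_exp]
      congr 1
      push_cast
      ring
    rw [h1, Real.exp_le_exp]
    have h2 : (1.38 : ℝ) ≤ Real.log 4 := by
      have : Real.log 4 = 2 * Real.log 2 := by
        rw [show (4 : ℝ) = 2 ^ 2 by norm_num, Real.log_pow]; norm_num
      rw [this]
      have := Real.log_two_gt_d9
      linarith
    have h3 : r * n / (4 * M) = 20 * r ^ 2 * n := by
      rw [hr]; field_simp; ring
    rw [h3] at hm2
    have h5 : 0 ≤ r ^ 2 * n := by positivity
    have h6 : (1.38 : ℝ) * (m + 1) ≤ Real.log 4 * (m + 1) :=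
      mul_le_mul_of_nonneg_right h2 (by positivity)
    linarith
  have hSDpos : (0 : ℝ) < ∑ i ∈ range (D + 1), (n.choose i : ℝ) := by
    refine lt_of_lt_of_le ?_ hSD
    exact_mod_cast Nat.choose_pos (by omega)
  set SD := ∑ i ∈ range (D + 1), (n.choose i : ℝ) with hSDdef
  have hn1 : ((n : ℝ) + 1) * Real.exp (-(r ^ 2 * n)) ≤ 6400 * (M : ℝ) ^ 2 := by
    have h1 : r ^ 2 * n + 1 ≤ Real.exp (r ^ 2 * n) := Real.add_one_le_exp _
    have h2 : r ^ 2 * (6400 * (M : ℝ) ^ 2) = 1 := by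
      calc r ^ 2 * (6400 * (M : ℝ) ^ 2) = (r * (80 * M)) ^ 2 := by ring
        _ = 1 := by rw [hrM]; norm_num
    have h3 : r ^ 2 ≤ 1 := by nlinarith
    have h4 : (n : ℝ) + 1 ≤ 6400 * (M : ℝ) ^ 2 * Real.exp (r ^ 2 * n) := by
      have h5 : r ^ 2 * ((n : ℝ) + 1) ≤ r ^ 2 * (6400 * (M : ℝ) ^ 2 * Real.exp (r ^ 2 * n)) := by
        calc r ^ 2 * ((n : ℝ) + 1) = r ^ 2 * n + r ^ 2 := by ring
          _ ≤ Real.exp (r ^ 2 * n) := by linarith
          _ = (r ^ 2 * (6400 * (M : ℝ) ^ 2)) * Real.exp (r ^ 2 * n) := by rw [h2, one_mul]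
          _ = _ := by ring
      exact le_of_mul_le_mul_left h5 (by positivity)
    rw [Real.exp_neg, ← div_eq_mul_inv, div_le_iff₀ (Real.exp_pos _)]
    exact h4
  have hterm2 : (2 : ℝ) ^ n * (4 ^ n / (4 ^ m * SD)) ≤
      4 * (6400 * (M : ℝ) ^ 2) * 4 ^ n * Real.exp (-(r ^ 2 * n / 2)) := by
    have hpos : (0 : ℝ) < 4 ^ m * SD := by positivity
    have h1 : (2 : ℝ) ^ n ≤ 4 * (((n : ℝ) + 1) * Real.exp (-(3 * r ^ 2 * n))) * (4 ^ m * SD) := by
      have e1 : (2 : ℝ) ^ n * Real.exp (-(24 * r ^ 2 * n)) ≤ (n + 1) * SD :=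
        hlow.trans (mul_le_mul_of_nonneg_left hSD (by positivity))
      have e2 : (2 : ℝ) ^ n * Real.exp (-(24 * r ^ 2 * n)) * Real.exp (27 * r ^ 2 * n) ≤
          (n + 1) * SD * (4 * 4 ^ m) :=
        mul_le_mul e1 h4m (Real.exp_pos _).le (by positivity)
      have e3 : Real.exp (-(24 * r ^ 2 * n)) * Real.exp (27 * r ^ 2 * n) =
          Real.exp (3 * r ^ 2 * n) := by
        rw [← Real.exp_add]; congr 1; ring
      rw [mul_assoc, e3] at e2
      have e4 : Real.exp (3 * r ^ 2 * n) * Real.exp (-(3 * r ^ 2 * n)) = 1 := by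
        rw [← Real.exp_add, add_neg_cancel, Real.exp_zero]
      calc (2 : ℝ) ^ n = (2 : ℝ) ^ n * Real.exp (3 * r ^ 2 * n) * Real.exp (-(3 * r ^ 2 * n)) := by
            rw [mul_assoc, e4, mul_one]
        _ ≤ (n + 1) * SD * (4 * 4 ^ m) * Real.exp (-(3 * r ^ 2 * n)) :=
            mul_le_mul_of_nonneg_right e2 (Real.exp_pos _).le
        _ = _ := by ring
    have h2 : ((n : ℝ) + 1) * Real.exp (-(3 * r ^ 2 * n)) ≤
        6400 * (M : ℝ) ^ 2 * Real.exp (-(r ^ 2 * n / 2)) := by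
      have e1 : Real.exp (-(3 * r ^ 2 * n)) =
          Real.exp (-(r ^ 2 * n)) * Real.exp (-(2 * r ^ 2 * n)) := by
        rw [← Real.exp_add]; congr 1; ring
      have e2 : Real.exp (-(2 * r ^ 2 * n)) ≤ Real.exp (-(r ^ 2 * n / 2)) := by
        rw [Real.exp_le_exp]
        have : 0 ≤ r ^ 2 * n := by positivity
        linarith
      rw [e1, ← mul_assoc]
      exact mul_le_mul hn1 e2 (Real.exp_pos _).le (by positivity)
    calc (2 : ℝ) ^ n * (4 ^ n / (4 ^ m * SD))
        ≤ (4 * (((n : ℝ) + 1) * Real.exp (-(3 * r ^ 2 * n))) * (4 ^ m * SD)) *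
          (4 ^ n / (4 ^ m * SD)) := mul_le_mul_of_nonneg_right h1 (by positivity)
      _ = 4 * (((n : ℝ) + 1) * Real.exp (-(3 * r ^ 2 * n))) * 4 ^ n := by
          field_simp
      _ ≤ 4 * (6400 * (M : ℝ) ^ 2 * Real.exp (-(r ^ 2 * n / 2))) * 4 ^ n :=
          mul_le_mul_of_nonneg_right (mul_le_mul_of_nonneg_left h2 (by norm_num)) h4n.le
      _ = _ := by ring
  have hterm1 : 2 * (2 : ℝ) ^ n * (∑ i ∈ range (2 * m * M + D + 1), (n.choose i : ℝ)) ≤
      2 * 4 ^ n * Real.exp (-(r ^ 2 * n / 2)) := by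
    calc _ ≤ 2 * (2 : ℝ) ^ n * (2 ^ n * Real.exp (-(r ^ 2 * n / 2))) :=
          mul_le_mul_of_nonneg_left hS1' (by positivity)
      _ = 2 * ((2 : ℝ) ^ n * 2 ^ n) * Real.exp (-(r ^ 2 * n / 2)) := by ring
      _ = _ := by rw [← mul_pow]; norm_num
  have hpos : 0 < 4 ^ n * Real.exp (-(r ^ 2 * n / 2)) := by positivity
  calc a ≤ _ := ha m D
    _ ≤ T * (2 * 4 ^ n * Real.exp (-(r ^ 2 * n / 2)) +
        4 * (6400 * (M : ℝ) ^ 2) * 4 ^ n * Real.exp (-(r ^ 2 * n / 2))) :=
        mul_le_mul_of_nonneg_left (add_le_add hterm1 hterm2) hT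
    _ = T * ((2 + 25600 * (M : ℝ) ^ 2) * (4 ^ n * Real.exp (-(r ^ 2 * n / 2)))) := by ring
    _ ≤ T * ((40000 * (M : ℝ) ^ 2) * (4 ^ n * Real.exp (-(r ^ 2 * n / 2)))) := by
        refine mul_le_mul_of_nonneg_left (mul_le_mul_of_nonneg_right ?_ hpos.le) hT
        linarith
    _ = _ := by ring

/-- The bound for corner-free sets with lines computed by circuits. -/
theorem circuit_bound {p k s d n : ℕ} (hp : p.Prime) (hk : 1 ≤ k)
    (A : Finset (V n × V n)) (hA : CornerFree A) (L : V n → Set (V n)) (hL : IsLines A L) (T : ℕ)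
    (h : ∀ x, ∃ F : Fin T → Set (V n), (∀ i, Computed p k s d (F i)) ∧ L x = ⋃ i, F i) :
    (A.card : ℝ) ≤ 40000 * T * ((k * ((p - 1) * (Nat.clog 2 s + 4)) ^ d : ℕ) : ℝ) ^ 2 * 4 ^ n *
      Real.exp (-(n : ℝ) / (12800 * ((k * ((p - 1) * (Nat.clog 2 s + 4)) ^ d : ℕ) : ℝ) ^ 2)) := by
  have : Fact p.Prime := ⟨hp⟩
  set M := k * ((p - 1) * (Nat.clog 2 s + 4)) ^ d with hM
  have hM1 : 1 ≤ M := by
    have h2 := hp.two_le
    have : 0 < (p - 1) * (Nat.clog 2 s + 4) := Nat.mul_pos (by omega) (by omega)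
    exact Nat.mul_pos hk (pow_pos this d)
  refine numerics n M hM1 T A.card (Nat.cast_nonneg T) ?_ fun m D => circuit_ineq A hA L hL T h m D
  -- the trivial bound
  rcases Nat.eq_zero_or_pos T with h0 | h0
  · subst h0
    have : A = ∅ := by
      have hempty : ∀ x, L x = ∅ := by
        intro x
        obtain ⟨F, _, h2⟩ := h x
        rw [h2]
        simp
      rw [Finset.eq_empty_iff_forall_notMem]
      rintro ⟨a, b⟩ hab
      rcases hL with hL | hL | hL
      · have : b ∈ L a := by rw [hL]; exact hab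
        rw [hempty] at this; exact this
      · have : a ∈ L b := by rw [hL]; exact hab
        rw [hempty] at this; exact this
      · have h3 : b ∈ L (a + b) := by
          rw [hL]
          have : a + b + b = a := by
            rw [add_assoc]
            have : b + b = 0 := by funext i; exact CharTwo.add_self_eq_zero _
            rw [this, add_zero]
          show (a + b + b, b) ∈ A
          rw [this]; exact hab
        rw [hempty] at h3; exact h3
    rw [this]; simp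
  · have h1 : (A.card : ℝ) ≤ 4 ^ n := by
      have h2 : A.card ≤ Fintype.card (V n × V n) := Finset.card_le_univ A
      have h3 : Fintype.card (V n × V n) = 4 ^ n := by
        rw [Fintype.card_prod]
        have : Fintype.card (V n) = 2 ^ n := by simp
        rw [this, ← mul_pow]; norm_num
      rw [h3] at h2
      exact_mod_cast h2
    have h2 : (1 : ℝ) ≤ T := by exact_mod_cast h0
    have h3 : (0 : ℝ) < 4 ^ n := by positivity
    nlinarith

end Pool.Agent.W856.Corner
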