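import Mathlib
import Pool.Agent.W856.Corner9

/-!
Corner-free sets decided by circuits on the `2n` bits of a point.
-/

namespace Pool.Agent.W856.Corner

open Finset

lemma hasDegree_restrict {p k n : ℕ} (hp : p.Prime) (x : V n) {f : V (n + n) → Bool}
    (h : HasDegree p k f) : HasDegree p k (fun y : V n => f (Fin.append x y)) := by
  obtain ⟨P, hP, he⟩ := h
  have : Fact p.Prime := ⟨hp⟩
  let σ : Fin (n + n) → MvPolynomial (Fin n) (ZMod p) :=
    Fin.addCases (fun a => MvPolynomial.C (if x a = 1 then 1 else 0)) (fun b => MvPolynomial.X b)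
  have hσ : ∀ i, (σ i).totalDegree ≤ 1 := by
    intro i
    refine Fin.addCases (fun a => ?_) (fun b => ?_) i
    · simp only [σ, Fin.addCases_left, MvPolynomial.totalDegree_C]
      exact Nat.zero_le _
    · simp only [σ, Fin.addCases_right, MvPolynomial.totalDegree_X]
      exact le_rfl
  refine ⟨∑ m ∈ P.support, MvPolynomial.C (P.coeff m) * ∏ i ∈ m.support, σ i ^ m i, ?_,
    fun y => ?_⟩
  · refine MvPolynomial.totalDegree_finsetSum_le fun m hm => ?_
    refine (MvPolynomial.totalDegree_mul _ _).trans ?_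
    rw [MvPolynomial.totalDegree_C, zero_add]
    refine (MvPolynomial.totalDegree_finsetProd _ _).trans ?_
    refine le_trans ?_ ((MvPolynomial.le_totalDegree hm).trans hP)
    rw [Finsupp.sum]
    refine Finset.sum_le_sum fun i _ => ?_
    refine (MvPolynomial.totalDegree_pow _ _).trans ?_
    exact (Nat.mul_le_mul_left _ (hσ i)).trans (by simp)
  · have h1 := he (Fin.append x y)
    rw [MvPolynomial.eval_eq] at h1
    rw [← h1, map_sum]
    refine Finset.sum_congr rfl fun m _ => ?_
    rw [map_mul, MvPolynomial.eval_C, map_prod]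
    congr 1
    refine Finset.prod_congr rfl fun i _ => ?_
    rw [map_pow]
    congr 1
    refine Fin.addCases (fun a => ?_) (fun b => ?_) i
    · simp only [σ, Fin.addCases_left, MvPolynomial.eval_C, Fin.append_left]
    · simp only [σ, Fin.addCases_right, MvPolynomial.eval_X, Fin.append_right]

lemma computed_restrict {p k s d n : ℕ} (hp : p.Prime) (x : V n) {S : Set (V (n + n))}
    (h : Computed p k s d S) : Computed p k s d {y : V n | Fin.append x y ∈ S} := by
  obtain ⟨C, hs, hd, i, hi⟩ := h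
  refine ⟨{ N := C.N
            val := fun j y => C.val j (Fin.append x y)
            depth := C.depth
            andOr := C.andOr
            rule := fun j => ?_ }, hs, hd, i, fun y => hi _⟩
  rcases C.rule j with ⟨h0, h⟩ | ⟨h0, a, ha, hda, h⟩ | ⟨h0, J, r, hJ, h⟩ | ⟨h0, J, hJ, h⟩
  · exact Or.inl ⟨h0, hasDegree_restrict hp x h⟩
  · exact Or.inr (Or.inl ⟨h0, a, ha, hda, fun y => h _⟩)
  · exact Or.inr (Or.inr (Or.inl ⟨h0, J, r, hJ, fun y => h _⟩))
  · refine Or.inr (Or.inr (Or.inr ⟨h0, J, hJ, ?_⟩))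
    rcases h with h | h
    · exact Or.inl fun y => h _
    · exact Or.inr fun y => h _

/-- The bound for corner-free sets decided by circuits on `2n` bits. -/
theorem circuit_bound' {p k s d n : ℕ} (hp : p.Prime) (hk : 1 ≤ k)
    (A : Finset (V n × V n)) (hA : CornerFree A) (T : ℕ)
    (h : ∃ F : Fin T → Set (V (n + n)), (∀ i, Computed p k s d (F i)) ∧
      ∀ x y, (x, y) ∈ A ↔ ∃ i, Fin.append x y ∈ F i) :
    (A.card : ℝ) ≤ 40000 * T * ((k * ((p - 1) * (Nat.clog 2 s + 4)) ^ d : ℕ) : ℝ) ^ 2 * 4 ^ n *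
      Real.exp (-(n : ℝ) / (12800 * ((k * ((p - 1) * (Nat.clog 2 s + 4)) ^ d : ℕ) : ℝ) ^ 2)) := by
  obtain ⟨F, hF, hAF⟩ := h
  refine circuit_bound hp hk A hA (fun x => {y | (x, y) ∈ A}) (Or.inl fun _ => rfl) T fun x => ?_
  refine ⟨fun i => {y | Fin.append x y ∈ F i}, fun i => computed_restrict hp x (hF i), ?_⟩
  ext y
  rw [Set.mem_ofPred_eq, hAF, Set.mem_iUnion]
  rfl

end Pool.Agent.W856.Corner
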