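import Mathlib
import Pool.Agent.W856.Corner4

/-!
Power saving for corner-free sets with structured lines: the final numerical statements.
-/

namespace Pool.Agent.W856.Corner

open Finset

lemma two_rpow_four (t : ℝ) : (4 : ℝ) ^ t = 2 ^ (2 * t) := by
  rw [Real.rpow_mul (by norm_num)]
  norm_num

lemma two_pow_rpow (n : ℕ) : (2 : ℝ) ^ n = 2 ^ (n : ℝ) := (Real.rpow_natCast 2 n).symm

/-- Unions of few sets of low degree or of sparse Fourier transform. -/
theorem low_degree (ε : ℝ) (hε : 0 < ε) : ∃ c : ℝ, 0 < c ∧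
    ∀ (n : ℕ) (A : Finset ((Fin n → ZMod 2) × (Fin n → ZMod 2)))
      (_ : ∀ x y z : Fin n → ZMod 2, (x, y) ∈ A → (x, y + z) ∈ A → (x + z, y) ∈ A → z = 0)
      (L : (Fin n → ZMod 2) → Set (Fin n → ZMod 2))
      (_ : (∀ s, L s = {y | (s, y) ∈ A}) ∨ (∀ s, L s = {x | (x, s) ∈ A}) ∨
        (∀ s, L s = {y | (s + y, y) ∈ A}))
      (_ : ∀ s, ∃ I : Finset (Set (Fin n → ZMod 2)), (I.card : ℝ) ≤ 2 ^ (c * n) ∧
        (∀ S ∈ I, (∃ p : MvPolynomial (Fin n) (ZMod 2), (p.totalDegree : ℝ) ≤ (1 / 2 - ε) * n ∧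
            ∀ y, y ∈ S ↔ MvPolynomial.eval y p ≠ 0) ∨
          (Nat.card {a : Fin n → ZMod 2 // fourier S a ≠ 0} : ℝ) ≤ 2 ^ ((1 / 2 - ε) * n)) ∧
        L s = ⋃ S ∈ I, S),
      (A.card : ℝ) ≤ 4 ^ ((1 - c) * n) := by
  classical
  set e : ℝ := min ε (1 / 2) with he
  have he0 : 0 < e := lt_min hε (by norm_num)
  have he1 : e ≤ 1 / 2 := min_le_right _ _
  have he2 : e ≤ ε := min_le_left _ _
  refine ⟨e ^ 2 / 2, by positivity, ?_⟩
  intro n A hA L hL h
  set c : ℝ := e ^ 2 / 2 with hc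
  set T : ℕ := ⌊(2 : ℝ) ^ (c * n)⌋₊ with hT
  set D : ℕ := ⌊(1 / 2 - e) * (n : ℝ)⌋₊ with hD
  have hn0 : (0 : ℝ) ≤ n := Nat.cast_nonneg n
  have hDn : (0 : ℝ) ≤ (1 / 2 - e) * n := mul_nonneg (by linarith) hn0
  have hDle : (D : ℝ) ≤ (1 / 2 - e) * n := Nat.floor_le hDn
  have hTle : (T : ℝ) ≤ 2 ^ (c * n) := Nat.floor_le (by positivity)
  have hmono : (1 / 2 - ε) * (n : ℝ) ≤ (1 / 2 - e) * n :=
    mul_le_mul_of_nonneg_right (by linarith) hn0
  have key := lines_union T 1 D 0 A hA L hL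
    (fun S : Set (Fin n → ZMod 2) => (∃ p : MvPolynomial (Fin n) (ZMod 2),
      (p.totalDegree : ℝ) ≤ (1 / 2 - ε) * n ∧ ∀ y, y ∈ S ↔ MvPolynomial.eval y p ≠ 0) ∨
          (Nat.card {a : Fin n → ZMod 2 // fourier S a ≠ 0} : ℝ) ≤ 2 ^ ((1 / 2 - ε) * n))
    (fun S => S) (fun s => by
      obtain ⟨I, h1, h2, h3⟩ := h s
      exact ⟨I, Nat.le_floor h1, h2, h3⟩) (fun S hS => by
      have hp : ∃ p : MvPolynomial (Fin n) (ZMod 2), p.totalDegree ≤ D ∧
          ∀ y, MvPolynomial.eval y p ≠ 0 ↔ y ∈ S := by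
        rcases hS with ⟨p, hp1, hp2⟩ | hS
        · exact ⟨p, Nat.le_floor (hp1.trans hmono), fun y => (hp2 y).symm⟩
        · refine sparse_deg S D ?_
          have h1 : ((1 / 2 - e) * (n : ℝ)) < (D : ℝ) + 1 := Nat.lt_floor_add_one _
          have h2 : (2 : ℝ) ^ ((1 / 2 - ε) * (n : ℝ)) < 2 ^ ((D : ℝ) + 1) :=
            Real.rpow_lt_rpow_of_exponent_lt (by norm_num) (by linarith)
          have h3 := lt_of_le_of_lt hS h2
          have h4 : (2 : ℝ) ^ ((D : ℝ) + 1) = ((2 ^ (D + 1) : ℕ) : ℝ) := by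
            rw [← Nat.cast_succ, Real.rpow_natCast]; push_cast; rfl
          rw [h4] at h3
          exact_mod_cast h3
      obtain ⟨p, hp1, hp2⟩ := hp
      refine ⟨{p}, by simp, ?_, ?_⟩
      · intro q hq
        rw [Finset.mem_singleton] at hq
        rw [hq]
        exact ⟨hp1, fun y hy => (hp2 y).1 hy⟩
      · have : {y | y ∈ S ∧ ∀ q ∈ ({p} : Finset (MvPolynomial (Fin n) (ZMod 2))),
            MvPolynomial.eval y q = 0} = ∅ := by
          rw [Set.eq_empty_iff_forall_notMem]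
          rintro y ⟨h1, h2⟩
          exact (hp2 y).2 h1 (h2 p (by simp))
        rw [this]; simp) le_rfl
  have hb := binom_half n D e he0 hDle
  have hfin : (T : ℝ) * (1 : ℕ) * 2 ^ n * ∑ i ∈ range (D + 1), (n.choose i : ℝ) + 2 ^ n * (T * 0) ≤
      4 ^ ((1 - c) * n) := by
    have h1 : (T : ℝ) * (1 : ℕ) * 2 ^ n * ∑ i ∈ range (D + 1), (n.choose i : ℝ) + 2 ^ n * (T * 0) ≤
        2 ^ (c * n) * 2 ^ n * (2 ^ n * Real.exp (-(2 * e ^ 2) * n)) := by
      rw [mul_zero, mul_zero, add_zero, Nat.cast_one, mul_one]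
      refine mul_le_mul ?_ hb (Finset.sum_nonneg fun i _ => by positivity) (by positivity)
      exact mul_le_mul_of_nonneg_right hTle (by positivity)
    refine h1.trans ?_
    have h2 : Real.exp (-(2 * e ^ 2) * n) ≤ 2 ^ (-(3 * c * n)) := by
      rw [Real.rpow_def_of_pos (by norm_num), Real.exp_le_exp]
      have hl : Real.log 2 ≤ 1 := by
        have := Real.log_two_lt_d9
        linarith
      have hcn : 0 ≤ 3 * c * n := by positivity
      nlinarith [mul_le_mul_of_nonneg_right hl hcn, mul_nonneg (sq_nonneg e) hn0]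
    calc _ ≤ (2 : ℝ) ^ (c * n) * 2 ^ n * (2 ^ n * 2 ^ (-(3 * c * n))) := by
          refine mul_le_mul_of_nonneg_left ?_ (by positivity)
          exact mul_le_mul_of_nonneg_left h2 (by positivity)
      _ = 2 ^ (c * n + n + (n + -(3 * c * n))) := by
          rw [two_pow_rpow, Real.rpow_add (by norm_num), Real.rpow_add (by norm_num),
            Real.rpow_add (by norm_num)]
      _ = _ := by
          rw [two_rpow_four]; congr 1; ring
  exact key.trans hfin

/-- Unions of at most `2 ^ (n / 5)` affine subspaces. -/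
theorem affine_lines (n : ℕ) (A : Finset ((Fin n → ZMod 2) × (Fin n → ZMod 2)))
      (hA : ∀ x y z : Fin n → ZMod 2, (x, y) ∈ A → (x, y + z) ∈ A → (x + z, y) ∈ A → z = 0)
      (L : (Fin n → ZMod 2) → Set (Fin n → ZMod 2))
      (hL : (∀ s, L s = {y | (s, y) ∈ A}) ∨ (∀ s, L s = {x | (x, s) ∈ A}) ∨
        (∀ s, L s = {y | (s + y, y) ∈ A}))
      (h : ∀ s, ∃ I : Finset (AffineSubspace (ZMod 2) (Fin n → ZMod 2)),
        (I.card : ℝ) ≤ 2 ^ (n / 5 : ℝ) ∧ L s = ⋃ W ∈ I, (W : Set (Fin n → ZMod 2))) :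
      (A.card : ℝ) ≤ 2 * 4 ^ ((1 - 1 / 100) * n : ℝ) := by
  classical
  set T : ℕ := ⌊(2 : ℝ) ^ (n / 5 : ℝ)⌋₊ with hT
  set D : ℕ := ⌊22 / 100 * (n : ℝ)⌋₊ with hD
  have hn0 : (0 : ℝ) ≤ n := Nat.cast_nonneg n
  have hDle : (D : ℝ) ≤ 22 / 100 * n := Nat.floor_le (by positivity)
  have hDlt : 22 / 100 * (n : ℝ) < D + 1 := Nat.lt_floor_add_one _
  have hTle : (T : ℝ) ≤ 2 ^ (n / 5 : ℝ) := Nat.floor_le (by positivity)
  have key := lines_union T 1 D (2 ^ (78 / 100 * n : ℝ)) A hA L hL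
    (fun _ : AffineSubspace (ZMod 2) (Fin n → ZMod 2) => True)
    (fun W => (W : Set (Fin n → ZMod 2))) (fun s => by
      obtain ⟨I, h1, h2⟩ := h s
      exact ⟨I, Nat.le_floor h1, fun _ _ => trivial, h2⟩) (fun W _ => by
      rcases (W : Set (Fin n → ZMod 2)).eq_empty_or_nonempty with hW | hW
      · refine ⟨∅, by simp, by simp, ?_⟩
        rw [hW]
        simp only [Set.mem_empty_iff_false, false_and, Set.ofPred_false, Set.ncard_empty,
          Nat.cast_zero]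
        positivity
      · by_cases hcod : n ≤ Module.finrank (ZMod 2) W.direction + D
        · obtain ⟨Φ, v, hΦ⟩ := affine_eq W hW D hcod
          obtain ⟨p, hp1, hp2⟩ := ind_exists Φ v
          refine ⟨{p}, by simp, ?_, ?_⟩
          · intro q hq
            rw [Finset.mem_singleton] at hq
            rw [hq]
            exact ⟨hp1, fun y hy => (hΦ y).2 ((hp2 y).1 hy)⟩
          · have : {y | y ∈ (W : Set (Fin n → ZMod 2)) ∧
                ∀ q ∈ ({p} : Finset (MvPolynomial (Fin n) (ZMod 2))),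
                  MvPolynomial.eval y q = 0} = ∅ := by
              rw [Set.eq_empty_iff_forall_notMem]
              rintro y ⟨h1, h2⟩
              exact (hp2 y).2 ((hΦ y).1 h1) (h2 p (by simp))
            rw [this]
            simp only [Set.ncard_empty, Nat.cast_zero]
            positivity
        · refine ⟨∅, by simp, by simp, ?_⟩
          have h1 : {y | y ∈ (W : Set (Fin n → ZMod 2)) ∧
              ∀ q ∈ (∅ : Finset (MvPolynomial (Fin n) (ZMod 2))), MvPolynomial.eval y q = 0} =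
              (W : Set (Fin n → ZMod 2)) := by
            ext y; simp
          rw [h1, card_direction W hW]
          push_cast
          rw [two_pow_rpow]
          refine Real.rpow_le_rpow_of_exponent_le (by norm_num) ?_
          have h2 : Module.finrank (ZMod 2) W.direction + D + 1 ≤ n := by omega
          have h3 : (Module.finrank (ZMod 2) W.direction : ℝ) + D + 1 ≤ n := by exact_mod_cast h2
          linarith) (by positivity)
  have hb := binom_22 n D hDle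
  refine key.trans ?_
  have h1 : (T : ℝ) * (1 : ℕ) * 2 ^ n * ∑ i ∈ range (D + 1), (n.choose i : ℝ) ≤
      2 ^ (n / 5 : ℝ) * 2 ^ n * 2 ^ (77 / 100 * n : ℝ) := by
    rw [Nat.cast_one, mul_one]
    refine mul_le_mul ?_ hb (Finset.sum_nonneg fun i _ => by positivity) (by positivity)
    exact mul_le_mul_of_nonneg_right hTle (by positivity)
  have h2 : (2 : ℝ) ^ n * (T * 2 ^ (78 / 100 * n : ℝ)) ≤
      2 ^ n * (2 ^ (n / 5 : ℝ) * 2 ^ (78 / 100 * n : ℝ)) := by
    refine mul_le_mul_of_nonneg_left ?_ (by positivity)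
    exact mul_le_mul_of_nonneg_right hTle (by positivity)
  have h3 : (2 : ℝ) ^ (n / 5 : ℝ) * 2 ^ n * 2 ^ (77 / 100 * n : ℝ) ≤ 4 ^ ((1 - 1 / 100) * n : ℝ) := by
    rw [two_pow_rpow, ← Real.rpow_add (by norm_num), ← Real.rpow_add (by norm_num), two_rpow_four]
    refine Real.rpow_le_rpow_of_exponent_le (by norm_num) ?_
    linarith
  have h4 : (2 : ℝ) ^ n * (2 ^ (n / 5 : ℝ) * 2 ^ (78 / 100 * n : ℝ)) ≤
      4 ^ ((1 - 1 / 100) * n : ℝ) := by
    rw [two_pow_rpow, ← Real.rpow_add (by norm_num), ← Real.rpow_add (by norm_num), two_rpow_four]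
    refine Real.rpow_le_rpow_of_exponent_le (by norm_num) ?_
    linarith
  linarith

/-- Unions of few parity `k`-CNF sets. -/
theorem cnf_lines (k : ℕ) : ∃ c : ℝ, 0 < c ∧ ∀ (n : ℕ)
      (A : Finset ((Fin n → ZMod 2) × (Fin n → ZMod 2)))
      (_ : ∀ x y z : Fin n → ZMod 2, (x, y) ∈ A → (x, y + z) ∈ A → (x + z, y) ∈ A → z = 0)
      (L : (Fin n → ZMod 2) → Set (Fin n → ZMod 2))
      (_ : (∀ s, L s = {y | (s, y) ∈ A}) ∨ (∀ s, L s = {x | (x, s) ∈ A}) ∨
        (∀ s, L s = {y | (s + y, y) ∈ A}))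
      (_ : ∀ s, ∃ I : Finset (Set (Fin n → ZMod 2)), (I.card : ℝ) ≤ 2 ^ (c * n) ∧
        (∀ S ∈ I, ∃ B : Set (AffineSubspace (ZMod 2) (Fin n → ZMod 2)),
          (∀ W ∈ B, n ≤ Module.finrank (ZMod 2) W.direction + k) ∧
          S = (⋃ W ∈ B, (W : Set (Fin n → ZMod 2)))ᶜ) ∧
        L s = ⋃ S ∈ I, S),
      (A.card : ℝ) ≤ 3 * 4 ^ ((1 - c) * n) := by
  classical
  set K : ℕ := k + 1 with hK
  set r : ℝ := 1 - 1 / 2 ^ K with hr
  have hK0 : (0 : ℝ) < K := by rw [hK]; positivity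
  have hp2 : (0 : ℝ) < 1 / 2 ^ K := by positivity
  have hp2' : (1 : ℝ) / 2 ^ K ≤ 1 / 2 := by
    rw [hK, pow_succ]
    have : (1 : ℝ) ≤ 2 ^ k := one_le_pow₀ (by norm_num)
    rw [div_le_div_iff₀ (by positivity) (by norm_num)]
    linarith
  have hr0 : 1 / 2 ≤ r := by linarith
  have hr1 : r < 1 := by linarith
  have hrpos : 0 < r := by linarith
  set ρ : ℝ := -Real.logb 2 r / (10 * K) with hρ
  have hlog : Real.logb 2 r < 0 := Real.logb_neg (by norm_num) hrpos hr1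
  have hρ0 : 0 < ρ := div_pos (by linarith) (by positivity)
  refine ⟨min (1 / 10) (ρ / 3), lt_min (by norm_num) (by positivity), ?_⟩
  intro n A hA L hL h
  set c : ℝ := min (1 / 10) (ρ / 3) with hc
  have hc1 : c ≤ 1 / 10 := min_le_left _ _
  have hc2 : c ≤ ρ / 3 := min_le_right _ _
  have hn0 : (0 : ℝ) ≤ n := Nat.cast_nonneg n
  set m : ℕ := ⌊(n : ℝ) / (10 * K)⌋₊ with hm
  have hmle : (m : ℝ) ≤ n / (10 * K) := Nat.floor_le (by positivity)
  have hmlt : (n : ℝ) / (10 * K) < m + 1 := Nat.lt_floor_add_one _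
  set T : ℕ := ⌊(2 : ℝ) ^ (c * n)⌋₊ with hT
  have hTle : (T : ℝ) ≤ 2 ^ (c * n) := Nat.floor_le (by positivity)
  have hKm : ((K * m : ℕ) : ℝ) ≤ 1 / 10 * n := by
    push_cast
    calc (K : ℝ) * m ≤ K * (n / (10 * K)) := mul_le_mul_of_nonneg_left hmle hK0.le
      _ = 1 / 10 * n := by field_simp
  have key := lines_union T (2 ^ (K * m)) (K * m) (r ^ m * 2 ^ n) A hA L hL
    (fun S : Set (Fin n → ZMod 2) => ∃ B : Set (AffineSubspace (ZMod 2) (Fin n → ZMod 2)),
          (∀ W ∈ B, n ≤ Module.finrank (ZMod 2) W.direction + k) ∧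
          S = (⋃ W ∈ B, (W : Set (Fin n → ZMod 2)))ᶜ)
    (fun S => S) (fun s => by
      obtain ⟨I, h1, h2, h3⟩ := h s
      exact ⟨I, Nat.le_floor h1, h2, h3⟩) (fun S hS => by
      obtain ⟨B, hB, rfl⟩ := hS
      obtain ⟨F, hF1, hF2, hF3, hF4⟩ := tree (k := K)
        {b | ∃ W ∈ B, b = (W : Set (Fin n → ZMod 2)) ∧ b.Nonempty}
        (fun b hb => by
          obtain ⟨W, hW, rfl, hne⟩ := hb
          exact affine_eq W hne K (by have := hB W hW; omega))
        m Finset.univ (fun _ _ _ _ _ _ => Finset.mem_univ _) 1 0 (by simp) (by simp)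
      have hiff : ∀ y : Fin n → ZMod 2, (∀ b ∈ {b | ∃ W ∈ B, b = (W : Set (Fin n → ZMod 2)) ∧ b.Nonempty},
          y ∉ b) ↔ y ∈ (⋃ W ∈ B, (W : Set (Fin n → ZMod 2)))ᶜ := by
        intro y
        rw [Set.mem_compl_iff, Set.mem_iUnion₂]
        constructor
        · rintro h ⟨W, hW, hy⟩
          exact h _ ⟨W, hW, rfl, ⟨y, hy⟩⟩ hy
        · rintro h b ⟨W, hW, rfl, _⟩ hy
          exact h ⟨W, hW, hy⟩
      refine ⟨F, hF1, ?_, ?_⟩
      · intro q hq
        refine ⟨by simpa using hF2 q hq, fun y hy => ?_⟩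
        exact (hiff y).1 (hF3 q hq y hy).2
      · have h1 : (Finset.univ : Finset (Fin n → ZMod 2)).card = 2 ^ n := by simp
        rw [h1] at hF4
        push_cast at hF4
        refine le_trans (le_of_eq ?_) hF4
        congr 2
        ext y
        have := hiff y
        constructor
        · rintro ⟨h1, h2⟩
          exact ⟨Finset.mem_univ _, this.2 h1, h2⟩
        · rintro ⟨_, h1, h2⟩
          exact ⟨this.1 h1, h2⟩) (by positivity)
  have hb := binom_10 n (K * m) hKm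
  refine key.trans ?_
  have hT' : ((2 ^ (K * m) : ℕ) : ℝ) ≤ 2 ^ (1 / 10 * n : ℝ) := by
    push_cast
    rw [two_pow_rpow]
    exact Real.rpow_le_rpow_of_exponent_le (by norm_num) hKm
  have h1 : (T : ℝ) * (2 ^ (K * m) : ℕ) * 2 ^ n * ∑ i ∈ range (K * m + 1), (n.choose i : ℝ) ≤
      2 ^ (c * n) * 2 ^ (1 / 10 * n : ℝ) * 2 ^ n * 2 ^ (1 / 2 * n : ℝ) := by
    refine mul_le_mul ?_ hb (Finset.sum_nonneg fun i _ => by positivity) (by positivity)
    refine mul_le_mul_of_nonneg_right ?_ (by positivity)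
    exact mul_le_mul hTle hT' (by positivity) (by positivity)
  have hrm : r ^ m ≤ 2 * 2 ^ (-(ρ * n)) := by
    have e1 : r = 2 ^ (Real.logb 2 r) := (Real.rpow_logb (by norm_num) (by norm_num) hrpos).symm
    have e2 : r ^ m * r ≤ 2 ^ (-(ρ * n)) := by
      rw [← pow_succ]
      have : r ^ (m + 1) = 2 ^ (Real.logb 2 r * (m + 1 : ℕ)) := by
        rw [Real.rpow_mul (by norm_num), ← e1, Real.rpow_natCast]
      rw [this]
      refine Real.rpow_le_rpow_of_exponent_le (by norm_num) ?_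
      have h5 : -(ρ * n) = Real.logb 2 r * (n / (10 * K)) := by
        rw [hρ]; ring
      rw [h5]
      refine mul_le_mul_of_nonpos_left ?_ hlog.le
      push_cast
      linarith
    have e3 : r ^ m ≤ 2 * (r ^ m * r) := by
      have : 0 ≤ r ^ m := pow_nonneg hrpos.le m
      nlinarith
    linarith
  have h2 : (2 : ℝ) ^ n * (T * (r ^ m * 2 ^ n)) ≤
      2 ^ n * (2 ^ (c * n) * (2 * 2 ^ (-(ρ * n)) * 2 ^ n)) := by
    refine mul_le_mul_of_nonneg_left ?_ (by positivity)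
    refine mul_le_mul hTle ?_ (by positivity) (by positivity)
    exact mul_le_mul_of_nonneg_right hrm (by positivity)
  have h3 : (2 : ℝ) ^ (c * n) * 2 ^ (1 / 10 * n : ℝ) * 2 ^ n * 2 ^ (1 / 2 * n : ℝ) ≤
      4 ^ ((1 - c) * n) := by
    rw [two_pow_rpow, ← Real.rpow_add (by norm_num), ← Real.rpow_add (by norm_num),
      ← Real.rpow_add (by norm_num), two_rpow_four]
    refine Real.rpow_le_rpow_of_exponent_le (by norm_num) ?_
    nlinarith [mul_le_mul_of_nonneg_right hc1 hn0]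
  have h4 : (2 : ℝ) ^ n * (2 ^ (c * n) * (2 * 2 ^ (-(ρ * n)) * 2 ^ n)) ≤
      2 * 4 ^ ((1 - c) * n) := by
    have : (2 : ℝ) ^ n * (2 ^ (c * n) * (2 * 2 ^ (-(ρ * n)) * 2 ^ n)) =
        2 * 2 ^ ((n : ℝ) + (c * n + (-(ρ * n) + n))) := by
      rw [two_pow_rpow, Real.rpow_add (by norm_num) (n : ℝ), Real.rpow_add (by norm_num) (c * n),
        Real.rpow_add (by norm_num) (-(ρ * n))]
      ring
    rw [this, two_rpow_four]
    refine mul_le_mul_of_nonneg_left ?_ (by norm_num)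
    refine Real.rpow_le_rpow_of_exponent_le (by norm_num) ?_
    nlinarith [mul_le_mul_of_nonneg_right hc2 hn0]
  linarith

end Pool.Agent.W856.Corner
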