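import Pool.Agent.W982.TA.Stm2

/-!
# Soundness of `crossCS`
-/

set_option autoImplicit false

namespace Pool.Agent.W982.TA

theorem w856_allpos {s p q i j : ℤ} (hi : 1 ≤ i) (hj : 1 ≤ j) (h : allpos s p q = true) :
    0 < s + i * p + j * q := by
  simp only [allpos, Bool.and_eq_true, decide_eq_true_eq] at h
  obtain ⟨⟨hp, hq⟩, hs⟩ := h
  nlinarith [mul_nonneg (sub_nonneg.2 hi) hp, mul_nonneg (sub_nonneg.2 hj) hq]

theorem w856_allneg {s p q i j : ℤ} (hi : 1 ≤ i) (hj : 1 ≤ j) (h : allneg s p q = true) :
    s + i * p + j * q < 0 := by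
  have := w856_allpos hi hj h
  linarith

theorem w856_aux {x y : ℤ} (h : (0 < x ∧ y < 0) ∨ (x < 0 ∧ 0 < y)) : x * y < 0 := by
  rcases h with ⟨h1, h2⟩ | ⟨h1, h2⟩
  · exact mul_neg_of_pos_of_neg h1 h2
  · exact mul_neg_of_neg_of_pos h1 h2

theorem s3 : TaskS3 := by
  intro u w d v i j hi hj h
  simp only [crossCS, Bool.and_eq_true, Bool.or_eq_true] at h
  obtain ⟨h1, h2⟩ := h
  constructor
  · apply w856_aux
    rcases h1 with ⟨a, b⟩ | ⟨a, b⟩
    · right
      have ha := w856_allpos hi hj a
      have hb := w856_allneg hi hj b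
      simp only [dt, dtv] at *
      constructor <;> nlinarith
    · left
      have ha := w856_allneg hi hj a
      have hb := w856_allpos hi hj b
      simp only [dt, dtv] at *
      constructor <;> nlinarith
  · apply w856_aux
    rcases h2 with ⟨a, b⟩ | ⟨a, b⟩
    · left
      have ha := w856_allneg hi hj a
      have hb := w856_allpos hi hj b
      simp only [dt, dtv] at *
      constructor <;> nlinarith
    · right
      have ha := w856_allpos hi hj a
      have hb := w856_allneg hi hj b
      simp only [dt, dtv] at *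
      constructor <;> nlinarith

end Pool.Agent.W982.TA
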