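import Pool.Agent.W527.CL.Stm

namespace Pool.Agent.W856.CLEXP

open NumberField
open Pool.Agent.W527.CL

/-- the integral version of the sign function of the two complex roots -/
def ep (k : Fin 5) : ℤ := if k = 3 then 1 else if k = 4 then -1 else 0

lemma ep_cast (k : Fin 5) : (ep k : ℂ) = if k = 3 then 1 else if k = 4 then -1 else 0 := by
  unfold ep
  split_ifs <;> simp

lemma exp_diff {K : Type} [Field K] [NumberField K] (D : FieldData K) (h : S_LGC)
    (C : Matrix (Fin 4) (Fin 4) ℤ) (r : Fin 4 → ℤ) (i : Fin 4) (k k' : Fin 5) :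
    Complex.exp (D.muc (fun i j => ((C i j + C j i : ℤ) : ℝ)) (fun i => (r i : ℝ)) i k -
      D.muc (fun i j => ((C i j + C j i : ℤ) : ℝ)) (fun i => (r i : ℝ)) i k') =
    ∏ j, ((D.β k + (nn j : ℂ)) / (D.β k' + (nn j : ℂ))) ^ (C i j + C j i) := by
  have e : D.muc (fun i j => ((C i j + C j i : ℤ) : ℝ)) (fun i => (r i : ℝ)) i k -
      D.muc (fun i j => ((C i j + C j i : ℤ) : ℝ)) (fun i => (r i : ℝ)) i k' =
      ∑ j, ((C i j + C j i : ℤ) : ℂ) * (D.lgc j k - D.lgc j k') +
        ((r i * (ep k - ep k') : ℤ) : ℂ) * (2 * Real.pi * Complex.I) := by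
    unfold FieldData.muc
    rw [← ep_cast, ← ep_cast]
    simp only [mul_sub, Finset.sum_sub_distrib]
    push_cast
    ring
  rw [e, Complex.exp_add, Complex.exp_int_mul_two_pi_mul_I, mul_one, Complex.exp_sum]
  refine Finset.prod_congr rfl fun j _ => ?_
  rw [Complex.exp_int_mul, Complex.exp_sub, (h K D j k).2.2, (h K D j k').2.2]

theorem t_EXP (h : S_LGC) : S_EXP := by
  intro K _ _ D C r
  refine ⟨∏ i, ∏ j, (D.gu i j * D.gu j i) ^ (C i j), ?_, ?_⟩
  · have hm : ∀ i j : Fin 4, D.gu i j * D.gu j i ∈ D.L := fun i j =>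
      Subgroup.subset_closure (Set.mem_range_self (f := fun ij : Fin 4 × Fin 4 =>
        D.gu ij.1 ij.2 * D.gu ij.2 ij.1) (i, j))
    exact Subgroup.prod_mem _ fun i _ => Subgroup.prod_mem _ fun j _ =>
      Subgroup.zpow_mem _ (hm i j) _
  · funext φ
    apply Units.ext
    show φ ((∏ i, ∏ j, (D.gu i j * D.gu j i) ^ (C i j) : Kˣ) : K) = Complex.exp (D.vec C r φ)
    have hg : ∀ i j, φ ((D.gu i j : Kˣ) : K) = (D.β (D.perm φ i.castSucc) + (nn j : ℂ)) /
        (D.β (D.perm φ (Fin.last 4)) + (nn j : ℂ)) := by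
      intro i j
      show φ (D.g i j) = _
      unfold FieldData.g
      rw [map_div₀, map_add, map_add, D.perm_spec, D.perm_spec, map_intCast]
    have hR : Complex.exp (D.vec C r φ) = ∏ i, ∏ j, (φ ((D.gu i j : Kˣ) : K)) ^ (C i j + C j i) := by
      unfold FieldData.vec ev
      rw [Complex.exp_sum]
      refine Finset.prod_congr rfl fun i _ => ?_
      rw [exp_diff D h]
      refine Finset.prod_congr rfl fun j _ => ?_
      rw [hg]
    have hne : ∀ i j, φ ((D.gu i j : Kˣ) : K) ≠ 0 := fun i j => by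
      rw [Ne, map_eq_zero]; exact Units.ne_zero _
    rw [hR]
    have h1 : ∏ i, ∏ j, (φ ((D.gu i j : Kˣ) : K)) ^ (C i j + C j i) =
        (∏ i, ∏ j, (φ ((D.gu i j : Kˣ) : K)) ^ (C i j)) *
        ∏ i, ∏ j, (φ ((D.gu j i : Kˣ) : K)) ^ (C i j) := by
      have h2 : ∏ i, ∏ j, (φ ((D.gu j i : Kˣ) : K)) ^ (C i j) =
          ∏ i, ∏ j, (φ ((D.gu i j : Kˣ) : K)) ^ (C j i) := Finset.prod_comm
      rw [h2, ← Finset.prod_mul_distrib]
      refine Finset.prod_congr rfl fun i _ => ?_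
      rw [← Finset.prod_mul_distrib]
      refine Finset.prod_congr rfl fun j _ => ?_
      rw [zpow_add₀ (hne i j)]
    rw [h1, ← Finset.prod_mul_distrib]
    rw [Units.coe_prod, map_prod]
    refine Finset.prod_congr rfl fun i _ => ?_
    rw [Units.coe_prod, map_prod, ← Finset.prod_mul_distrib]
    refine Finset.prod_congr rfl fun j _ => ?_
    rw [Units.val_zpow_eq_zpow_val, map_zpow₀, Units.val_mul, map_mul, mul_zpow]

end Pool.Agent.W856.CLEXP
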