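import Pool.Agent.W868.FI.Stms

/-! Approximation by local functions. -/

open MeasureTheory Set

namespace Pool.Agent.W856.FI

open Pool.Agent.W868.FI

theorem approx_set {ι X : Type} [MeasurableSpace X] (μ : Measure X) [IsProbabilityMeasure μ]
    (S : Set (ι → X)) (hS : MeasurableSet S) (ε : ℝ) (hε : 0 < ε) :
    ∃ (W : Finset ι) (A : Set (ι → X)), MeasurableSet A ∧
      (∀ x y : ι → X, (∀ k ∈ W, x k = y k) → (x ∈ A ↔ y ∈ A)) ∧
      iid ι μ (symmDiff S A) < ENNReal.ofReal ε := by
  have hd : (iid ι μ).MeasureDense (measurableCylinders (fun _ : ι => X)) :=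
    Measure.MeasureDense.of_generateFrom_isSetAlgebra_finite _
      isSetAlgebra_measurableCylinders generateFrom_measurableCylinders.symm
  obtain ⟨A, hA, hlt⟩ := hd.approx S hS (measure_ne_top _ _) ε hε
  have hAm := hd.measurable A hA
  obtain ⟨W, T, hT, rfl⟩ := (mem_measurableCylinders A).1 hA
  refine ⟨W, cylinder W T, hAm, ?_, hlt⟩
  intro x y hxy
  have : W.restrict x = W.restrict y := by
    funext k
    exact hxy k.1 k.2
  simp only [mem_cylinder, this]

theorem approx : S_APPROX := by
  classical
  intro ι X Sg _ _ _ μ _ f hf ε hε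
  have hpos : (0 : ℝ) < (Fintype.card Sg : ℝ) + 1 := by positivity
  choose W A hAm hAd hAe using fun s : Sg =>
    approx_set μ (f ⁻¹' {s}) (hf s) (ε / (Fintype.card Sg + 1)) (div_pos hε hpos)
  have : Nonempty X := μ.nonempty_of_neZero
  have : Nonempty Sg := ⟨f (fun _ => Classical.arbitrary X)⟩
  let G : Set Sg → Sg := fun T => if h : ∃ s, T = {s} then h.choose else Classical.arbitrary Sg
  have hG : ∀ s, G {s} = s := by
    intro s
    have h : ∃ s', ({s} : Set Sg) = {s'} := ⟨s, rfl⟩
    have h2 := h.choose_spec
    have : G {s} = h.choose := dif_pos h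
    rw [this]
    exact (Set.singleton_injective h2).symm
  let T : (ι → X) → Set Sg := fun x => {s | x ∈ A s}
  have hT : Measurable T := by
    rw [measurable_set_iff]
    intro s
    exact (hAm s).mem
  refine ⟨Finset.univ.biUnion W, fun x => G (T x), ?_, ?_, ?_⟩
  · intro s
    exact hT (Set.toFinite (G ⁻¹' {s})).measurableSet
  · intro x y hxy
    have : T x = T y := by
      ext s
      refine hAd s x y fun k hk => hxy k ?_
      simp only [Finset.coe_biUnion, Set.mem_iUnion, Finset.mem_coe]
      exact ⟨s, Finset.mem_univ s, hk⟩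
    show G (T x) = G (T y)
    rw [this]
  · have hsub : {x | f x ≠ G (T x)} ⊆ ⋃ s ∈ (Finset.univ : Finset Sg),
        symmDiff (f ⁻¹' {s}) (A s) := by
      intro x hx
      by_contra hcon
      apply hx
      have hall : ∀ s, x ∈ A s ↔ f x = s := by
        intro s
        have : x ∉ symmDiff (f ⁻¹' {s}) (A s) := by
          intro h
          exact hcon (Set.mem_biUnion (Finset.mem_coe.2 (Finset.mem_univ s)) h)
        rw [Set.mem_symmDiff] at this
        push Not at this
        constructor
        · intro h
          exact this.2 h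
        · intro h
          exact this.1 h
      have : T x = {f x} := by
        ext s
        rw [Set.mem_singleton_iff]
        exact (hall s).trans eq_comm
      rw [this, hG]
    calc iid ι μ {x | f x ≠ G (T x)}
        ≤ iid ι μ (⋃ s ∈ (Finset.univ : Finset Sg), symmDiff (f ⁻¹' {s}) (A s)) :=
          measure_mono hsub
      _ ≤ ∑ s : Sg, iid ι μ (symmDiff (f ⁻¹' {s}) (A s)) := measure_biUnion_finset_le _ _
      _ ≤ ∑ _s : Sg, ENNReal.ofReal (ε / (Fintype.card Sg + 1)) :=
          Finset.sum_le_sum fun s _ => (hAe s).le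
      _ = ENNReal.ofReal (Fintype.card Sg * (ε / (Fintype.card Sg + 1))) := by
          rw [Finset.sum_const, Finset.card_univ, nsmul_eq_mul,
            ENNReal.ofReal_mul (Nat.cast_nonneg _), ENNReal.ofReal_natCast]
      _ ≤ ENNReal.ofReal ε := by
          apply ENNReal.ofReal_le_ofReal
          rw [mul_div_assoc', div_le_iff₀ hpos]
          nlinarith

end Pool.Agent.W856.FI
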